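import Pool.Agent.H71.CDX.Cdq

/-!
# The inputs of codes of the closed gradient, with labels in the box

`codes_atU`: as `codes_at`; the labels of degree `≤ K` are a hypothesis of the box, the numbers do not
depend on the base.
-/

set_option autoImplicit false

namespace Pool.CDX

open Finset Real MvPolynomial
open Pool.Agent.H49.Ent Pool.Agent.H32.Dense Pool.STK Pool.KA Pool.KSAT Pool.K2S Pool.PB Pool.GEN
open Pool.S6C Pool.RCD Pool.LA91 Pool.OWN68 Pool.CHT Pool.AVG96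
open Pool.AVG57 (CdC nd ddN ntN)

variable {m : ℕ} {S : PCl m} {c : ℕ → Fin m} {r₀ K : ℕ} {s₀ : ℝ}
  {sn : ℝ → ℕ → ℝ} {G : Set ℝ} {g : ℝ} {Sl : ℕ → ℝ}

/-- **The inputs of codes** of the closed gradient (`C1R`), at a point; the labels of degree `≤ K` are a
hypothesis of the box. -/
theorem codes_atU {v : ℕ} (hS : SlpG sn r₀ (v + 1) G g Sl) (hr : r₀ ≤ v)
    (hσ : 1 ≤ Sl (v + 1)) {hd : ℝ} (hh : 0 < hd) (hh1 : hd ≤ 1)
    (hraw : RawG S c sn G g hd (v + 1))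
    (hsrc : ∀ l, r₀ ≤ l → l ≤ v → SrcU S c r₀ (v + 1) s₀ K sn G g l) {e C ν₀ γ₀ : ℝ} (he : 0 < e)
    (hC : 0 < C) (hν : 0 < ν₀) (hγ : 0 < γ₀) :
    ∃ D : ℕ → ℝ, (∀ l ≤ v, C ≤ D l) ∧ (∀ l < v, D (l + 1) + γ₀ ≤ D l) ∧
    ∃ Cm κ : ℝ, 0 < Cm ∧ 0 < κ ∧ (∀ l ≤ v, D l ≤ Cm) ∧
    ∀ (γ : ∀ J : ℕ, Fam m J → Type) (y : ∀ (J : ℕ) (F : Fam m J), F.Ω → γ J F) (A B Λ : ℝ),
    GCh S (fun J F => ptr F J) y c r₀ (v + 1) s₀ A B Λ sn G → A < g → g < B →
    ∃ ρ : ℝ, 0 < ρ ∧ ∀ R : ℝ, 0 < R → R < ρ →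
    LbR S c r₀ K sn G g (Cm * R) (Cm * R) (κ * R) (v + 1) →
    ∀ w ∈ G, g - R ≤ w → ∀ x : ℝ, w ≤ x → x ≤ g + R → ∀ (a p s n n' : ℕ → ℝ) (q ξ ν : ℝ),
    (∀ l, r₀ ≤ l → l ≤ v + 1 → sn w l - κ * R ≤ p l) → s v = sn w v →
    s (v + 1) = sn w (v + 1) →
    (∀ l, r₀ ≤ l → l ≤ v → sn w l + (D l - 1) * R ≤ n l ∧ n l ≤ sn w l + D l * R ∧
      n' l = n l) →
    (∀ j : ℕ, j ≤ 1 → sn w v + Cm * R ≤ nD sn a v j + (j : ℝ) * w) →
    (∀ l, r₀ ≤ l → l ≤ v → Sl l * (x - w) + ν ≤ q) → q ≤ Sl (v + 1) * (x - w) →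
    0 ≤ ξ → q + ξ ≤ C * R → ν₀ * R ≤ ν →
    (∀ l, r₀ ≤ l → l ≤ v → CdC S y c l K 2 w w (p l) (n' l) (e * R)
      (jetQ m c r₀ l w p (nd n n' w))) ∧
    CdC S y c (v + 1) K 1 w w (p (v + 1)) (s (v + 1) + q + ξ) (e * R)
      (jetQ m c r₀ (v + 1) w p (ddN sn a n n' w v)) ∧
    CdC S y c (v + 1) K 0 w x (p (v + 1)) (s (v + 1) + q - ν) (e * R)
      (qJets m c r₀ (v + 1) (K + 2) (fun _ _ => w) (fun l _ => p l)
        (fun l j' => ntN s n (q - ν / 4) v l - (j' : ℝ) * w)) := by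
  have hS1 : ∀ l, r₀ ≤ l → l ≤ v + 1 → 1 ≤ Sl l := fun l a b => by
    rcases Nat.lt_or_ge l (v + 1) with h1 | h1
    · exact (hS.gt l a h1).le
    · obtain rfl : l = v + 1 := by omega
      exact hσ
  obtain ⟨Sb, hSb0, hSb⟩ := ex_max (v + 2) Sl
  have hSb1 : 1 ≤ Sb := hσ.trans (hSb (v + 1) (by omega))
  obtain ⟨ν₁, hν₁⟩ : ∃ ν₁, ν₁ = ν₀ / (2 * Sb) := ⟨_, rfl⟩
  have hν₁0 : 0 < ν₁ := by rw [hν₁]; positivity
  have hνS : 2 * (Sb * ν₁) = ν₀ := by rw [hν₁]; field_simp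
  obtain ⟨C₁, κ₁, b1, b2, H1'⟩ := dj_atU hS (by omega) le_rfl hS1 hh hh1 hraw
    (fun l a b => hsrc l a (by omega)) he hC
  obtain ⟨C₂, κ₂, d1, d2, H2'⟩ := jt_atU (s₀ := s₀) hS (by omega) hS1 hh hh1 hraw he hC hν₁0
  obtain ⟨Cu, hCu⟩ : ∃ Cu, Cu = C + C₁ + C₂ + 5 := ⟨_, rfl⟩
  obtain ⟨D, D1, D2, Cm, κ, q1, q2, D3, H'⟩ := cds_atU he
    (C := Cu) (by rw [hCu]; positivity) hγ v v le_rfl hsrc
  rw [Nat.sub_self] at D1 D2 D3 H'
  have hD1 : ∀ l ≤ v, Cu ≤ D l := fun l a => D1 l (Nat.zero_le l) a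
  refine ⟨D, fun l a => ?_, fun l a => D2 l (Nat.zero_le l) a, Cm + Cu,
    min (min κ (min κ₁ κ₂)) (1 / 2), ?_, lt_min (lt_min q2 (lt_min b2 d2)) (by norm_num),
    fun l a => ?_, ?_⟩
  · have := hD1 l a
    linarith
  · rw [hCu]
    positivity
  · have := D3 l (Nat.zero_le l) a
    rw [hCu]
    linarith
  intro γ y A B Λ h hgA hgB
  obtain ⟨ρ, q3, H⟩ := H' γ y A B Λ h hgA hgB
  obtain ⟨ρ₁, b3, H1⟩ := H1' γ y A B Λ h hgA hgB
  obtain ⟨ρ₂, d3, H2⟩ := H2' γ y A B Λ h hgA hgB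
  refine ⟨min (min ρ (min ρ₁ ρ₂)) (min (g - A) (B - g)),
    lt_min (lt_min q3 (lt_min b3 d3)) (lt_min (by linarith) (by linarith)), ?_⟩
  intro R hR hRρ hlb w hw w1 x hwx x2 a p s n n' q ξ ν hp hsv hst hn hfar hx hq hξ hqC hνν
  have r1 := hRρ.trans_le (min_le_left _ _)
  obtain ⟨κ', hκ'⟩ : ∃ κ', κ' = min (min κ (min κ₁ κ₂)) (1 / 2) := ⟨_, rfl⟩
  rw [← hκ'] at hp hlb
  have k0 : κ' * R ≤ κ * R := mul_le_mul_of_nonneg_right
    (by rw [hκ']; exact (min_le_left _ _).trans (min_le_left _ _)) hR.le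
  have k1 : κ' * R ≤ κ₁ * R := mul_le_mul_of_nonneg_right
    (by rw [hκ']; exact (min_le_left _ _).trans ((min_le_right _ _).trans (min_le_left _ _))) hR.le
  have k2 : κ' * R ≤ κ₂ * R := mul_le_mul_of_nonneg_right
    (by rw [hκ']; exact (min_le_left _ _).trans ((min_le_right _ _).trans (min_le_right _ _)))
    hR.le
  have k3 : κ' * R ≤ 1 / 2 * R := mul_le_mul_of_nonneg_right
    (by rw [hκ']; exact min_le_right _ _) hR.le
  have hw2 : w ≤ g + R := hwx.trans x2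
  have hCmR : Cu * R ≤ (Cm + Cu) * R := mul_le_mul_of_nonneg_right (by linarith) hR.le
  have hCuR : Cu * R = C * R + C₁ * R + C₂ * R + 5 * R := by rw [hCu]; ring
  have hCR := mul_pos hC hR
  have hC1R := mul_pos b1 hR
  have hC2R := mul_pos d1 hR
  have hmR := mul_pos q1 hR
  have hCmR' : (Cm + Cu) * R = Cm * R + C * R + C₁ * R + C₂ * R + 5 * R := by rw [hCu]; ring
  have hl1 : LbR S c r₀ K sn G g (C₁ * R) ((C + 4) * R) (R / 2) (v + 1) :=
    hlb.mono (by rw [hCmR']; linarith) (by rw [hCmR']; linarith) (by linarith)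
  have hl2 : LbR S c r₀ K sn G g (C₂ * R) (2 * R) (κ₂ * R) (v + 1) :=
    hlb.mono (by rw [hCmR']; linarith) (by rw [hCmR']; linarith) (by linarith)
  have hDR : ∀ l, r₀ ≤ l → l ≤ v → sn w l + C * R + C₁ * R + C₂ * R ≤ n l := fun l a b => by
    have h1 := (hn l a b).1
    have h2 : (Cu - 1) * R ≤ (D l - 1) * R :=
      mul_le_mul_of_nonneg_right (by linarith [hD1 l b]) hR.le
    have h3 : (Cu - 1) * R = C * R + C₁ * R + C₂ * R + 4 * R := by rw [hCu]; ring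
    linarith
  have hνR : 0 < ν₀ * R := by positivity
  refine ⟨fun l a b => ?_, ?_, ?_⟩
  · exact H R hR (r1.trans_le (min_le_left _ _)) w hw w1 hw2 p n n'
      (fun l' x' z => by linarith [hp l' x' (by omega)]) (fun l' x' _ z => hn l' x' z)
      (fun l' _ z => absurd z (Nat.not_lt_zero l')) l a (Nat.zero_le l) b
  · refine H1 R hR (r1.trans_le ((min_le_right _ _).trans (min_le_left _ _))) hl1 w hw w1 hw2 p
      (ddN sn a n n' w v) _ (fun l' x' z => by linarith [hp l' x' z.le])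
      (by linarith [hp (v + 1) (by omega) le_rfl]) (fun l' x' z j hj => ?_) (by
        rw [hst]
        linarith)
    unfold ddN
    by_cases h1 : l' = v
    · rw [if_pos h1, h1]
      have := hfar j hj
      linarith
    · rw [if_neg h1]
      have h2 := hDR l' x' (by omega)
      have h3 := (hn l' x' (by omega)).2.2
      exact nd_lo (by linarith) (by rw [h3]; linarith) j
  · have hxv := hx v hr le_rfl
    have hSv := hS1 v hr (by omega)
    have hxw : 0 ≤ x - w := by linarith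
    have e1 : Sl (v + 1) * (x - w) ≤ Sb * (x - w) :=
      mul_le_mul_of_nonneg_right (hSb (v + 1) (by omega)) hxw
    have e2 : 1 * (x - w) ≤ Sl v * (x - w) := mul_le_mul_of_nonneg_right hSv hxw
    have e3 : ν₁ * R ≤ x - w := by
      have h1 : Sb * (2 * (ν₁ * R)) ≤ Sb * (x - w) := by
        have : Sb * (2 * (ν₁ * R)) = ν₀ * R := by rw [← hνS]; ring
        linarith
      have := le_of_mul_le_mul_left h1 hSb0
      have h2 := mul_pos hν₁0 hR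
      linarith
    have e4 : ν₁ * R ≤ ν₀ * R / 2 := by
      have h1 : 1 * (ν₁ * R) ≤ Sb * (ν₁ * R) :=
        mul_le_mul_of_nonneg_right hSb1 (mul_pos hν₁0 hR).le
      have h2 : 2 * (Sb * (ν₁ * R)) = ν₀ * R := by rw [← hνS]; ring
      linarith
    refine H2 R hR (r1.trans_le ((min_le_right _ _).trans (min_le_right _ _))) hl2 w hw w1 x hwx
      x2 p
      (ntN s n (q - ν / 4) v) (q - ν) _ (fun l' x' z => by linarith [hp l' x' z])
      (fun l' x' z => ?_) (fun l' x' z => ?_) (fun l' x' z => ?_) (by linarith) (by linarith)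
      (by linarith) (by rw [hst]; linarith)
    · unfold ntN
      rw [if_neg (by omega)]
      have h2 := hDR l' x' (by omega)
      linarith
    · obtain rfl : l' = v := by omega
      unfold ntN
      rw [if_pos rfl, hsv]
      exact ⟨by linarith, by linarith⟩
    · by_contra hc
      rw [not_le] at hc
      have h3 := hx l' x' (by omega)
      have h4 : Sl (v + 1) * (x - w) ≤ Sl l' * (x - w) := mul_le_mul_of_nonneg_right hc.le hxw
      linarith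

end Pool.CDX
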