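import Pool.Agent.H71.CDX.Cdi
import Pool.Agent.H68.OWN.Jw

/-!
# The rows which are not full near a window, from the rate

`rawP_rate`: all rows of the place `i` near its level at `g` are not full, if the derivative of the
rate there is at most `1 - h`. `rawG_rate`: the same in the form `RawG`.
-/

set_option autoImplicit false

namespace Pool.CDX

open Finset Real MvPolynomial
open Pool.Agent.H49.Ent Pool.Agent.H32.Dense Pool.STK Pool.KA Pool.KSAT Pool.K2S Pool.PB Pool.GEN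
open Pool.S6C Pool.RCD Pool.LA91 Pool.OWN68 Pool.CHT Pool.AVG96
open Pool.ALL (RateOf)

variable {m : ℕ} {S : PCl m} {c : ℕ → Fin m} {r₀ r i : ℕ} {sn : ℝ → ℕ → ℝ} {G : Set ℝ} {g : ℝ}
  {Sl : ℕ → ℝ} {rt : ℝ → ℝ} {h : ℝ}

/-- The levels near `g`. -/
theorem slpG_near (hS : SlpG sn r₀ r G g Sl) (hg : g ∈ G) (h0 : r₀ ≤ i) (hi : i ≤ r) :
    ∃ ρ : ℝ, 0 < ρ ∧ ∀ R : ℝ, 0 < R → R < ρ → ∀ w ∈ G, g - R ≤ w → w ≤ g + R →
      |sn w i - sn g i| ≤ (Sl i + 1) * R := by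
  obtain ⟨ρ, hρ, H⟩ := hS.sl i h0 hi 1 one_pos
  have hn := hS.nn i h0 hi
  refine ⟨ρ, hρ, fun R hR hRρ w hw w1 w2 => ?_⟩
  rcases le_total g w with h1 | h1
  · have h2 := abs_le.1 (H R hR hRρ g hg w hw (by linarith) h1 w2)
    have h3 : 0 ≤ Sl i * (w - g) := mul_nonneg hn (by linarith)
    have h4 : Sl i * (w - g) ≤ Sl i * R := mul_le_mul_of_nonneg_left (by linarith) hn
    rw [abs_le]
    constructor <;> linarith [h2.1, h2.2, mul_nonneg hn hR.le]
  · have h2 := abs_le.1 (H R hR hRρ w hw g hg w1 h1 (by linarith))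
    have h3 : 0 ≤ Sl i * (g - w) := mul_nonneg hn (by linarith)
    have h4 : Sl i * (g - w) ≤ Sl i * R := mul_le_mul_of_nonneg_left (by linarith) hn
    rw [abs_le]
    constructor <;> linarith [h2.1, h2.2, mul_nonneg hn hR.le]

/-- The rate near a point where its derivative is at most `1 - h`. -/
theorem rate_near {p ρ' : ℝ} (hr : HasDerivAt rt ρ' p) (hd : ρ' ≤ 1 - h)
    {C ε : ℝ} (hC : 0 < C) (hε : 0 < ε) : ∃ q₁ : ℝ, 0 < q₁ ∧ ∀ q : ℝ, 0 < q → q < q₁ →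
      ∀ x y : ℝ, |x - p| ≤ C * q → |y - p| ≤ C * q → x ≤ y →
        rt y - rt x ≤ (1 - h) * (y - x) + ε * q := by
  have h3 := hr.isLittleO.def (show 0 < ε / (2 * C) by positivity)
  obtain ⟨η, hη, h4⟩ := Metric.eventually_nhds_iff.1 h3
  refine ⟨η / (2 * C), by positivity, fun q hq hq' x y hx hy hxy => ?_⟩
  rw [lt_div_iff₀ (by positivity)] at hq'
  have hCq : 0 < C * q := mul_pos hC hq
  have k1 : ∀ z : ℝ, |z - p| ≤ C * q → |rt z - rt p - (z - p) * ρ'| ≤ ε / 2 * q := by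
    intro z hz
    have h5 := h4 (y := z) (by rw [Real.dist_eq]; linarith)
    rw [Real.norm_eq_abs, Real.norm_eq_abs, smul_eq_mul] at h5
    refine h5.trans ((mul_le_mul_of_nonneg_left hz (by positivity)).trans (le_of_eq ?_))
    field_simp
  have k2 := abs_le.1 (k1 x hx)
  have k3 := abs_le.1 (k1 y hy)
  have k4 : (y - x) * ρ' ≤ (y - x) * (1 - h) := mul_le_mul_of_nonneg_left hd (by linarith)
  linarith [k2.1, k3.2]

/-- **All rows near the level of the place `i` at `g` are not full**, from the rate. -/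
theorem rawP_rate {C₀ : ℝ} (htm : TmC S C₀) (hr : RateOf S (c i) rt)
    (hI : (range i).image c = univ.erase (c i)) (hp0 : 0 < sn g i) (hp1 : sn g i < 1) {ρ' : ℝ}
    (hd : HasDerivAt rt ρ' (sn g i)) (hd' : ρ' ≤ 1 - h) {δ C : ℝ}
    (hδ : 0 < δ) (hC : 0 < C) : ∃ ρ : ℝ, 0 < ρ ∧ ∀ R : ℝ, 0 < R → R < ρ →
      ∀ P₁ P₂ : ℝ, sn g i - C * R ≤ P₁ → P₁ ≤ P₂ → P₂ ≤ sn g i + C * R →
        RawN S ((range i).image c) (c i) P₁ (P₂ - P₁) h (δ * R) := by
  obtain ⟨q₁, hq₁, H⟩ := rate_near hd hd' hC (half_pos hδ)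
  refine ⟨min q₁ (min (sn g i / C) ((1 - sn g i) / C)), lt_min hq₁ (lt_min (div_pos hp0 hC)
    (div_pos (by linarith) hC)), fun R hR hRρ P₁ P₂ h1 h2 h3 => ?_⟩
  have r1 : R < q₁ := hRρ.trans_le (min_le_left _ _)
  have r2 : R < sn g i / C := hRρ.trans_le ((min_le_right _ _).trans (min_le_left _ _))
  have r3 : R < (1 - sn g i) / C := hRρ.trans_le ((min_le_right _ _).trans (min_le_right _ _))
  rw [lt_div_iff₀ hC] at r2 r3
  rw [hI]
  have hδR : 0 < δ * R := mul_pos hδ hR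
  refine rawN_of htm hr (δ := δ / 2 * R) (by linarith) (by linarith) (fun x x0 x1 => ?_)
    (by positivity) (by linarith)
  have e1 : P₁ + (P₂ - P₁) = P₂ := by ring
  rw [e1]
  have h4 := H R hR r1 (P₁ + x) P₂ (by
    rw [abs_le]
    constructor <;> linarith) (by
    rw [abs_le]
    constructor <;> linarith) (by linarith)
  have e2 : (1 - h) * (P₂ - P₁ - x) = (1 - h) * (P₂ - (P₁ + x)) := by ring
  rw [e2]
  exact h4

/-- **The rows of the place `i` near `g` are not full**, from the rate. -/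
theorem rawG_rate {C₀ : ℝ} (htm : TmC S C₀) (hr : RateOf S (c i) rt)
    (hI : (range i).image c = univ.erase (c i)) (hS : SlpG sn r₀ r G g Sl) (hg : g ∈ G)
    (h0 : r₀ ≤ i) (hi : i ≤ r) (hp0 : 0 < sn g i) (hp1 : sn g i < 1) {ρ' : ℝ}
    (hd : HasDerivAt rt ρ' (sn g i)) (hd' : ρ' ≤ 1 - h) :
    RawG S c sn G g h i := by
  intro δ C hδ hC
  have hn := hS.nn i h0 hi
  obtain ⟨ρ₁, hρ₁, H1⟩ := slpG_near hS hg h0 hi
  obtain ⟨ρ₂, hρ₂, H2⟩ := rawP_rate htm hr hI hp0 hp1 hd hd' hδ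
    (C := Sl i + 1 + C) (by positivity)
  refine ⟨min ρ₁ ρ₂, lt_min hρ₁ hρ₂, fun R hR hRρ w hw w1 w2 q hq0 hq => ?_⟩
  have h1 := abs_le.1 (H1 R hR (hRρ.trans_le (min_le_left _ _)) w hw w1 w2)
  have hCR := mul_pos hC hR
  have e1 : (Sl i + 1 + C) * R = (Sl i + 1) * R + C * R := by ring
  have h2 := H2 R hR (hRρ.trans_le (min_le_right _ _)) (sn w i) (sn w i + q)
    (by rw [e1]; linarith [h1.1]) (by linarith) (by rw [e1]; linarith [h1.2])
  have e2 : sn w i + q - sn w i = q := by ring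
  rwa [e2] at h2

end Pool.CDX
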