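import Pool.Agent.H71.CDX.Cdk

/-!
# The jets of order `≥ 2` of a place with affine labels

`AffL`: labels of degree at most one. `aff_src`: the orders `≥ 2`. `AfG`: affine labels at windows just
before the windows near `g`. `src_aff`: such a place satisfies `SrcG`, for every slope.
-/

set_option autoImplicit false

namespace Pool.CDX

open Finset Real MvPolynomial
open Pool.Agent.H49.Ent Pool.Agent.H32.Dense Pool.STK Pool.KA Pool.KSAT Pool.K2S Pool.PB Pool.GEN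
open Pool.S6C Pool.RCD Pool.LA91 Pool.OWN68 Pool.CHT Pool.AVG96
open Pool.GRD (LbP)

/-- **Labels of degree at most one.** -/
def AffL {m : ℕ} (S : PCl m) (I : Finset (Fin m)) (k : Fin m) (w p : ℝ) : Prop :=
  ∀ e : ℝ, 0 < e → Bas S (fun J F A => ∃ (V : Type) (z : PtT F → V) (z' : LnT F → V)
    (G : V → MvPolynomial (Option (Fin m)) ℝ),
    LbP F I k 1 J ⌊w * J⌋₊ ⌊(p - e) * J⌋₊ A z z' G)

theorem AffL.sub {m : ℕ} {S S' : PCl m} {I : Finset (Fin m)} {k : Fin m} {w p : ℝ}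
    (h : AffL S I k w p) (hs : ∀ (τ : ℝ) (J : ℕ) (F : Fam m J) (A : F.Ω → Prop),
      S'.St τ J F A → S.St τ J F A) : AffL S' I k w p := fun e he => (h e he).sub hs

theorem AffL.le {m : ℕ} {S : PCl m} {I : Finset (Fin m)} {k : Fin m} {w p p' : ℝ}
    (h : AffL S I k w p) (hp : p' ≤ p) : AffL S I k w p' := fun e he => by
  refine Bas.mono 0 (h e he) ?_
  rintro J - F A ⟨V, z, z', G, hl⟩
  exact ⟨V, z, z', G, hl.mono (Finset.Subset.refl _) le_rfl (Nat.floor_le_floor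
    (mul_le_mul_of_nonneg_right (by linarith) (Nat.cast_nonneg J)))⟩

/-- The jets of order `≥ 2` over an affine label vanish. -/
theorem ojet_aff {m J : ℕ} {F : Fam m J} {k : Fin m} {G : MvPolynomial (Option (Fin m)) ℝ}
    (hG : G.totalDegree ≤ 1) {j : ℕ} (hj : 2 ≤ j) (ω : F.Ω) : ojet F k j G ω = 0 := by
  unfold ojet jet
  have h1 : (X (some k) - G : MvPolynomial (Option (Fin m)) ℝ).totalDegree ≤ 1 :=
    (totalDegree_sub _ _).trans (max_le (by rw [totalDegree_X]) hG)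
  rw [Polynomial.iterate_derivative_eq_zero (lt_of_le_of_lt (natDegree_alp h1 _ _) (by omega)),
    Polynomial.eval_zero]

section

variable {m : ℕ} {S : PCl m} {C₀ : ℝ} {U U' : Type} {α β γ : ∀ J : ℕ, Fam m J → Type}
  {f : ∀ (J : ℕ) (F : Fam m J), F.Ω → α J F} {g : ∀ (J : ℕ) (F : Fam m J), F.Ω → β J F}
  {y : ∀ (J : ℕ) (F : Fam m J), F.Ω → γ J F} {c : ℕ → Fin m} {r₀ r : ℕ}

/-- **The jet of order `≥ 2` over an affine label is no information.** -/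
theorem F1_aff (htm : TmC S C₀) {I : Finset (Fin m)} {k : Fin m} {j : ℕ} {b p N : ℝ}
    (hA : AffL S I k b p) (hj : 2 ≤ j) {Q : Qt m U} {Q' : Qt m U'} {e η : ℝ} (he : 0 < e)
    (h : F1 S f g y (Q.prod (qJet m I k j b p N)) Q' e η) : F1 S f g y Q Q' e η := by
  intro K
  refine Bas.mono 0 (((h (max K 1)).and (hA e he)).and (Pool.GRW.tmc_bas htm one_pos)) ?_
  rintro J - F A ⟨⟨h1, V, z, z', G, hl⟩, hPA, -⟩ u u' hu hu'
  have hJ0 : (0 : ℝ) ≤ J := Nat.cast_nonneg J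
  have hcn : (cnt F.p (fun _ : F.Ω => (0 : ℤ)) A : ℝ) ≤ Real.exp ((max K 1 : ℕ) * J) := by
    have h2 : cnt F.p (fun _ : F.Ω => (0 : ℤ)) A ≤ 1 := by
      unfold cnt
      exact Finset.card_le_one.2 fun a ha b hb => by
        simp only [Finset.mem_image] at ha hb
        obtain ⟨_, _, rfl⟩ := ha
        obtain ⟨_, _, rfl⟩ := hb
        rfl
    have h3 : (cnt F.p (fun _ : F.Ω => (0 : ℤ)) A : ℝ) ≤ 1 := by exact_mod_cast h2
    exact h3.trans (Real.one_le_exp (by positivity))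
  obtain ⟨V', z₁, hz, h2⟩ := h1 (fun ω => (u ω, 0)) u'
    ⟨Q.mono (le_max_left _ _) le_rfl hu, hcn, V, z, z', G,
      hl.mono (Finset.Subset.refl _) (le_max_right _ _) le_rfl, fun ω _ => by
        rw [ojet_aff (hl.deg _) hj ω, mul_zero, Int.floor_zero]⟩
    (Q'.mono (le_max_left _ _) le_rfl hu')
  refine ⟨V', z₁, hz, le_trans (CH_mono_cond (isLaw_cond F.isLaw hPA).nonneg ?_) h2⟩
  intro ω ω' _ _ hh
  simp only [Prod.mk.injEq] at hh ⊢
  exact ⟨⟨hh.1, trivial⟩, hh.2⟩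

/-- **The orders `≥ 2` of a place with affine labels at an earlier window `b`.** -/
theorem aff_src (htm : TmC S C₀) {Q : Qt m U} {i : ℕ} {w b u₁ lam gp Pb : ℝ} {s rd N : ℕ → ℝ}
    (hch : Chn S c r₀ i w w u₁ s rd) (hlam : 0 < lam) (hl1 : w + lam ≤ 1) (hgp : 0 < gp)
    (H : DgB r₀ i s N lam gp) {Dg : ℕ → ℕ → ℝ} {Jm : ℕ}
    (hDg : ∀ l, r₀ ≤ l → l < i → ∀ j ≤ Jm, N l ≤ Dg l j + (j : ℕ) * w) {e η : ℝ} (he : 0 < e)
    (hη : 0 ≤ η) (HJ : JO S f (vg w) y Q c r₀ i w s Dg Jm e η)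
    (hxs : ∀ l, r₀ ≤ l → l < i → ∀ (j : ℕ) (M : ℝ),
      Exs S (qJet m ((range l).image c) (c l) j w (s l) M))
    (hA : AffL S ((range i).image c) (c i) b Pb) (hbw : b ≤ w) {Ni : ℝ}
    {pt : ℝ} (h3 : Ni + gp ≤ min Pb pt + lam)
    (h3' : ∀ l, r₀ ≤ l → l < i → Ni + 11 * gp ≤ min Pb pt + (N l - s l))
    (hf : ∀ (J : ℕ) (F : Fam m J), ∃ φ : α J F → PtT F, ∀ ω, ptr F J ω = φ (f J F ω))
    (hy : Kn ((range r₀).image c) (w + lam) lam y) {j : ℕ} (hj : 2 ≤ j) (hjm : j ≤ Jm) {h : ℝ}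
    (hh : 0 < h) : F1 S f (vg w) y Q
      (qJet m ((range i).image c) (c i) j w pt (Ni - (j : ℕ) * w)) (min e (gp / 8))
      ((i * (Jm + 1) : ℕ) * η + h) := by
  have he' : 0 < min e (gp / 8) := lt_min he (by linarith)
  have a1 := (HJ.qjets htm hη le_rfl hjm).mono (min_le_left e (gp / 8)) le_rfl
  have a3 := chg (y := y) (f := f) htm hch hlam hl1 hgp H (pv := s) (fun l _ _ => by linarith)
    (Nv := Dg) (j := j) (fun l a b' j' hj' => hDg l a b' j' (by omega)) (k := c i) (w₁ := b)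
    (w₂ := w) (p₁ := Pb) (p₂ := pt) (N₁ := Ni - (j : ℕ) * w) (N₂ := Ni - (j : ℕ) * w) hbw le_rfl
    le_rfl (by linarith) (fun l a b' => by linarith [h3' l a b']) hf hy hh
  have hex : Exs S (qJets m c r₀ i j (fun _ _ => w) (fun l _ => s l) Dg) :=
    exs_qjets fun l a b' j' _ => hxs l a b' j' _
  exact F1.trans htm hex he' a1 (F1_aff htm hA hj he' (a3.mono (min_le_right e (gp / 8)) le_rfl))

end

variable {m : ℕ} {γ : ∀ J : ℕ, Fam m J → Type} {S : PCl m}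
  {y : ∀ (J : ℕ) (F : Fam m J), F.Ω → γ J F} {c : ℕ → Fin m} {r₀ r K : ℕ} {s₀ A B Λ : ℝ}
  {sn : ℝ → ℕ → ℝ} {G : Set ℝ} {g : ℝ} {Sl : ℕ → ℝ}

/-- **Affine labels of the place `i`** at windows before the windows near `g`. -/
def AfG (S : PCl m) (c : ℕ → Fin m) (sn : ℝ → ℕ → ℝ) (G : Set ℝ) (g : ℝ) (i : ℕ) : Prop :=
  ∀ κ : ℝ, 0 < κ → ∃ ρ : ℝ, 0 < ρ ∧ ∀ R : ℝ, 0 < R → R < ρ → ∀ w ∈ G, g - R ≤ w → w ≤ g + R →
    ∃ b p : ℝ, b ≤ w ∧ sn w i - κ * R ≤ p ∧ AffL S ((range i).image c) (c i) b p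

/-- **A place with affine labels**, any slope. -/
theorem src_aff (h : GCh S (fun J F => ptr F J) y c r₀ r s₀ A B Λ sn G) (hgA : A < g)
    (hgB : g < B) {i : ℕ} (h0 : r₀ ≤ i) (hi : i ≤ r) (haf : AfG S c sn G g i)
    (hsrc : ∀ l, r₀ ≤ l → l < i → SrcG S y c r₀ K sn G g l) :
    SrcG S y c r₀ K sn G g i := by
  intro e C he hC
  obtain ⟨C₀, htm⟩ := h.tm
  have hΛ := h.Λ0
  have hA0 := h.A0
  have hB1 := gch_B1 h
  obtain ⟨T, hT⟩ : ∃ T : ℝ, T = ((i * (K + 3) : ℕ) : ℝ) := ⟨_, rfl⟩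
  have hT0 : 0 ≤ T := by rw [hT]; positivity
  obtain ⟨C₁, hC₁⟩ : ∃ C₁ : ℝ, C₁ = C + 20 := ⟨_, rfl⟩
  obtain ⟨Cn, κ, ρ, q1, q2, q3, HJ⟩ := jo_at (K := K) h hgA hgB h0 hi hsrc
    (e := e / (2 * (T + 1))) (C := C₁) (Gp := 1) (by positivity) (by linarith) one_pos
  obtain ⟨ρ₁, hρ₁, H1⟩ := haf (1 / 30) (by norm_num)
  obtain ⟨Z, hZ⟩ : ∃ Z : ℝ, Z = C₁ + i + 31 := ⟨_, rfl⟩
  have hZ0 : 0 < Z := by
    have : (0 : ℝ) ≤ i := Nat.cast_nonneg i
    rw [hZ]; linarith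
  refine ⟨Cn, min κ (1 / 30), min (min ρ ρ₁) (min (min (g - A) (B - g)) (Λ / Z)), q1,
    lt_min q2 (by norm_num), ?_, ?_⟩
  · exact lt_min (lt_min q3 hρ₁) (lt_min (lt_min (by linarith) (by linarith)) (by positivity))
  intro R hR hRρ w hw w1 w2 pw Nf hpw hNf
  have r0 : R < ρ := hRρ.trans_le ((min_le_left _ _).trans (min_le_left _ _))
  have r1 : R < ρ₁ := hRρ.trans_le ((min_le_left _ _).trans (min_le_right _ _))
  have r3 : R < g - A := hRρ.trans_le ((min_le_right _ _).trans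
    ((min_le_left _ _).trans (min_le_left _ _)))
  have r4 : R < B - g := hRρ.trans_le ((min_le_right _ _).trans
    ((min_le_left _ _).trans (min_le_right _ _)))
  have r5 : R < Λ / Z := hRρ.trans_le ((min_le_right _ _).trans (min_le_right _ _))
  rw [lt_div_iff₀ hZ0] at r5
  obtain ⟨κ', hκ'⟩ : ∃ κ', κ' = min κ (1 / 30) := ⟨_, rfl⟩
  rw [← hκ'] at hpw ⊢
  have k0 : 0 < κ' := by rw [hκ']; exact lt_min q2 (by norm_num)
  have k1 : κ' ≤ κ := by rw [hκ']; exact min_le_left _ _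
  have k2 : κ' ≤ 1 / 30 := by rw [hκ']; exact min_le_right _ _
  have hκR : κ' * R ≤ κ * R := mul_le_mul_of_nonneg_right k1 hR.le
  have hκR2 : κ' * R ≤ 1 / 30 * R := mul_le_mul_of_nonneg_right k2 hR.le
  obtain ⟨v, Pb, hvw, hPb, hAf⟩ := H1 R hR r1 w hw w1 w2
  have hwA : A ≤ w := by linarith
  have hwB : w < B := by linarith
  obtain ⟨e₀, he₀, Dg, d1, d2⟩ := HJ R hR r0 w hw w1 w2 pw Nf
    (fun l a b => by linarith [hpw l a b]) hNf
  obtain ⟨u₁, rd, hrd, hch⟩ := h.ch w hw hwA hwB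
  have hgp : 0 < κ' * R := by positivity
  have hi0 : (0 : ℝ) ≤ i := Nat.cast_nonneg i
  have hZR : Z * R = C₁ * R + i * R + 31 * R := by rw [hZ]; ring
  have hCR : C₁ * R = C * R + 20 * R := by rw [hC₁]; ring
  have hli : ∀ l < i, 1 * R ≤ ((i : ℝ) - l) * R ∧ ((i : ℝ) - l) * R ≤ i * R := fun l hl => by
    have e1 : (l : ℝ) + 1 ≤ i := by exact_mod_cast hl
    have e2 : (0 : ℝ) ≤ l := Nat.cast_nonneg l
    exact ⟨mul_le_mul_of_nonneg_right (by linarith) hR.le,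
      mul_le_mul_of_nonneg_right (by linarith) hR.le⟩
  have hCR0 : 0 < C * R := by positivity
  have hiR : 0 ≤ i * R := by positivity
  have eN : ∀ l : ℕ, (C₁ + ((i : ℝ) - l) * 1) * R = C₁ * R + ((i : ℝ) - l) * R := fun l => by
    ring
  have HB : DgB r₀ i (fun l => sn w l) (fun l => sn w l + (C₁ + ((i : ℝ) - l) * 1) * R) Λ
      (κ' * R) := by
    refine ⟨fun l a b => ?_, fun l a b => ?_, fun l a b l' a' b' => ?_⟩
    · show sn w l + 30 * (κ' * R) ≤ sn w l + (C₁ + ((i : ℝ) - l) * 1) * R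
      rw [eN]
      linarith [(hli l b).1]
    · show sn w l + (C₁ + ((i : ℝ) - l) * 1) * R + 30 * (κ' * R) ≤ sn w l + Λ
      rw [eN]
      linarith [(hli l b).2]
    · have e1 : (l' : ℝ) + 1 ≤ l := by exact_mod_cast b'
      show sn w l + (C₁ + ((i : ℝ) - l) * 1) * R - sn w l + 30 * (κ' * R) ≤
        sn w l' + (C₁ + ((i : ℝ) - l') * 1) * R - sn w l'
      have e2 : 1 * R ≤ ((l : ℝ) - l') * R := mul_le_mul_of_nonneg_right (by linarith) hR.le
      have e3 : ((i : ℝ) - l') * R = ((i : ℝ) - l) * R + ((l : ℝ) - l') * R := by ring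
      rw [eN, eN]
      linarith
  refine ⟨min e₀ (κ' * R / 8), lt_min he₀ (by linarith), fun j => sn w i + C * R - (j : ℝ) * w,
    fun j _ _ => by linarith, fun j hj2 hj pt hpt => ?_⟩
  have hmin : sn w i - 1 / 30 * R ≤ min Pb pt := le_min hPb (by linarith)
  refine F1.mono (aff_src (Jm := K + 2) (N := fun l => sn w l + (C₁ + ((i : ℝ) - l) * 1) * R) htm
    (hch.take h0 hi) hΛ (by linarith) hgp HB (Dg := Dg) d1 he₀ (by positivity) d2
    (fun l a b j M => gch_exs h hw hwA hwB a (by omega) j M) hAf hvw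
    (Ni := sn w i + C * R) (pt := pt) ?_ (fun l a b => ?_) h.pt (gch_kn h hwB.le) hj2 hj
    (by positivity : 0 < e * R / 2)) le_rfl ?_
  · linarith
  · show sn w i + C * R + 11 * (κ' * R) ≤ min Pb pt +
      (sn w l + (C₁ + ((i : ℝ) - l) * 1) * R - sn w l)
    rw [eN]
    linarith [(hli l b).1]
  · rw [show ((i * (K + 2 + 1) : ℕ) : ℝ) = T from hT.symm]
    have e1 : T * (e / (2 * (T + 1)) * R) ≤ e * R / 2 := by
      rw [← mul_assoc, mul_div_assoc', div_mul_eq_mul_div, div_le_div_iff₀ (by positivity)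
        (by norm_num)]
      nlinarith [mul_pos he hR, mul_nonneg hT0 (mul_pos he hR).le]
    linarith

end Pool.CDX
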