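import Pool.Agent.H71.CDX.Cdl
import Pool.Agent.H71.AVG.Jgs
import Pool.Agent.H68.OWN.Nk

/-!
# The jets of order at least two of the lowest coordinate with affine labels

`jetG_aff`: the same as `jetG_slow`, for every slope, when the coordinate has affine labels at earlier
windows.
-/

set_option autoImplicit false

namespace Pool.CDX

open Finset Real MvPolynomial
open Pool.Agent.H49.Ent Pool.Agent.H32.Dense Pool.STK Pool.KA Pool.KSAT Pool.K2S Pool.PB Pool.S6C
  Pool.GEN Pool.RCD Pool.LA91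
open Pool.OWN83 Pool.AVG96
open Pool.OWN68
open Pool.AVG71 (F1.unit)

variable {m : ℕ} {α γ : ∀ J : ℕ, Fam m J → Type}
  {f : ∀ (J : ℕ) (F : Fam m J), F.Ω → α J F} {y : ∀ (J : ℕ) (F : Fam m J), F.Ω → γ J F}
  {S : PCl m} {c : ℕ → Fin m} {r₀ r : ℕ} {s A B Λ : ℝ} {sn : ℝ → ℕ → ℝ} {G : Set ℝ}

/-- **The jets of order at least two of a coordinate with affine labels are few bits.** -/
theorem jetG_aff (h : GCh S f y c r₀ r s A B Λ sn G) {g : ℝ} (hgA : A < g)
    (hgB : g < B) (haf : AfG S c sn G g r₀) :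
    JetG S f y (Qt.fn fun _ _ _ => ()) c r₀ sn G g := by
  intro e C he hC
  obtain ⟨C₀, htm⟩ := h.tm
  obtain ⟨p₀, lam, hp1, hlam, hBp, hkn⟩ := h.kn
  have hΛ := h.Λ0
  have hA0 := h.A0
  obtain ⟨ρ₁, hρ₁, H1⟩ := haf 1 one_pos
  obtain ⟨τ, hτ⟩ : ∃ τ : ℝ, τ = min ρ₁ (min (min (g - A) (B - g)) (Λ / (C + 3))) := ⟨_, rfl⟩
  have hτ0 : 0 < τ := by
    rw [hτ]
    exact lt_min hρ₁ (lt_min (lt_min (by linarith) (by linarith)) (by positivity))
  have t1 : τ ≤ ρ₁ := by rw [hτ]; exact min_le_left _ _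
  have t3 : τ ≤ g - A := by
    rw [hτ]; exact (min_le_right _ _).trans ((min_le_left _ _).trans (min_le_left _ _))
  have t4 : τ ≤ B - g := by
    rw [hτ]; exact (min_le_right _ _).trans ((min_le_left _ _).trans (min_le_right _ _))
  have t5 : τ ≤ Λ / (C + 3) := by rw [hτ]; exact (min_le_right _ _).trans (min_le_right _ _)
  refine ⟨τ, hτ0, fun R hR hRρ w hw w1 w2 => ⟨sn w r₀ + C * R, le_rfl, ?_⟩⟩
  have hAw : A ≤ w := by linarith
  have hwB : w < B := by linarith
  have hRΛ : R * (C + 3) < Λ := by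
    have h1 : R < Λ / (C + 3) := hRρ.trans_le t5
    rwa [lt_div_iff₀ (by linarith)] at h1
  obtain ⟨u₁, rd, hrd, hch⟩ := h.ch w hw hAw hwB
  have hbase := hch.base
  have hw1 : w < 1 := hch.u0
  obtain ⟨b, p, hbw, hp, hA⟩ := H1 R hR (hRρ.trans_le t1) w hw w1 w2
  refine ⟨⟨2, fun _ => 0, R / 4, by positivity, fun _ => le_rfl, by
    rw [Finset.sum_const_zero]
    positivity, fun j hj hj2 => absurd hj (by omega), fun j _ hj2 η hη => ?_⟩, 1, one_pos,
    F1.unit h.pos (by positivity)⟩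
  have hmin : Λ ≤ min lam (p₀ - w) := le_min hlam (by linarith)
  have a2 : F1 S f (vg w) y
      (qJet m ((range r₀).image c) (c r₀) j b p (sn w r₀ + C * R - j * w))
      (qJet m ((range r₀).image c) (c r₀) j w (sn w r₀) (sn w r₀ + C * R - j * w)) (R / 4) η := by
    refine few_jet_e htm hbw le_rfl hw1.le le_rfl (by linarith) (by linarith) hp1 hbase h.pt hkn
      le_rfl hR ?_ hη
    have h3 : sn w r₀ - R ≤ min p (sn w r₀) := le_min (by linarith) (by linarith)
    linarith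
  exact F1_aff htm hA hj2 (by positivity) (F1.pull htm Prod.snd (fun K e J F A u hu => hu.2) a2)

end Pool.CDX
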