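import Pool.Agent.H71.CDX.Cdo
import Pool.Agent.H71.CDX.Cdl

/-!
# The jets of the places of a chain, uniformly in the base

`SrcU`: the jets of order `≥ 2` of the place `i` are few bits, with numbers which do not depend on the
base. `src_natU`, `src_affU`. `cds_atU`: the codes of the places of the chain.
-/

set_option autoImplicit false

namespace Pool.CDX

open Finset Real MvPolynomial
open Pool.Agent.H49.Ent Pool.Agent.H32.Dense Pool.STK Pool.KA Pool.KSAT Pool.K2S Pool.PB Pool.GEN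
open Pool.S6C Pool.RCD Pool.LA91 Pool.OWN68 Pool.CHT Pool.AVG96
open Pool.GRD (LbP)
open Pool.AJW (CfB ctx)
open Pool.AJX (JetX LbX FwX ctxK_few)
open Pool.AVG57 (CdC nd)

variable {m : ℕ} {S : PCl m} {c : ℕ → Fin m} {r₀ r K : ℕ} {s₀ : ℝ}
  {sn : ℝ → ℕ → ℝ} {G : Set ℝ} {g : ℝ} {Sl : ℕ → ℝ}

/-- **The jets of order `≥ 2` of the place `i`** are few bits, in all small boxes at `g`; the numbers
`Cn`, `κ` do not depend on the base. -/
def SrcU (S : PCl m) (c : ℕ → Fin m) (r₀ r : ℕ) (s₀ : ℝ) (K : ℕ) (sn : ℝ → ℕ → ℝ) (G : Set ℝ)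
    (g : ℝ) (i : ℕ) : Prop :=
  ∀ e C : ℝ, 0 < e → 0 < C → ∃ Cn κ : ℝ, 0 < Cn ∧ 0 < κ ∧
    ∀ (γ : ∀ J : ℕ, Fam m J → Type) (y : ∀ (J : ℕ) (F : Fam m J), F.Ω → γ J F) (A B Λ : ℝ),
    GCh S (fun J F => ptr F J) y c r₀ r s₀ A B Λ sn G → A < g → g < B →
    ∃ ρ : ℝ, 0 < ρ ∧ ∀ R : ℝ, 0 < R → R < ρ →
    ∀ w ∈ G, g - R ≤ w → w ≤ g + R → ∀ (pw : ℕ → ℝ) (Nf : ℕ → ℕ → ℝ),
    (∀ l, r₀ ≤ l → l < i → sn w l - κ * R ≤ pw l) →
    (∀ l, r₀ ≤ l → l < i → ∀ j : ℕ, j ≤ 1 → sn w l + Cn * R ≤ Nf l j + (j : ℝ) * w) →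
    ∃ e₀ : ℝ, 0 < e₀ ∧ ∃ Dg : ℕ → ℝ,
      (∀ j : ℕ, 2 ≤ j → j ≤ K + 2 → sn w i + C * R ≤ Dg j + (j : ℝ) * w) ∧
      ∀ j : ℕ, 2 ≤ j → j ≤ K + 2 → ∀ pt : ℝ, sn w i - κ * R ≤ pt →
        F1 S (fun J F => ptr F J) (vg w) y (jetQ m c r₀ i w pw Nf)
          (qJet m ((range i).image c) (c i) j w pt (Dg j)) e₀ (e * R)

/-- **All jets of the places `< i`**, uniformly in the base. -/
theorem jo_atU {i : ℕ} (h0 : r₀ ≤ i) (hi : i ≤ r)
    (hsrc : ∀ l, r₀ ≤ l → l < i → SrcU S c r₀ r s₀ K sn G g l) {e C Gp : ℝ}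
    (he : 0 < e) (hC : 0 < C) (hGp : 0 < Gp) :
    ∃ Cn κ : ℝ, 0 < Cn ∧ 0 < κ ∧
    ∀ (γ : ∀ J : ℕ, Fam m J → Type) (y : ∀ (J : ℕ) (F : Fam m J), F.Ω → γ J F) (A B Λ : ℝ),
    GCh S (fun J F => ptr F J) y c r₀ r s₀ A B Λ sn G → A < g → g < B →
    ∃ ρ : ℝ, 0 < ρ ∧ ∀ R : ℝ, 0 < R → R < ρ →
    ∀ w ∈ G, g - R ≤ w → w ≤ g + R → ∀ (pw : ℕ → ℝ) (Nf : ℕ → ℕ → ℝ),
    (∀ l, r₀ ≤ l → l < i → sn w l - κ * R ≤ pw l) →
    (∀ l, r₀ ≤ l → l < i → ∀ j : ℕ, j ≤ 1 → sn w l + Cn * R ≤ Nf l j + (j : ℝ) * w) →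
    ∃ e₀ : ℝ, 0 < e₀ ∧ ∃ Dg : ℕ → ℕ → ℝ,
      (∀ l, r₀ ≤ l → l < i → ∀ j ≤ K + 2,
        sn w l + (C + ((i : ℝ) - l) * Gp) * R ≤ Dg l j + (j : ℕ) * w) ∧
      JO S (fun J F => ptr F J) (vg w) y (jetQ m c r₀ i w pw Nf) c r₀ i w (fun l => sn w l) Dg
        (K + 2) e₀ (e * R) := by
  classical
  have hCl : ∀ l < i, C ≤ C + ((i : ℝ) - l) * Gp ∧ C + ((i : ℝ) - l) * Gp ≤ C + i * Gp ∧
      Gp ≤ ((i : ℝ) - l) * Gp := fun l hl => by
    have h1 : (l : ℝ) + 1 ≤ i := by exact_mod_cast hl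
    have h2 : (0 : ℝ) ≤ l := Nat.cast_nonneg l
    refine ⟨?_, ?_, ?_⟩ <;> nlinarith
  have hch : ∀ l : ℕ, ∃ Cn κ : ℝ, (r₀ ≤ l → l < i → 0 < Cn) ∧ (r₀ ≤ l → l < i → 0 < κ) ∧
      (r₀ ≤ l → l < i →
    ∀ (γ : ∀ J : ℕ, Fam m J → Type) (y : ∀ (J : ℕ) (F : Fam m J), F.Ω → γ J F) (A B Λ : ℝ),
    GCh S (fun J F => ptr F J) y c r₀ r s₀ A B Λ sn G → A < g → g < B →
    ∃ ρ : ℝ, 0 < ρ ∧ ∀ R : ℝ, 0 < R → R < ρ →
    ∀ w ∈ G, g - R ≤ w → w ≤ g + R → ∀ (pw : ℕ → ℝ) (Nf : ℕ → ℕ → ℝ),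
    (∀ l', r₀ ≤ l' → l' < l → sn w l' - κ * R ≤ pw l') →
    (∀ l', r₀ ≤ l' → l' < l → ∀ j : ℕ, j ≤ 1 → sn w l' + Cn * R ≤ Nf l' j + (j : ℝ) * w) →
    ∃ e₀ : ℝ, 0 < e₀ ∧ ∃ Dg : ℕ → ℝ,
      (∀ j : ℕ, 2 ≤ j → j ≤ K + 2 →
        sn w l + (C + ((i : ℝ) - l) * Gp) * R ≤ Dg j + (j : ℝ) * w) ∧
      ∀ j : ℕ, 2 ≤ j → j ≤ K + 2 → ∀ pt : ℝ, sn w l - κ * R ≤ pt →
        F1 S (fun J F => ptr F J) (vg w) y (jetQ m c r₀ l w pw Nf)
          (qJet m ((range l).image c) (c l) j w pt (Dg j)) e₀ (e * R)) := by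
    intro l
    by_cases hl : r₀ ≤ l ∧ l < i
    · obtain ⟨Cn, κ, a1, a2, a4⟩ := hsrc l hl.1 hl.2 e (C + ((i : ℝ) - l) * Gp) he
        (by linarith [(hCl l hl.2).1])
      exact ⟨Cn, κ, fun _ _ => a1, fun _ _ => a2, fun _ _ => a4⟩
    · exact ⟨0, 0, fun a b => absurd ⟨a, b⟩ hl, fun a b => absurd ⟨a, b⟩ hl,
        fun a b => absurd ⟨a, b⟩ hl⟩
  choose Cf κf b1 b2 b4' using hch
  obtain ⟨Cx, hCx, hCx'⟩ := ex_max i Cf
  obtain ⟨κ₀, hκ₀, hκ'⟩ := ex_min i (fun l => r₀ ≤ l) κf fun l hl hP => b2 l hP hl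
  obtain ⟨κ, hκ⟩ : ∃ κ, κ = min κ₀ (min (C / 30) (min (Gp / 30) 1)) := ⟨_, rfl⟩
  have k0 : 0 < κ := by rw [hκ]; positivity
  have k1 : κ ≤ κ₀ := by rw [hκ]; exact min_le_left _ _
  have k2 : κ ≤ C / 30 := by rw [hκ]; exact (min_le_right _ _).trans (min_le_left _ _)
  have k3 : κ ≤ Gp / 30 := by
    rw [hκ]; exact (min_le_right _ _).trans ((min_le_right _ _).trans (min_le_left _ _))
  have k4 : κ ≤ 1 := by
    rw [hκ]; exact (min_le_right _ _).trans ((min_le_right _ _).trans (min_le_right _ _))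
  obtain ⟨X, hX⟩ : ∃ X : ℝ, X = C + i * Gp := ⟨_, rfl⟩
  have hX0 : 0 < X := by rw [hX]; positivity
  refine ⟨Cx + X, κ, by positivity, k0, ?_⟩
  intro γ y A B Λ h hgA hgB
  obtain ⟨C₀, htm⟩ := h.tm
  have hΛ := h.Λ0
  have hρf : ∀ l : ℕ, ∃ ρ : ℝ, (r₀ ≤ l → l < i → 0 < ρ) ∧ (r₀ ≤ l → l < i →
    ∀ R : ℝ, 0 < R → R < ρ →
    ∀ w ∈ G, g - R ≤ w → w ≤ g + R → ∀ (pw : ℕ → ℝ) (Nf : ℕ → ℕ → ℝ),
    (∀ l', r₀ ≤ l' → l' < l → sn w l' - κf l * R ≤ pw l') →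
    (∀ l', r₀ ≤ l' → l' < l → ∀ j : ℕ, j ≤ 1 → sn w l' + Cf l * R ≤ Nf l' j + (j : ℝ) * w) →
    ∃ e₀ : ℝ, 0 < e₀ ∧ ∃ Dg : ℕ → ℝ,
      (∀ j : ℕ, 2 ≤ j → j ≤ K + 2 →
        sn w l + (C + ((i : ℝ) - l) * Gp) * R ≤ Dg j + (j : ℝ) * w) ∧
      ∀ j : ℕ, 2 ≤ j → j ≤ K + 2 → ∀ pt : ℝ, sn w l - κf l * R ≤ pt →
        F1 S (fun J F => ptr F J) (vg w) y (jetQ m c r₀ l w pw Nf)
          (qJet m ((range l).image c) (c l) j w pt (Dg j)) e₀ (e * R)) := by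
    intro l
    by_cases hl : r₀ ≤ l ∧ l < i
    · obtain ⟨ρ, a3, a4⟩ := b4' l hl.1 hl.2 γ y A B Λ h hgA hgB
      exact ⟨ρ, fun _ _ => a3, fun _ _ => a4⟩
    · exact ⟨0, fun a b => absurd ⟨a, b⟩ hl, fun a b => absurd ⟨a, b⟩ hl⟩
  choose ρf b3 b4 using hρf
  obtain ⟨ρ₀, hρ₀, hρ'⟩ := ex_min i (fun l => r₀ ≤ l) ρf fun l hl hP => b3 l hP hl
  refine ⟨min ρ₀ (min (min (g - A) (B - g)) (Λ / (X + 31))), ?_, ?_⟩
  · refine lt_min hρ₀ (lt_min (lt_min (by linarith) (by linarith)) (by positivity))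
  intro R hR hRρ w hw w1 w2 pw Nf hpw hNf
  have r1 : R < ρ₀ := hRρ.trans_le (min_le_left _ _)
  have r2 : R < g - A := hRρ.trans_le
    ((min_le_right _ _).trans ((min_le_left _ _).trans (min_le_left _ _)))
  have r3 : R < B - g := hRρ.trans_le
    ((min_le_right _ _).trans ((min_le_left _ _).trans (min_le_right _ _)))
  have r4 : R < Λ / (X + 31) := hRρ.trans_le ((min_le_right _ _).trans (min_le_right _ _))
  rw [lt_div_iff₀ (by positivity)] at r4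
  have hwA : A ≤ w := by linarith
  have hwB : w < B := by linarith
  have hCn : ∀ l < i, Cf l * R ≤ (Cx + X) * R := fun l hl =>
    mul_le_mul_of_nonneg_right (by linarith [hCx' l hl]) hR.le
  have hXn : ∀ l < i, (C + ((i : ℝ) - l) * Gp) * R ≤ (Cx + X) * R := fun l hl =>
    mul_le_mul_of_nonneg_right (by linarith [(hCl l hl).2.1]) hR.le
  have hκn : ∀ l < i, r₀ ≤ l → κ * R ≤ κf l * R := fun l hl hl0 =>
    mul_le_mul_of_nonneg_right (by linarith [hκ' l hl hl0]) hR.le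
  -- the jets of order `≥ 2`
  have hs : ∀ l : ℕ, ∃ (e₀ : ℝ) (Dg : ℕ → ℝ), (r₀ ≤ l → l < i → 0 < e₀) ∧
      (r₀ ≤ l → l < i → (∀ j : ℕ, 2 ≤ j → j ≤ K + 2 →
        sn w l + (C + ((i : ℝ) - l) * Gp) * R ≤ Dg j + (j : ℝ) * w) ∧
      ∀ j : ℕ, 2 ≤ j → j ≤ K + 2 → ∀ pt : ℝ, sn w l - κf l * R ≤ pt →
        F1 S (fun J F => ptr F J) (vg w) y (jetQ m c r₀ l w pw Nf)
          (qJet m ((range l).image c) (c l) j w pt (Dg j)) e₀ (e * R)) := by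
    intro l
    by_cases hl : r₀ ≤ l ∧ l < i
    · obtain ⟨e₀, he₀, Dg, a1, a2⟩ := b4 l hl.1 hl.2 R hR (r1.trans_le (hρ' l hl.2 hl.1)) w hw w1
        w2 pw Nf
        (fun l' x z => by linarith [hpw l' x (z.trans hl.2), hκn l hl.2 hl.1])
        (fun l' x z j hj => by linarith [hNf l' x (z.trans hl.2) j hj, hCn l hl.2])
      exact ⟨e₀, Dg, fun _ _ => he₀, fun _ _ => ⟨a1, a2⟩⟩
    · exact ⟨0, fun _ => 0, fun a b => absurd ⟨a, b⟩ hl, fun a b => absurd ⟨a, b⟩ hl⟩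
  choose ef Df c1 c2 using hs
  obtain ⟨e₁, he₁, he₁'⟩ := ex_min i (fun l => r₀ ≤ l) ef fun l hl hP => c1 l hP hl
  have hgp : 0 < κ * R := by positivity
  obtain ⟨u₁, rd, hrd, hch⟩ := h.ch w hw hwA hwB
  have hkR : 30 * (κ * R) ≤ C * R := by nlinarith
  have hkG : 30 * (κ * R) ≤ Gp * R := by nlinarith
  have hkΛ : X * R + 30 * (κ * R) ≤ Λ := by nlinarith
  have HB : DgB r₀ i (fun l => sn w l) (fun l => sn w l + (C + ((i : ℝ) - l) * Gp) * R) Λ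
      (κ * R) := by
    refine ⟨fun l a b => ?_, fun l a b => ?_, fun l a b l' a' b' => ?_⟩
    · have := mul_le_mul_of_nonneg_right (hCl l b).1 hR.le
      show sn w l + 30 * (κ * R) ≤ sn w l + (C + ((i : ℝ) - l) * Gp) * R
      linarith
    · have := mul_le_mul_of_nonneg_right (hCl l b).2.1 hR.le
      rw [← hX] at this
      show sn w l + (C + ((i : ℝ) - l) * Gp) * R + 30 * (κ * R) ≤ sn w l + Λ
      linarith
    · have h1 : (l' : ℝ) + 1 ≤ l := by exact_mod_cast b'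
      show sn w l + (C + ((i : ℝ) - l) * Gp) * R - sn w l + 30 * (κ * R) ≤
        sn w l' + (C + ((i : ℝ) - l') * Gp) * R - sn w l'
      have h2 : ((l : ℝ) - l') * (Gp * R) ≥ 1 * (Gp * R) :=
        mul_le_mul_of_nonneg_right (by linarith) (by positivity)
      nlinarith
  refine ⟨min e₁ (κ * R / 8), lt_min he₁ (by linarith), fun l j => if j ≤ 1 then
    sn w l + (C + ((i : ℝ) - l) * Gp) * R - (j : ℕ) * w else Df l j, fun l a b j hj => ?_,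
    fun l a b j hj => ?_⟩
  · by_cases hj1 : j ≤ 1
    · simp only [if_pos hj1]
      linarith
    · simp only [if_neg hj1]
      exact (c2 l a b).1 j (by omega) hj
  · by_cases hj1 : j ≤ 1
    · simp only [if_pos hj1]
      exact (ones_F1 (N := fun l => sn w l + (C + ((i : ℝ) - l) * Gp) * R) htm
        (hch.take h0 hi) hΛ (by
          obtain ⟨p₀, lam, d1, d2, d3, d4⟩ := h.kn
          linarith) hgp HB (fun l x z => hpw l x z) (fun l x z j hj => by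
            linarith [hNf l x z j hj, hXn l z]) h.pt (gch_kn h hwB.le) a b hj1
        (by linarith : sn w l - κ * R ≤ sn w l) (by positivity : 0 < e * R)).mono
          (min_le_right _ _) le_rfl
    · simp only [if_neg hj1]
      exact (pull_qjets htm b.le le_rfl ((c2 l a b).2 j (by omega) hj (sn w l)
        (by nlinarith [b2 l a b]))).mono ((min_le_left _ _).trans (he₁' l b a)) le_rfl

/-- **A place of slope less than `2`.** -/
theorem src_natU (hS : SlpG sn r₀ r G g Sl) {i : ℕ} (h0 : r₀ ≤ i) (hi : i ≤ r)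
    (h2 : Sl i < 2) (hsrc : ∀ l, r₀ ≤ l → l < i → SrcU S c r₀ r s₀ K sn G g l) :
    SrcU S c r₀ r s₀ K sn G g i := by
  intro e C he hC
  have hS0 := hS.nn i h0 hi
  obtain ⟨D, hD⟩ : ∃ D, D = 2 - Sl i := ⟨_, rfl⟩
  have hD0 : 0 < D := by linarith
  obtain ⟨M, hM⟩ : ∃ M : ℝ, M = (C + 1) / D := ⟨_, rfl⟩
  have hM0 : 0 < M := by rw [hM]; positivity
  have hDM : D * M = C + 1 := by rw [hM]; field_simp
  obtain ⟨T, hT⟩ : ∃ T : ℝ, T = ((i * (K + 3) : ℕ) : ℝ) := ⟨_, rfl⟩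
  have hT0 : 0 ≤ T := by rw [hT]; positivity
  obtain ⟨C₁, hC₁⟩ : ∃ C₁ : ℝ, C₁ = C + Sl i * (M + 1) + 20 := ⟨_, rfl⟩
  have hSM : 0 ≤ Sl i * (M + 1) := by positivity
  obtain ⟨Cn, κ, q1, q2, HJ'⟩ := jo_atU (K := K) h0 hi hsrc
    (e := e / (2 * (T + 1))) (C := C₁) (Gp := 1) (by positivity) (by linarith) one_pos
  obtain ⟨ρ₁, hρ₁, H1⟩ := slpG_win hS hM0.le one_pos le_rfl
  obtain ⟨ρ₂, hρ₂, H2⟩ := slpG_lev hS (M := M + 2) (κ := 1 / 4) (by linarith) (by norm_num)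
  obtain ⟨Z, hZ⟩ : ∃ Z : ℝ, Z = C₁ + i + 31 := ⟨_, rfl⟩
  have hZ0 : 0 < Z := by
    have : (0 : ℝ) ≤ i := Nat.cast_nonneg i
    rw [hZ]; linarith
  refine ⟨Cn, min κ (1 / 30), q1, lt_min q2 (by norm_num), ?_⟩
  intro γ y A B Λ h hgA hgB
  obtain ⟨C₀, htm⟩ := h.tm
  have hΛ := h.Λ0
  have hA0 := h.A0
  have hB1 := gch_B1 h
  obtain ⟨ρ, q3, HJ⟩ := HJ' γ y A B Λ h hgA hgB
  refine ⟨min (min ρ ρ₁) (min ρ₂ (min (min ((g - A) / (M + 2)) (B - g)) (Λ / Z))), ?_, ?_⟩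
  · refine lt_min (lt_min q3 hρ₁) (lt_min hρ₂ (lt_min (lt_min (div_pos (by linarith)
      (by linarith)) (by linarith)) (by positivity)))
  intro R hR hRρ w hw w1 w2 pw Nf hpw hNf
  have r0 : R < ρ := hRρ.trans_le ((min_le_left _ _).trans (min_le_left _ _))
  have r1 : R < ρ₁ := hRρ.trans_le ((min_le_left _ _).trans (min_le_right _ _))
  have r2 : R < ρ₂ := hRρ.trans_le ((min_le_right _ _).trans (min_le_left _ _))
  have r3 : R < (g - A) / (M + 2) := hRρ.trans_le ((min_le_right _ _).trans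
    ((min_le_right _ _).trans ((min_le_left _ _).trans (min_le_left _ _))))
  have r4 : R < B - g := hRρ.trans_le ((min_le_right _ _).trans
    ((min_le_right _ _).trans ((min_le_left _ _).trans (min_le_right _ _))))
  have r5 : R < Λ / Z := hRρ.trans_le ((min_le_right _ _).trans
    ((min_le_right _ _).trans (min_le_right _ _)))
  rw [lt_div_iff₀ (by linarith)] at r3
  rw [lt_div_iff₀ hZ0] at r5
  obtain ⟨κ', hκ'⟩ : ∃ κ', κ' = min κ (1 / 30) := ⟨_, rfl⟩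
  rw [← hκ'] at hpw ⊢
  have k0 : 0 < κ' := by rw [hκ']; exact lt_min q2 (by norm_num)
  have k1 : κ' ≤ κ := by rw [hκ']; exact min_le_left _ _
  have k2 : κ' ≤ 1 / 30 := by rw [hκ']; exact min_le_right _ _
  have hκR : κ' * R ≤ κ * R := mul_le_mul_of_nonneg_right k1 hR.le
  have hκR2 : κ' * R ≤ 1 / 30 * R := mul_le_mul_of_nonneg_right k2 hR.le
  obtain ⟨v, hv, v1, v2⟩ := H1 R hR r1 w w1 w2
  rw [one_mul] at v1
  have hvw : v ≤ w := by nlinarith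
  have hvA : A ≤ v := by nlinarith
  have hwA : A ≤ w := hvA.trans hvw
  have hwB : w < B := by linarith
  obtain ⟨e₀, he₀, Dg, d1, d2⟩ := HJ R hR r0 w hw w1 w2 pw Nf
    (fun l a b => by linarith [hpw l a b]) hNf
  have hlev := abs_le.1 (H2 R hR r2 i h0 hi v hv w hw (by nlinarith) hvw (by nlinarith))
  have hMR : M * R ≤ w - v := by linarith
  have hMR' : w - v ≤ (M + 1) * R := by linarith
  have hSv : Sl i * (w - v) ≤ Sl i * (M + 1) * R := by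
    have := mul_le_mul_of_nonneg_left hMR' hS0
    linarith
  have hPb : sn w i - Sl i * (M + 1) * R - 1 / 4 * R ≤ sn v i := by linarith [hlev.2]
  obtain ⟨u₁, rd, hrd, hch⟩ := h.ch w hw hwA hwB
  have hgp : 0 < κ' * R := by positivity
  have hi0 : (0 : ℝ) ≤ i := Nat.cast_nonneg i
  have hZR : Z * R = C₁ * R + i * R + 31 * R := by rw [hZ]; ring
  have hCR : C₁ * R = C * R + Sl i * (M + 1) * R + 20 * R := by rw [hC₁]; ring
  have hli : ∀ l < i, 1 * R ≤ ((i : ℝ) - l) * R ∧ ((i : ℝ) - l) * R ≤ i * R := fun l hl => by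
    have e1 : (l : ℝ) + 1 ≤ i := by exact_mod_cast hl
    have e2 : (0 : ℝ) ≤ l := Nat.cast_nonneg l
    exact ⟨mul_le_mul_of_nonneg_right (by linarith) hR.le,
      mul_le_mul_of_nonneg_right (by linarith) hR.le⟩
  have hC1R : 0 ≤ C₁ * R := mul_nonneg (by linarith) hR.le
  have HB : DgB r₀ i (fun l => sn w l) (fun l => sn w l + (C₁ + ((i : ℝ) - l) * 1) * R) Λ
      (κ' * R) := by
    refine ⟨fun l a b => ?_, fun l a b => ?_, fun l a b l' a' b' => ?_⟩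
    · show sn w l + 30 * (κ' * R) ≤ sn w l + (C₁ + ((i : ℝ) - l) * 1) * R
      nlinarith [(hli l b).1]
    · show sn w l + (C₁ + ((i : ℝ) - l) * 1) * R + 30 * (κ' * R) ≤ sn w l + Λ
      nlinarith [(hli l b).2]
    · have e1 : (l' : ℝ) + 1 ≤ l := by exact_mod_cast b'
      show sn w l + (C₁ + ((i : ℝ) - l) * 1) * R - sn w l + 30 * (κ' * R) ≤
        sn w l' + (C₁ + ((i : ℝ) - l') * 1) * R - sn w l'
      have e2 : 1 * R ≤ ((l : ℝ) - l') * R := mul_le_mul_of_nonneg_right (by linarith) hR.le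
      nlinarith
  refine ⟨min e₀ (κ' * R / 8), lt_min he₀ (by linarith), fun j => sn w i + C * R - (j : ℝ) * w,
    fun j _ _ => by linarith, fun j hj2 hj pt hpt => ?_⟩
  have hmin : sn w i - Sl i * (M + 1) * R - 1 / 4 * R ≤ min (sn v i) pt :=
    le_min hPb (by nlinarith)
  refine F1.mono (nat_src (Jm := K + 2) (N := fun l => sn w l + (C₁ + ((i : ℝ) - l) * 1) * R) htm
    (hch.take h0 hi) hΛ (by linarith) hgp HB (Dg := Dg) d1 he₀ (by positivity) d2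
    (fun l a b j M => gch_exs h hw hwA hwB a (by omega) j M)
    (fun j M => gch_exs h hv hvA (by linarith) h0 hi j M) (by linarith) hvw
    (Ni := sn w i + C * R) ?_ (pt := pt) ?_ (fun l a b => ?_) h.pt (gch_kn h hwB.le) hj2 hj
    (by positivity : 0 < e * R / 2)) le_rfl ?_
  · have e1 : D * (M * R) ≤ D * (w - v) := mul_le_mul_of_nonneg_left hMR hD0.le
    have e2 : D * (M * R) = C * R + R := by
      rw [← mul_assoc, hDM]; ring
    have e3 : D * (w - v) = 2 * (w - v) - Sl i * (w - v) := by rw [hD]; ring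
    linarith [hlev.2]
  · nlinarith [hli]
  · show sn w i + C * R + 11 * (κ' * R) ≤ min (sn v i) pt +
      (sn w l + (C₁ + ((i : ℝ) - l) * 1) * R - sn w l)
    nlinarith [(hli l b).1]
  · rw [show ((i * (K + 2 + 1) : ℕ) : ℝ) = T from hT.symm]
    have e1 : T * (e / (2 * (T + 1)) * R) ≤ e * R / 2 := by
      rw [← mul_assoc, mul_div_assoc', div_mul_eq_mul_div, div_le_div_iff₀ (by positivity)
        (by norm_num)]
      nlinarith [mul_pos he hR, mul_nonneg hT0 (mul_pos he hR).le]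
    linarith

/-- **A place with affine labels**, any slope. -/
theorem src_affU {i : ℕ} (h0 : r₀ ≤ i) (hi : i ≤ r) (haf : AfG S c sn G g i)
    (hsrc : ∀ l, r₀ ≤ l → l < i → SrcU S c r₀ r s₀ K sn G g l) :
    SrcU S c r₀ r s₀ K sn G g i := by
  intro e C he hC
  obtain ⟨T, hT⟩ : ∃ T : ℝ, T = ((i * (K + 3) : ℕ) : ℝ) := ⟨_, rfl⟩
  have hT0 : 0 ≤ T := by rw [hT]; positivity
  obtain ⟨C₁, hC₁⟩ : ∃ C₁ : ℝ, C₁ = C + 20 := ⟨_, rfl⟩
  obtain ⟨Cn, κ, q1, q2, HJ'⟩ := jo_atU (K := K) h0 hi hsrc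
    (e := e / (2 * (T + 1))) (C := C₁) (Gp := 1) (by positivity) (by linarith) one_pos
  obtain ⟨ρ₁, hρ₁, H1⟩ := haf (1 / 30) (by norm_num)
  obtain ⟨Z, hZ⟩ : ∃ Z : ℝ, Z = C₁ + i + 31 := ⟨_, rfl⟩
  have hZ0 : 0 < Z := by
    have : (0 : ℝ) ≤ i := Nat.cast_nonneg i
    rw [hZ]; linarith
  refine ⟨Cn, min κ (1 / 30), q1, lt_min q2 (by norm_num), ?_⟩
  intro γ y A B Λ h hgA hgB
  obtain ⟨C₀, htm⟩ := h.tm
  have hΛ := h.Λ0
  have hA0 := h.A0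
  have hB1 := gch_B1 h
  obtain ⟨ρ, q3, HJ⟩ := HJ' γ y A B Λ h hgA hgB
  refine ⟨min (min ρ ρ₁) (min (min (g - A) (B - g)) (Λ / Z)), ?_, ?_⟩
  · exact lt_min (lt_min q3 hρ₁) (lt_min (lt_min (by linarith) (by linarith)) (by positivity))
  intro R hR hRρ w hw w1 w2 pw Nf hpw hNf
  have r0 : R < ρ := hRρ.trans_le ((min_le_left _ _).trans (min_le_left _ _))
  have r1 : R < ρ₁ := hRρ.trans_le ((min_le_left _ _).trans (min_le_right _ _))
  have r3 : R < g - A := hRρ.trans_le ((min_le_right _ _).trans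
    ((min_le_left _ _).trans (min_le_left _ _)))
  have r4 : R < B - g := hRρ.trans_le ((min_le_right _ _).trans
    ((min_le_left _ _).trans (min_le_right _ _)))
  have r5 : R < Λ / Z := hRρ.trans_le ((min_le_right _ _).trans (min_le_right _ _))
  rw [lt_div_iff₀ hZ0] at r5
  obtain ⟨κ', hκ'⟩ : ∃ κ', κ' = min κ (1 / 30) := ⟨_, rfl⟩
  rw [← hκ'] at hpw ⊢
  have k0 : 0 < κ' := by rw [hκ']; exact lt_min q2 (by norm_num)
  have k1 : κ' ≤ κ := by rw [hκ']; exact min_le_left _ _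
  have k2 : κ' ≤ 1 / 30 := by rw [hκ']; exact min_le_right _ _
  have hκR : κ' * R ≤ κ * R := mul_le_mul_of_nonneg_right k1 hR.le
  have hκR2 : κ' * R ≤ 1 / 30 * R := mul_le_mul_of_nonneg_right k2 hR.le
  obtain ⟨v, Pb, hvw, hPb, hAf⟩ := H1 R hR r1 w hw w1 w2
  have hwA : A ≤ w := by linarith
  have hwB : w < B := by linarith
  obtain ⟨e₀, he₀, Dg, d1, d2⟩ := HJ R hR r0 w hw w1 w2 pw Nf
    (fun l a b => by linarith [hpw l a b]) hNf
  obtain ⟨u₁, rd, hrd, hch⟩ := h.ch w hw hwA hwB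
  have hgp : 0 < κ' * R := by positivity
  have hi0 : (0 : ℝ) ≤ i := Nat.cast_nonneg i
  have hZR : Z * R = C₁ * R + i * R + 31 * R := by rw [hZ]; ring
  have hCR : C₁ * R = C * R + 20 * R := by rw [hC₁]; ring
  have hli : ∀ l < i, 1 * R ≤ ((i : ℝ) - l) * R ∧ ((i : ℝ) - l) * R ≤ i * R := fun l hl => by
    have e1 : (l : ℝ) + 1 ≤ i := by exact_mod_cast hl
    have e2 : (0 : ℝ) ≤ l := Nat.cast_nonneg l
    exact ⟨mul_le_mul_of_nonneg_right (by linarith) hR.le,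
      mul_le_mul_of_nonneg_right (by linarith) hR.le⟩
  have hCR0 : 0 < C * R := by positivity
  have hiR : 0 ≤ i * R := by positivity
  have eN : ∀ l : ℕ, (C₁ + ((i : ℝ) - l) * 1) * R = C₁ * R + ((i : ℝ) - l) * R := fun l => by
    ring
  have HB : DgB r₀ i (fun l => sn w l) (fun l => sn w l + (C₁ + ((i : ℝ) - l) * 1) * R) Λ
      (κ' * R) := by
    refine ⟨fun l a b => ?_, fun l a b => ?_, fun l a b l' a' b' => ?_⟩
    · show sn w l + 30 * (κ' * R) ≤ sn w l + (C₁ + ((i : ℝ) - l) * 1) * R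
      rw [eN]
      linarith [(hli l b).1]
    · show sn w l + (C₁ + ((i : ℝ) - l) * 1) * R + 30 * (κ' * R) ≤ sn w l + Λ
      rw [eN]
      linarith [(hli l b).2]
    · have e1 : (l' : ℝ) + 1 ≤ l := by exact_mod_cast b'
      show sn w l + (C₁ + ((i : ℝ) - l) * 1) * R - sn w l + 30 * (κ' * R) ≤
        sn w l' + (C₁ + ((i : ℝ) - l') * 1) * R - sn w l'
      have e2 : 1 * R ≤ ((l : ℝ) - l') * R := mul_le_mul_of_nonneg_right (by linarith) hR.le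
      have e3 : ((i : ℝ) - l') * R = ((i : ℝ) - l) * R + ((l : ℝ) - l') * R := by ring
      rw [eN, eN]
      linarith
  refine ⟨min e₀ (κ' * R / 8), lt_min he₀ (by linarith), fun j => sn w i + C * R - (j : ℝ) * w,
    fun j _ _ => by linarith, fun j hj2 hj pt hpt => ?_⟩
  have hmin : sn w i - 1 / 30 * R ≤ min Pb pt := le_min hPb (by linarith)
  refine F1.mono (aff_src (Jm := K + 2) (N := fun l => sn w l + (C₁ + ((i : ℝ) - l) * 1) * R) htm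
    (hch.take h0 hi) hΛ (by linarith) hgp HB (Dg := Dg) d1 he₀ (by positivity) d2
    (fun l a b j M => gch_exs h hw hwA hwB a (by omega) j M) hAf hvw
    (Ni := sn w i + C * R) (pt := pt) ?_ (fun l a b => ?_) h.pt (gch_kn h hwB.le) hj2 hj
    (by positivity : 0 < e * R / 2)) le_rfl ?_
  · linarith
  · show sn w i + C * R + 11 * (κ' * R) ≤ min Pb pt +
      (sn w l + (C₁ + ((i : ℝ) - l) * 1) * R - sn w l)
    rw [eN]
    linarith [(hli l b).1]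
  · rw [show ((i * (K + 2 + 1) : ℕ) : ℝ) = T from hT.symm]
    have e1 : T * (e / (2 * (T + 1)) * R) ≤ e * R / 2 := by
      rw [← mul_assoc, mul_div_assoc', div_mul_eq_mul_div, div_le_div_iff₀ (by positivity)
        (by norm_num)]
      nlinarith [mul_pos he hR, mul_nonneg hT0 (mul_pos he hR).le]
    linarith

/-- **The codes of the orders `≥ 2` of a place of the chain.** -/
theorem cd_atU {i : ℕ} (hsrc : SrcU S c r₀ r s₀ K sn G g i) {e C : ℝ} (he : 0 < e)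
    (hC : 0 < C) :
    ∃ Cn κ : ℝ, 0 < Cn ∧ 0 < κ ∧
    ∀ (γ : ∀ J : ℕ, Fam m J → Type) (y : ∀ (J : ℕ) (F : Fam m J), F.Ω → γ J F) (A B Λ : ℝ),
    GCh S (fun J F => ptr F J) y c r₀ r s₀ A B Λ sn G → A < g → g < B →
    ∃ ρ : ℝ, 0 < ρ ∧ ∀ R : ℝ, 0 < R → R < ρ →
    ∀ w ∈ G, g - R ≤ w → w ≤ g + R → ∀ (p : ℕ → ℝ) (D : ℕ → ℕ → ℝ) (N : ℝ),
    (∀ l, r₀ ≤ l → l < i → sn w l - κ * R ≤ p l) → sn w i - κ * R ≤ p i →
    (∀ l, r₀ ≤ l → l < i → ∀ j : ℕ, j ≤ 1 → sn w l + Cn * R ≤ D l j + (j : ℝ) * w) →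
    N ≤ sn w i + C * R →
    CdC S y c i K 2 w w (p i) N (e * R) (jetQ m c r₀ i w p D) := by
  obtain ⟨Cn, κ, q1, q2, H'⟩ := hsrc (e / (K + 3)) C (by positivity) hC
  refine ⟨Cn, κ, q1, q2, fun γ y A B Λ h hgA hgB => ?_⟩
  obtain ⟨C₀, htm⟩ := h.tm
  obtain ⟨ρ, q3, H⟩ := H' γ y A B Λ h hgA hgB
  refine ⟨min ρ (min (g - A) (B - g)), lt_min q3 (lt_min (by linarith) (by linarith)), ?_⟩
  intro R hR hRρ w hw w1 w2 p D N hp hpi hD hN
  have r1 : R < ρ := hRρ.trans_le (min_le_left _ _)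
  have r2 : R < g - A := hRρ.trans_le ((min_le_right _ _).trans (min_le_left _ _))
  have r3 : R < B - g := hRρ.trans_le ((min_le_right _ _).trans (min_le_right _ _))
  have hA0 := h.A0
  have hB1 := h.B1
  obtain ⟨e₀, he₀, Dg, d1, d2⟩ := H R hR r1 w hw w1 w2 p D hp hD
  refine cdC_F1 htm (by linarith) le_rfl (by linarith) he₀ (gch_yT h) K 2 (s := Dg)
    (η := fun _ => e / (K + 3) * R) (fun j h1 h2 => ?_) (fun j h1 h2 => ?_) ?_
  · linarith [d1 j h1 (by omega)]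
  · exact d2 j h1 (by omega) (p i) hpi
  · rw [Finset.sum_const, Nat.card_Ico, nsmul_eq_mul]
    have e1 : ((K + 2 - 2 : ℕ) : ℝ) = K := by norm_num
    rw [e1]
    have hK : (0 : ℝ) ≤ K := Nat.cast_nonneg K
    have e2 : (K : ℝ) * (e / (K + 3) * R) = K / (K + 3) * (e * R) := by ring
    rw [e2]
    have e3 : (K : ℝ) / (K + 3) < 1 := by
      rw [div_lt_one (by positivity)]
      linarith
    have := mul_lt_mul_of_pos_right e3 (mul_pos he hR)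
    linarith

/-- **The codes of the places `l ≤ v`** with digits which are large compared with the digits of the
places above. -/
theorem cds_atU {e C γ₀ : ℝ} (he : 0 < e) (hC : 0 < C) (hγ : 0 < γ₀) : ∀ n v : ℕ, n ≤ v →
    (∀ l, r₀ ≤ l → l ≤ v → SrcU S c r₀ r s₀ K sn G g l) →
    ∃ D : ℕ → ℝ, (∀ l, v - n ≤ l → l ≤ v → C ≤ D l) ∧
      (∀ l, v - n ≤ l → l < v → D (l + 1) + γ₀ ≤ D l) ∧
    ∃ Cm κ : ℝ, 0 < Cm ∧ 0 < κ ∧ (∀ l, v - n ≤ l → l ≤ v → D l ≤ Cm) ∧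
    ∀ (γ : ∀ J : ℕ, Fam m J → Type) (y : ∀ (J : ℕ) (F : Fam m J), F.Ω → γ J F) (A B Λ : ℝ),
    GCh S (fun J F => ptr F J) y c r₀ r s₀ A B Λ sn G → A < g → g < B →
    ∃ ρ : ℝ, 0 < ρ ∧ ∀ R : ℝ, 0 < R → R < ρ →
    ∀ w ∈ G, g - R ≤ w → w ≤ g + R → ∀ p n₀ n' : ℕ → ℝ,
    (∀ l, r₀ ≤ l → l ≤ v → sn w l - κ * R ≤ p l) →
    (∀ l, r₀ ≤ l → v - n ≤ l → l ≤ v → sn w l + (D l - 1) * R ≤ n₀ l ∧ n₀ l ≤ sn w l + D l * R ∧
      n' l = n₀ l) →
    (∀ l, r₀ ≤ l → l < v - n → sn w l + Cm * R ≤ n₀ l ∧ n' l = n₀ l) →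
    ∀ l, r₀ ≤ l → v - n ≤ l → l ≤ v →
      CdC S y c l K 2 w w (p l) (n' l) (e * R) (jetQ m c r₀ l w p (nd n₀ n' w)) := by
  intro n
  induction n with
  | zero =>
    intro v _ hsrc
    by_cases hv : r₀ ≤ v
    · obtain ⟨Cn, κ, q1, q2, H'⟩ := cd_atU (hsrc v hv le_rfl) he hC
      refine ⟨fun _ => C, fun _ _ _ => le_rfl, fun l a b => by omega, max Cn C, κ,
        lt_max_of_lt_left q1, q2, fun _ _ _ => le_max_right _ _, fun γ y A B Λ h hgA hgB => ?_⟩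
      obtain ⟨ρ, q3, H⟩ := H' γ y A B Λ h hgA hgB
      refine ⟨ρ, q3, ?_⟩
      intro R hR hRρ w hw w1 w2 p n₀ n' hp hn hn2 l a b b'
      obtain rfl : l = v := by omega
      have hm : Cn * R ≤ max Cn C * R := mul_le_mul_of_nonneg_right (le_max_left _ _) hR.le
      refine H R hR hRρ w hw w1 w2 p (nd n₀ n' w) (n' l) (fun l' a' b' => hp l' a' b'.le)
        (hp l a le_rfl) (fun l' a' b' j _ => ?_) ?_
      · obtain ⟨h1, h2⟩ := hn2 l' a' (by omega)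
        exact nd_lo (by linarith) (by rw [h2]; linarith) j
      · obtain ⟨-, h1, h2⟩ := hn l a (by omega) le_rfl
        rw [h2]
        exact h1
    · exact ⟨fun _ => C, fun _ _ _ => le_rfl, fun l a b => by omega, C, 1, hC, one_pos,
        fun _ _ _ => le_rfl, fun γ y A B Λ _ _ _ => ⟨1, one_pos,
        fun R _ _ w _ _ _ p n₀ n' _ _ _ l a b b' => by omega⟩⟩
  | succ n ih =>
    intro v hnv hsrc
    obtain ⟨D, D1, D2, Cm, κ, q1, q2, D3, H'⟩ := ih v (by omega) hsrc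
    obtain ⟨i, hi⟩ : ∃ i, i = v - (n + 1) := ⟨_, rfl⟩
    have hi1 : v - n = i + 1 := by omega
    rw [hi1] at D1 D2 D3 H'
    obtain ⟨Di, hDi⟩ : ∃ Di, Di = Cm + γ₀ + C + 1 := ⟨_, rfl⟩
    have hnew : ∃ Cn κ' : ℝ, 0 < Cn ∧ 0 < κ' ∧ (r₀ ≤ i →
        ∀ (γ : ∀ J : ℕ, Fam m J → Type) (y : ∀ (J : ℕ) (F : Fam m J), F.Ω → γ J F) (A B Λ : ℝ),
        GCh S (fun J F => ptr F J) y c r₀ r s₀ A B Λ sn G → A < g → g < B →
        ∃ ρ' : ℝ, 0 < ρ' ∧ ∀ R : ℝ, 0 < R → R < ρ' →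
        ∀ w ∈ G, g - R ≤ w → w ≤ g + R → ∀ (p : ℕ → ℝ) (D : ℕ → ℕ → ℝ) (N : ℝ),
        (∀ l, r₀ ≤ l → l < i → sn w l - κ' * R ≤ p l) → sn w i - κ' * R ≤ p i →
        (∀ l, r₀ ≤ l → l < i → ∀ j : ℕ, j ≤ 1 → sn w l + Cn * R ≤ D l j + (j : ℝ) * w) →
        N ≤ sn w i + Di * R →
        CdC S y c i K 2 w w (p i) N (e * R) (jetQ m c r₀ i w p D)) := by
      by_cases hir : r₀ ≤ i
      · obtain ⟨Cn, κ', a1, a2, a4⟩ := cd_atU (hsrc i hir (by omega)) he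
          (show 0 < Di by rw [hDi]; positivity)
        exact ⟨Cn, κ', a1, a2, fun _ => a4⟩
      · exact ⟨1, 1, one_pos, one_pos, fun h9 => absurd h9 hir⟩
    obtain ⟨Cn, κ', a1, a2, a4'⟩ := hnew
    obtain ⟨Cx, hCx⟩ : ∃ Cx, Cx = max Cn (max Cm Di) := ⟨_, rfl⟩
    have c1 : Cn ≤ Cx := by rw [hCx]; exact le_max_left _ _
    have c2 : Cm ≤ Cx := by rw [hCx]; exact (le_max_left _ _).trans (le_max_right _ _)
    have c3 : Di ≤ Cx := by rw [hCx]; exact (le_max_right _ _).trans (le_max_right _ _)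
    refine ⟨fun l => if l ≤ i then Di else D l, fun l a b => ?_, fun l a b => ?_, Cx,
      min κ κ', a1.trans_le c1, lt_min q2 a2, fun l a b => ?_, fun γ y A B Λ h hgA hgB => ?_⟩
    · by_cases h1 : l ≤ i
      · simp only [if_pos h1]
        rw [hDi]
        linarith
      · simp only [if_neg h1]
        exact D1 l (by omega) b
    · by_cases h1 : l ≤ i
      · have h2 : ¬ l + 1 ≤ i := by omega
        simp only [if_pos h1, if_neg h2]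
        have := D3 (l + 1) (by omega) (by omega)
        rw [hDi]
        linarith
      · have h2 : ¬ l + 1 ≤ i := by omega
        simp only [if_neg h1, if_neg h2]
        exact D2 l (by omega) b
    · by_cases h1 : l ≤ i
      · simp only [if_pos h1]
        exact c3
      · simp only [if_neg h1]
        exact (D3 l (by omega) b).trans c2
    obtain ⟨ρ, q3, H⟩ := H' γ y A B Λ h hgA hgB
    have hρi : ∃ ρ' : ℝ, 0 < ρ' ∧ (r₀ ≤ i → ∀ R : ℝ, 0 < R → R < ρ' →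
        ∀ w ∈ G, g - R ≤ w → w ≤ g + R → ∀ (p : ℕ → ℝ) (D : ℕ → ℕ → ℝ) (N : ℝ),
        (∀ l, r₀ ≤ l → l < i → sn w l - κ' * R ≤ p l) → sn w i - κ' * R ≤ p i →
        (∀ l, r₀ ≤ l → l < i → ∀ j : ℕ, j ≤ 1 → sn w l + Cn * R ≤ D l j + (j : ℝ) * w) →
        N ≤ sn w i + Di * R →
        CdC S y c i K 2 w w (p i) N (e * R) (jetQ m c r₀ i w p D)) := by
      by_cases hir : r₀ ≤ i
      · obtain ⟨ρ', a3, a4⟩ := a4' hir γ y A B Λ h hgA hgB
        exact ⟨ρ', a3, fun _ => a4⟩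
      · exact ⟨1, one_pos, fun h9 => absurd h9 hir⟩
    obtain ⟨ρ', a3, a4⟩ := hρi
    refine ⟨min ρ ρ', lt_min q3 a3, ?_⟩
    intro R hR hRρ w hw w1 w2 p n₀ n' hp hn hn2 l a b b'
    have k1 : min κ κ' * R ≤ κ * R := mul_le_mul_of_nonneg_right (min_le_left _ _) hR.le
    have k2 : min κ κ' * R ≤ κ' * R := mul_le_mul_of_nonneg_right (min_le_right _ _) hR.le
    have c1R := mul_le_mul_of_nonneg_right c1 hR.le
    have c2R := mul_le_mul_of_nonneg_right c2 hR.le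
    rcases Nat.lt_or_ge i l with h1 | h1
    · refine H R hR (hRρ.trans_le (min_le_left _ _)) w hw w1 w2 p n₀ n'
        (fun l' x z => by linarith [hp l' x z]) (fun l' x z z' => ?_) (fun l' x z => ?_) l a
        (by omega) b'
      · have h2 := hn l' x (by omega) z'
        simp only [if_neg (show ¬ l' ≤ i by omega)] at h2
        exact h2
      · rcases Nat.lt_or_ge l' i with h3 | h3
        · obtain ⟨h4, h5⟩ := hn2 l' x (by omega)
          exact ⟨by linarith, h5⟩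
        · obtain rfl : l' = i := by omega
          obtain ⟨h4, h5, h6⟩ := hn l' x (by omega) (by omega)
          simp only [if_pos (le_refl l')] at h4
          refine ⟨?_, h6⟩
          have : Cm * R ≤ (Di - 1) * R := mul_le_mul_of_nonneg_right (by rw [hDi]; linarith) hR.le
          linarith
    · obtain rfl : l = i := by omega
      obtain ⟨h4, h5, h6⟩ := hn l a (by omega) (by omega)
      simp only [if_pos (le_refl l)] at h5
      refine a4 a R hR (hRρ.trans_le (min_le_right _ _)) w hw w1 w2 p (nd n₀ n' w) (n' l)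
        (fun l' x z => by linarith [hp l' x (by omega)]) (by linarith [hp l a b'])
        (fun l' x z j _ => ?_) (by rw [h6]; exact h5)
      obtain ⟨h7, h8⟩ := hn2 l' x (by omega)
      exact nd_lo (by linarith) (by rw [h8]; linarith) j

end Pool.CDX
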