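import Pool.Agent.H71.CDX.Cdk

/-!
# Labels of a bounded degree at nearby windows

`LabW`: labels of degree at most `K` at a window. `LbR`: near each window of `G` there is an earlier
window of `G` with such labels.
`jt_F1Q`: all jets of the target from a context.
-/

set_option autoImplicit false

namespace Pool.CDX

open Finset Real MvPolynomial
open Pool.Agent.H49.Ent Pool.Agent.H32.Dense Pool.STK Pool.KA Pool.KSAT Pool.K2S Pool.PB Pool.GEN
open Pool.S6C Pool.RCD Pool.LA91 Pool.OWN68 Pool.CHT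
open Pool.GRD (LbP)
open Pool.AJW (CfB ctx TgtN TwoN two_jets_r cod_Fj_p)
open Pool.AJX (LbX FwX MshX ctxK_few)

/-- **Labels of degree `≤ K`** of the places `r₀, …, i` at the window `b`, with the margin `g₀`. -/
def LabW {m : ℕ} (S : PCl m) (c : ℕ → Fin m) (r₀ K : ℕ) (sn : ℝ → ℕ → ℝ) (g₀ b : ℝ) (i : ℕ) :
    Prop :=
  ∃ E rd : ℕ → ℝ,
    (∀ l, r₀ ≤ l → l ≤ i → 0 ≤ E l ∧ E l ≤ 1 ∧ 0 ≤ rd l ∧ rd l + g₀ ≤ 1 ∧ 0 ≤ sn b l ∧
      sn b l + E l + g₀ ≤ 1) ∧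
    ∀ e : ℝ, 0 < e → Bas S (fun J F A => ∃ (V : Type) (z : PtT F → V) (z' : LnT F → V)
      (g : V → ℕ → MvPolynomial (Option (Fin m)) ℝ),
      LbX F c r₀ (i + 1) K e E b rd (sn b) A z z' g)

/-- **Labels of degree `≤ K`** at a window of `G` less than `ε` before each window of `G` in the box
of radius `W` around `g`. -/
def LbR {m : ℕ} (S : PCl m) (c : ℕ → Fin m) (r₀ K : ℕ) (sn : ℝ → ℕ → ℝ) (G : Set ℝ)
    (g g₀ W ε : ℝ) (i : ℕ) : Prop :=
  ∀ w ∈ G, g - W ≤ w → w ≤ g + W → ∃ b ∈ G, w - ε < b ∧ b < w ∧ LabW S c r₀ K sn g₀ b i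

theorem LabW.sub {m : ℕ} {S S' : PCl m} {c : ℕ → Fin m} {r₀ K : ℕ} {sn : ℝ → ℕ → ℝ}
    {g₀ b : ℝ} {i : ℕ} (h : LabW S c r₀ K sn g₀ b i)
    (hs : ∀ (τ : ℝ) (J : ℕ) (F : Fam m J) (A : F.Ω → Prop), S'.St τ J F A → S.St τ J F A) :
    LabW S' c r₀ K sn g₀ b i := by
  obtain ⟨E, rd, h1, h2⟩ := h
  exact ⟨E, rd, h1, fun e he => (h2 e he).sub hs⟩

/-- Fewer places, a smaller margin. -/
theorem LabW.mono {m : ℕ} {S : PCl m} {c : ℕ → Fin m} {r₀ r₁ K : ℕ} {sn : ℝ → ℕ → ℝ} {g₀ g₁ b : ℝ}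
    {i j : ℕ} (h : LabW S c r₀ K sn g₀ b i) (h0 : r₀ ≤ r₁) (hj : j ≤ i) (hg : g₁ ≤ g₀) :
    LabW S c r₁ K sn g₁ b j := by
  obtain ⟨E, rd, h1, h2⟩ := h
  refine ⟨E, rd, fun l a b' => ?_, fun e he => Bas.mono 0 (h2 e he) ?_⟩
  · obtain ⟨a1, a2, a3, a4, a5, a6⟩ := h1 l (h0.trans a) (b'.trans hj)
    exact ⟨a1, a2, a3, by linarith, a5, by linarith⟩
  · rintro J - F A ⟨V, z, z', gg, h3⟩
    exact ⟨V, z, z', gg, fun l a b' => h3 l (h0.trans a) (by omega)⟩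

/-- Smaller boxes and margins, less precise windows. -/
theorem LbR.mono {m : ℕ} {S : PCl m} {c : ℕ → Fin m} {r₀ K : ℕ} {sn : ℝ → ℕ → ℝ} {G : Set ℝ}
    {g g₀ g₁ W ε W' ε' : ℝ} {i : ℕ} (h : LbR S c r₀ K sn G g g₀ W ε i) (hg : g₁ ≤ g₀)
    (hW : W' ≤ W) (hε : ε ≤ ε') :
    LbR S c r₀ K sn G g g₁ W' ε' i := fun w hw w1 w2 => by
  obtain ⟨b, hb, b1, b2, H⟩ := h w hw (by linarith) (by linarith)
  exact ⟨b, hb, by linarith, b2, H.mono le_rfl le_rfl hg⟩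

theorem LbR.sub {m : ℕ} {S S' : PCl m} {c : ℕ → Fin m} {r₀ K : ℕ} {sn : ℝ → ℕ → ℝ} {G : Set ℝ}
    {g g₀ W ε : ℝ} {i : ℕ} (h : LbR S c r₀ K sn G g g₀ W ε i)
    (hs : ∀ (τ : ℝ) (J : ℕ) (F : Fam m J) (A : F.Ω → Prop), S'.St τ J F A → S.St τ J F A) :
    LbR S' c r₀ K sn G g g₀ W ε i := fun w hw w1 w2 => by
  obtain ⟨b, hb, b1, b2, H⟩ := h w hw w1 w2
  exact ⟨b, hb, b1, b2, H.sub hs⟩

/-- **All jets of the target** over labels of the window `w`, from a context. -/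
theorem jt_F1Q (K : ℕ) {h : ℝ} (hh : 0 < h) (hh1 : h ≤ 1) {ε : ℝ} (hε : 0 < ε) (r : ℕ) :
    ∃ δ : ℝ, 0 < δ ∧
    ∀ {m : ℕ} {S : PCl m} {c : ℕ → Fin m} {r₀ : ℕ} {sn : ℕ → ℝ → ℝ} {G : Set ℝ} {b o φ Sb : ℝ}
      {Sl : ℕ → ℝ}, LdS S c r₀ r sn G b o φ Sl Sb → ∀ {α γ : ∀ J : ℕ, Fam m J → Type}
    {f : ∀ (J : ℕ) (F : Fam m J), F.Ω → α J F} {y : ∀ (J : ℕ) (F : Fam m J), F.Ω → γ J F},
    (∀ (J : ℕ) (F : Fam m J), ∃ χ : α J F → PtT F, ∀ ω, ptr F J ω = χ (f J F ω)) →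
    ∀ {w x a Ub q g₀ e₁ : ℝ} {n E rd : ℕ → ℝ} {U : Type} {Q : Qt m U},
    Kn ((range r₀).image c) Ub (Ub - w) y →
    w ∈ G → x ∈ G → b ≤ w → w ≤ x → x ≤ o → x ≤ a → a ≤ 1 → x < Ub → Ub < 1 → 0 < q → 0 < g₀ →
    0 ≤ sn r w → sn r w + q + E r + g₀ ≤ 1 → w + q ≤ 1 →
    (∀ i, r₀ ≤ i → i ≤ r → 0 ≤ E i ∧ E i ≤ 1) → (∀ i, r₀ ≤ i → i ≤ r → 0 ≤ rd i ∧ rd i + g₀ ≤ 1) →
    (∀ i, r₀ ≤ i → i < r → n i + E i + g₀ ≤ 1) →
    0 < e₁ → (∀ e : ℝ, 0 < e → e ≤ e₁ → FwX S f (vg a) y Q c r₀ (r + 1) K E w rd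
      (fun l => sn l w) (ctx c r₀ r K w (Ub - w) n) e (δ * q)) →
    (∀ i, r₀ ≤ i → i < r → sn i x + 20 * Sb * φ ≤ n i) →
    (∀ i, r₀ ≤ i → i < r → n i + 20 * Sb * φ ≤ sn i w + (Ub - w)) →
    (∀ i, r₀ ≤ i → i < r → ∀ l, r₀ ≤ l → l < i →
      n i - sn i w + max 0 (Sl l - Sl i) * (x - w) + 20 * Sb * φ ≤ n l - sn l w) →
    (∀ i, r₀ ≤ i → i < r →
      q + max 0 (Sl i - Sl r) * (x - w) + 20 * Sb * φ ≤ n i - sn i w) →
    sn r w + q + 20 * Sb * φ ≤ sn r x → q + 20 * Sb * φ ≤ Ub - w →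
    (r : ℝ) * φ ≤ δ * q →
    (∀ q' : ℝ, 0 ≤ q' → q' ≤ q →
      RawN S ((range r).image c) (c r) (sn r w) q' h (δ * q)) →
    (∀ e : ℝ, 0 < e → Bas S (fun J F A => ∃ (V : Type) (z : PtT F → V) (z' : LnT F → V)
      (g : V → ℕ → MvPolynomial (Option (Fin m)) ℝ),
      LbX F c r₀ (r + 1) K e E w rd (fun l => sn l w) A z z' g)) →
    ∃ e₀ : ℝ, 0 < e₀ ∧ ∀ e : ℝ, 0 < e → e ≤ e₀ → ∀ (Jm : ℕ) (Pt : ℝ), sn r w - φ ≤ Pt →
      F1 S f (vg a) y Q (qJets m c r (r + 1) Jm (fun _ _ => w)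
        (fun _ _ => Pt) (fun _ j => sn r w + q - (j : ℕ) * w)) e (ε * q) := by
  obtain ⟨δ, hδ, H⟩ := Pool.AJX.jt_Q K hh hh1 (ε := ε) hε
  refine ⟨δ, hδ, ?_⟩
  intro m S c r₀ sn G b o φ Sb Sl L α γ f y hf w x a Ub q g₀ e₁ n E rd U Q hy hw hx hbw hwx hxo hxa
    ha1 hxU hU1 hq hg₀ hs0 hs1 hwq hE hrd hn1 he₁ hctx hnx hnU hnn hnq hqx hqU hφδ hraw hlb
  obtain ⟨C₀, htm⟩ := L.tm
  have hφ := L.φ0
  obtain ⟨hSr, hSb⟩ := L.S1 r L.rr le_rfl
  have hSb1 : 1 ≤ Sb := hSr.trans hSb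
  have hSφ : φ ≤ Sb * φ := by nlinarith
  obtain ⟨M, B, hB0, hBM, hBG, hBs⟩ := gap_mesh hφ L.gap hw hx hbw hwx hxo
  have hw0 : 0 ≤ w := L.b0.trans hbw
  have hwo : w ≤ o := hwx.trans hxo
  -- the mesh and the levels
  have u1 : ∀ i, r₀ ≤ i → i ≤ r → ∀ k ≤ M, sn i w + Sl i * (B k - w) - φ ≤ sn i (B k) ∧
      sn i (B k) ≤ sn i w + Sl i * (B k - w) + φ := fun i h0 h1 k hk => by
    obtain ⟨h2, h3, h4⟩ := hBG k hk
    exact L.up h0 h1 hw h2 hbw h3 (h4.trans hxo)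
  have ux : ∀ i, r₀ ≤ i → i ≤ r → sn i w + Sl i * (x - w) - φ ≤ sn i x ∧
      sn i x ≤ sn i w + Sl i * (x - w) + φ := fun i h0 h1 => L.up h0 h1 hw hx hbw hwx hxo
  have hS : ∀ i, r₀ ≤ i → i ≤ r → ∀ t : ℝ, 0 ≤ t → t ≤ Sl i * t := fun i h0 h1 t ht => by
    have := mul_le_mul_of_nonneg_right (L.S1 i h0 h1).1 ht
    linarith
  have hS4 : ∀ i, r₀ ≤ i → i ≤ r → ∀ k < M, Sl i * (B (k + 1) - w) ≤ Sl i * (B k - w) + 4 * (Sb * φ) :=
    fun i h0 h1 k hk => by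
      obtain ⟨h2, h3⟩ := L.S1 i h0 h1
      have e1 : Sl i * (B (k + 1) - B k) ≤ Sl i * (4 * φ) :=
        mul_le_mul_of_nonneg_left (by linarith [(hBs k hk).2]) (by linarith)
      have e2 : Sl i * (4 * φ) ≤ Sb * (4 * φ) := mul_le_mul_of_nonneg_right h3 (by positivity)
      nlinarith
  have hSm : ∀ i, r₀ ≤ i → i ≤ r → ∀ k < M, Sl i * (B k - w) ≤ Sl i * (B (k + 1) - w) :=
    fun i h0 h1 k hk => mul_le_mul_of_nonneg_left (by linarith [(hBs k hk).1])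
      (by linarith [(L.S1 i h0 h1).1])
  -- the difference of two slopes
  have hdf : ∀ i l : ℕ, ∀ k ≤ M, (Sl l - Sl i) * (B k - w) ≤ max 0 (Sl l - Sl i) * (x - w) :=
    fun i l k hk => by
      obtain ⟨h2, h3, h4⟩ := hBG k hk
      calc (Sl l - Sl i) * (B k - w) ≤ max 0 (Sl l - Sl i) * (B k - w) :=
            mul_le_mul_of_nonneg_right (le_max_right _ _) (by linarith)
        _ ≤ max 0 (Sl l - Sl i) * (x - w) :=
            mul_le_mul_of_nonneg_left (by linarith) (le_max_left _ _)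
  have HM : MshX S c r₀ r B M sn n n Ub φ := by
    constructor
    · exact L.rr
    · exact hφ
    · rw [hB0]; exact hw0
    · exact fun k hk => (hBs k hk).1
    · rw [hBM]; exact hxU
    · exact hU1.le
    · intro k hk
      obtain ⟨h2, h3, h4⟩ := hBG k hk
      obtain ⟨u₁, rv, hrv, hcv⟩ := L.ch (B k) h2 (hbw.trans h3) (h4.trans hxo)
      exact ⟨u₁, rv, hcv, hrv⟩
    · intro k hk i h0 h1 N
      obtain ⟨h2, h3, h4⟩ := hBG k hk
      exact L.exs h2 (hbw.trans h3) (h4.trans hxo) h0 h1 0 N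
    · exact fun l _ _ => le_rfl
    · intro k hk l h0 h1
      obtain ⟨h2, h3, h4⟩ := hBG k hk
      have e1 := (u1 l h0 h1.le k hk).2
      have e2 := (ux l h0 h1.le).1
      have e3 : Sl l * (B k - w) ≤ Sl l * (x - w) :=
        mul_le_mul_of_nonneg_left (by linarith) (by linarith [(L.S1 l h0 h1.le).1])
      have e4 := hnx l h0 h1
      linarith
    · intro k hk l h0 h1
      obtain ⟨h2, h3, h4⟩ := hBG k hk
      have e1 := (u1 l h0 h1.le k hk).1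
      have e2 := hS l h0 h1.le (B k - w) (by linarith)
      have e3 := hnU l h0 h1
      linarith
    · intro k hk l h0 h1 l' h0' h1'
      have e1 := (u1 l h0 h1.le k hk).1
      have e2 := (u1 l' h0' (by omega) k hk).2
      have e3 := hdf l l' k hk
      have e4 := hnn l h0 h1 l' h0' h1'
      have e5 : (Sl l' - Sl l) * (B k - w) = Sl l' * (B k - w) - Sl l * (B k - w) := by ring
      linarith
    · intro k hk l h0 h1
      obtain ⟨h2, h3, h4⟩ := hBG k hk.le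
      obtain ⟨h5, h6, h7⟩ := hBG (k + 1) hk
      obtain ⟨h8, h9⟩ := hBs k hk
      have e1 := (u1 l h0 h1.le k hk.le).1
      have e2 := (u1 l h0 h1.le (k + 1) hk).1
      have e3 := hS l h0 h1.le (B k - w) (by linarith)
      have e4 := hS l h0 h1.le (B (k + 1) - w) (by linarith)
      have e5 := hnU l h0 h1
      have : n l + φ - (Ub - B (k + 1)) ≤ min (sn l (B k)) (sn l (B (k + 1))) :=
        le_min (by linarith) (by linarith)
      linarith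
    · intro k hk l h0 h1 l' h0' h1'
      have e1 := (u1 l h0 h1.le k hk.le).1
      have e2 := (u1 l h0 h1.le (k + 1) hk).1
      have e3 := (u1 l' h0' (by omega) (k + 1) hk).2
      have e4 := hdf l l' (k + 1) hk
      have e5 := hnn l h0 h1 l' h0' h1'
      have e6 := hS4 l h0 h1.le k hk
      have e7 := hSm l h0 h1.le k hk
      have e8 : (Sl l' - Sl l) * (B (k + 1) - w) =
        Sl l' * (B (k + 1) - w) - Sl l * (B (k + 1) - w) := by ring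
      have : n l + 2 * φ - (n l' - sn l' (B (k + 1))) ≤ min (sn l (B k)) (sn l (B (k + 1))) :=
        le_min (by linarith) (by linarith)
      linarith
  have hN : ∀ i, r₀ ≤ i → i < r →
      TgtN r₀ i B M sn n Ub φ (sn i x - φ) ∧ sn i x - φ ≤ n i := by
    intro i h0 h1
    have g1 := (ux i h0 h1.le).2
    have g2 := hnx i h0 h1
    have g3 := hnU i h0 h1
    refine ⟨⟨?_, fun k hk => ?_, fun k hk l h0' h1' => ?_⟩, by linarith⟩
    · rw [hBM]; linarith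
    · obtain ⟨h2, h3, h4⟩ := hBG k hk.le
      obtain ⟨h5, h6, h7⟩ := hBG (k + 1) hk
      obtain ⟨h8, h9⟩ := hBs k hk
      have e1 := (u1 i h0 h1.le k hk.le).1
      have e2 := (u1 i h0 h1.le (k + 1) hk).1
      have e3 := hS i h0 h1.le (B k - w) (by linarith)
      have e4 := hS i h0 h1.le (B (k + 1) - w) (by linarith)
      have : sn i x - φ + φ - (Ub - B (k + 1)) ≤ min (sn i (B k)) (sn i (B (k + 1))) :=
        le_min (by linarith) (by linarith)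
      linarith
    · have hlr : l < r := by omega
      obtain ⟨h2, h3, h4⟩ := hBG k hk.le
      obtain ⟨h5, h6, h7⟩ := hBG (k + 1) hk
      obtain ⟨h8, h9⟩ := hBs k hk
      have e1 := (u1 i h0 h1.le k hk.le).1
      have e2 := (u1 i h0 h1.le (k + 1) hk).1
      have e3 := (u1 l h0' hlr.le (k + 1) hk).2
      have e4 := hnn i h0 h1 l h0' h1'
      have e5 := hS4 i h0 h1.le k hk
      have e6 := (ux i h0 h1.le).1
      -- the worst case is the largest slope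
      have e7 : Sl i * (x - w) + Sl l * (B (k + 1) - w) - Sl i * (B (k + 1) - w) ≤
          Sl i * (x - w) + max 0 (Sl l - Sl i) * (x - w) := by
        have := hdf i l (k + 1) hk
        have e8 : (Sl l - Sl i) * (B (k + 1) - w) =
          Sl l * (B (k + 1) - w) - Sl i * (B (k + 1) - w) := by ring
        linarith
      have e9 := hSm i h0 h1.le k hk
      have : sn i x - φ + 2 * φ - (n l - sn l (B (k + 1))) ≤
          min (sn i (B k)) (sn i (B (k + 1))) := le_min (by linarith) (by linarith)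
      linarith
  have hNr : TgtN r₀ r B M sn n Ub φ (sn r (B 0) + q) := by
    rw [hB0]
    refine ⟨?_, fun k hk => ?_, fun k hk l h0' h1' => ?_⟩
    · rw [hBM]; linarith
    · obtain ⟨h2, h3, h4⟩ := hBG k hk.le
      obtain ⟨h5, h6, h7⟩ := hBG (k + 1) hk
      obtain ⟨h8, h9⟩ := hBs k hk
      have e1 := (u1 r L.rr le_rfl k hk.le).1
      have e2 := (u1 r L.rr le_rfl (k + 1) hk).1
      have e3 := hS r L.rr le_rfl (B k - w) (by linarith)
      have e4 := hS r L.rr le_rfl (B (k + 1) - w) (by linarith)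
      have : sn r w + q + φ - (Ub - B (k + 1)) ≤ min (sn r (B k)) (sn r (B (k + 1))) :=
        le_min (by linarith) (by linarith)
      linarith
    · have e1 := (u1 r L.rr le_rfl k hk.le).1
      have e2 := (u1 r L.rr le_rfl (k + 1) hk).1
      have e3 := (u1 l h0' h1'.le (k + 1) hk).2
      have e4 := hdf r l (k + 1) hk
      have e5 := hnq l h0' h1'
      have e6 := hS4 r L.rr le_rfl k hk
      have e7 := hSm r L.rr le_rfl k hk
      have e8 : (Sl l - Sl r) * (B (k + 1) - w) =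
        Sl l * (B (k + 1) - w) - Sl r * (B (k + 1) - w) := by ring
      have : sn r w + q + 2 * φ - (n l - sn l (B (k + 1))) ≤
          min (sn r (B k)) (sn r (B (k + 1))) := le_min (by linarith) (by linarith)
      linarith
  have hsum : ∑ i ∈ Finset.Ico r₀ r, (sn i (B M) - (sn i x - φ)) ≤ δ * q := by
    rw [hBM]
    have e1 : ∑ i ∈ Finset.Ico r₀ r, (sn i x - (sn i x - φ)) = ((r - r₀ : ℕ) : ℝ) * φ := by
      rw [Finset.sum_congr rfl fun i _ => (by ring : sn i x - (sn i x - φ) = φ),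
        Finset.sum_const, Nat.card_Ico, nsmul_eq_mul]
    rw [e1]
    refine le_trans (mul_le_mul_of_nonneg_right ?_ hφ.le) hφδ
    exact_mod_cast Nat.sub_le r r₀
  have hmx : ∀ i l : ℕ, 0 ≤ max 0 (Sl l - Sl i) * (x - w) := fun i l =>
    mul_nonneg (le_max_left _ _) (by linarith)
  have HT : TwoN r₀ r (B 0) Ub (5 * φ) (fun l => sn l (B 0)) n
      (fun l => n l - sn l w - 10 * φ) := by
    rw [hB0]
    refine ⟨by positivity, fun l h0 h1 => ?_, fun l h0 h1 => ?_, fun l h0 h1 => ?_,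
      fun l h0 h1 l' h0' h1' => ?_, fun l h0 h1 => ?_, fun l h0 h1 l' h0' h1' => ?_⟩
    · show 0 < n l - sn l w - 10 * φ
      linarith [hnq l h0 h1, hmx r l]
    · show sn l w + (n l - sn l w - 10 * φ) + 5 * φ ≤ n l
      linarith
    · show n l - sn l w - 10 * φ + 5 * φ ≤ Ub - w
      linarith [hnU l h0 h1]
    · show n l - sn l w - 10 * φ + 5 * φ ≤ n l' - sn l' w - 10 * φ
      linarith [hnn l h0 h1 l' h0' h1', hmx l l']
    · show n l + 5 * φ ≤ sn l w + (Ub - w)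
      linarith [hnU l h0 h1]
    · show n l + 5 * φ ≤ sn l w + (n l' - sn l' w - 10 * φ)
      linarith [hnn l h0 h1 l' h0' h1', hmx l l']
  have hδq : 0 < δ * q := by positivity
  obtain ⟨u₁, rw₀, hrw₀, hch⟩ := L.ch w hw hbw hwo
  obtain ⟨e₀, he₀, -, HP⟩ := H htm HM (q := q) (g₀ := g₀) (E := E) (rd := rd)
    (N := fun i => sn i x - φ) hE hq (by rw [hB0]; exact hs0) hg₀
    (by rw [hB0]; exact hs1) hrd hn1 hU1
    (by rw [hB0]; exact hwq) hN hNr hsum HT hφ.le (by linarith)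
    (by rw [hB0]; linarith) (fun l h0 h1 => by
      show q + 5 * φ ≤ n l - sn l w - 10 * φ
      linarith [hnq l h0 h1, hmx r l])
    (Qu := Q) (f := f) (y := y) (a := a)
    (e₁ := e₁) hf (by rw [hB0]; exact hy) (by rw [hBM]; exact hxa) ha1 he₁
    (by rw [hB0]; exact hctx)
    (by rw [hB0]; exact hraw)
    (by rw [hB0]; exact hlb)
  refine ⟨e₀, he₀, fun e he hle Jm Pt hPt => ?_⟩
  have h1 := HP e he hle Jm Pt (by rw [hB0]; exact hPt)
  rw [hB0] at h1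
  exact h1

end Pool.CDX
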