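import Pool.Agent.H71.AVG.Pf2
import Pool.Agent.H57.AVG.C1s

/-!
# The codes of the own path from its jets

`cod_Fe`: the codes of the orders `≥ j₀`, over arbitrary labels, from the jets of each order `≥ j₀`;
`cdC_F1`: the form `CdC`.
-/

set_option autoImplicit false

namespace Pool.CDX

open Finset Real MvPolynomial
open Pool.Agent.H49.Ent Pool.Agent.H32.Dense Pool.STK Pool.KA Pool.KSAT Pool.K2S Pool.PB Pool.GEN
open Pool.S6C Pool.RCD Pool.LA91 Pool.OWN68 Pool.CHT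
open Pool.GRD (LbP)
open Pool.AVG71 (cod cod_few)
open Pool.AJW (CfB cnt_cfb)

/-- **The codes of the orders `≥ j₀`** from the jets of each order. -/
theorem cod_Fe {m : ℕ} {S : PCl m} {C₀ : ℝ} (htm : TmC S C₀) {c : ℕ → Fin m} {r : ℕ}
    {w a P N e δ : ℝ} {η : ℕ → ℝ} (hw0 : 0 ≤ w) (hwa : w ≤ a) (ha : a ≤ 1)
    {U₀ : Type} {Qu : Qt m U₀} {α γ : ∀ J : ℕ, Fam m J → Type}
    {f : ∀ (J : ℕ) (F : Fam m J), F.Ω → α J F} {y : ∀ (J : ℕ) (F : Fam m J), F.Ω → γ J F}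
    (hyT : ∀ (J : ℕ) (F : Fam m J), ∃ φ : γ J F → ℕ, ∀ ω, F.T ω = φ (y J F ω))
    (K j₀ : ℕ) {s : ℕ → ℝ} (hs : ∀ j : ℕ, j₀ ≤ j → j ≤ K + 1 → N - (j : ℕ) * w ≤ s j)
    (hF : ∀ j : ℕ, j₀ ≤ j → j ≤ K + 1 → F1 S f (vg a) y Qu
      (qJet m ((range r).image c) (c r) j w P (s j)) e (η j))
    (hη : ∑ j ∈ Finset.Ico j₀ (K + 2), η j < δ) (K₀ : ℕ) (E : ℝ) :
    Bas S (fun J F A => ∀ u₀ : F.Ω → U₀, Qu.P K₀ e J F A u₀ →
      ∀ (V : Type) (z : PtT F → V) (z' : LnT F → V)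
        (G : V → MvPolynomial (Option (Fin m)) ℝ), LbP F ((range r).image c) (c r) K
          J ⌊w * J⌋₊ ⌊(P - e) * J⌋₊ A z z' G → CfB F ⌊w * J⌋₊ E (c r) A z' G →
        ∃ (V₁ : Type) (z₁ : F.Ω → V₁), Cl2 (f J F) (vg a J F) A z₁ ∧
          ∀ σ : ℝ, 0 < σ → σ ≤ 2 ^ (N * J) →
          CH (Pool.Agent.H49.Ent.cond F.p A True)
            (cod F ⌊w * J⌋₊ j₀ (K + 1) σ (c r) z' G)
            (fun ω => (u₀ ω, (z₁ ω, y J F ω))) ≤ δ * J) := by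
  classical
  choose MR JR hcR using fun j : ℕ => cnt_cfb m K j (N := s j) (w := w) (E := E) hw0
    (hwa.trans ha)
  obtain ⟨K₁, hK₁⟩ : ∃ K₁ : ℕ, K₁ = K₀ + K + ∑ j ∈ range (K + 2), MR j := ⟨_, rfl⟩
  obtain ⟨J₁, hJ₁⟩ : ∃ J₁ : ℕ, J₁ = ∑ j ∈ range (K + 2), JR j := ⟨_, rfl⟩
  obtain ⟨L', hL'⟩ : ∃ L' : ℝ, L' = ((K + 1 + 1 : ℕ) : ℝ) *
    Real.log (2 * (2 ^ (2 * (K + 1) + 1) + 1) + 1) := ⟨_, rfl⟩
  obtain ⟨η₀, hη₀⟩ : ∃ η₀, η₀ = ∑ j ∈ Finset.Ico j₀ (K + 2), η j := ⟨_, rfl⟩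
  rw [← hη₀] at hη
  have hδ0 : 0 < δ - η₀ := by linarith
  obtain ⟨J₂, hJ₂⟩ := exists_nat_ge (L' / (δ - η₀))
  have hFb : Bas S (fun J F A => ∀ j < K + 2, j₀ ≤ j → ∀ (u : F.Ω → U₀) (u' : F.Ω → ℤ),
      Qu.P K₁ e J F A u →
      (qJet m ((range r).image c) (c r) j w P (s j)).P K₁ e J F A u' →
      ∃ (V : Type) (z : F.Ω → V), Cl2 (f J F) (vg a J F) A z ∧
        CH (Pool.Agent.H49.Ent.cond F.p A True) u'
          (fun ω => (u ω, (z ω, y J F ω))) ≤ η j * J) := by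
    refine Bas.all (K + 2) fun j hj => ?_
    by_cases h : j₀ ≤ j
    · exact Bas.mono 0 (hF j h (by omega) K₁) fun J _ F A hA _ u u' h1 h2 => hA u u' h1 h2
    · exact Bas.mono 0 (Pool.GRW.tmc_bas htm one_pos) fun J _ F A _ h' => absurd h' h
  refine Bas.mono (max J₁ J₂) (hFb.and (Pool.GRW.tmc_bas htm one_pos)) ?_
  rintro J hJ F A ⟨HPA, hA, -⟩ u₀ hu₀ V z z' G hlb hcf
  have hJ1 : J₁ ≤ J := (le_max_left _ _).trans hJ
  have hJ2 : (J₂ : ℝ) ≤ J := by exact_mod_cast (le_max_right _ _).trans hJ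
  have hJ0 : (0 : ℝ) ≤ J := Nat.cast_nonneg J
  have f1 : L' ≤ (δ - η₀) * J := by
    have := hJ₂.trans hJ2
    rw [div_le_iff₀ hδ0] at this
    linarith
  obtain ⟨u', hu'⟩ : ∃ u' : ℕ → F.Ω → ℤ, u' = fun j ω =>
    ⌊(2 : ℝ) ^ (s j * J) * ojet F (c r) j (G (z' (slam F ⌊w * J⌋₊ ω))) ω⌋ :=
    ⟨_, rfl⟩
  obtain ⟨q', hq'⟩ : ∃ q' : F.Ω → ℝ, q' = Pool.Agent.H49.Ent.cond F.p A True := ⟨_, rfl⟩
  have hq'l : IsLaw q' := by
    rw [hq']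
    exact isLaw_cond F.isLaw hA
  have h0 := hq'l.nonneg
  have hz : ∀ j : ℕ, ∃ (V₂ : Type) (z₂ : F.Ω → V₂), Cl2 (f J F) (vg a J F) A z₂ ∧
      (j₀ ≤ j → j < K + 2 → CH q' (u' j) (fun ω => (u₀ ω, (z₂ ω, y J F ω))) ≤ η j * J) := by
    intro j
    by_cases h : j₀ ≤ j ∧ j < K + 2
    · have hMj : MR j ≤ ∑ j ∈ range (K + 2), MR j :=
        Finset.single_le_sum (f := MR) (fun i _ => Nat.zero_le _) (Finset.mem_range.2 h.2)
      have hJj : JR j ≤ ∑ j ∈ range (K + 2), JR j :=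
        Finset.single_le_sum (f := JR) (fun i _ => Nat.zero_le _) (Finset.mem_range.2 h.2)
      have hcn : (cnt F.p (u' j) A : ℝ) ≤ Real.exp (K₁ * J) := by
        rw [hu']
        refine (hcR j J (by omega) F _ A V z' G hlb.deg hcf).trans
          (Real.exp_le_exp.2 (mul_le_mul_of_nonneg_right ?_ hJ0))
        exact_mod_cast (by omega : MR j ≤ K₁)
      obtain ⟨V₂, z₂, h1, h2⟩ := HPA j h.2 h.1 u₀ (u' j) (Qu.mono (by omega) le_rfl hu₀)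
        ⟨hcn, V, z, z', G, hlb.mono (Finset.Subset.refl _) (by omega) le_rfl,
          fun ω _ => by rw [hu']⟩
      exact ⟨V₂, z₂, h1, fun _ _ => by rw [hq']; exact h2⟩
    · exact ⟨Unit, fun _ => (), ⟨⟨fun _ => (), fun _ _ => rfl⟩, fun _ => (), fun _ _ => rfl⟩,
        fun h1 h2 => absurd ⟨h1, h2⟩ h⟩
  choose V₂ z₂ hz₂ hC₂ using hz
  refine ⟨∀ j : Fin (K + 2), V₂ j, fun ω j => z₂ j ω, Cl2.pi fun j => hz₂ j,
    fun σ hσ0 hσ => ?_⟩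
  rw [← hq']
  have hWJ : ⌊w * J⌋₊ ≤ J := floor_le (hwa.trans ha) J
  obtain ⟨Y, hY⟩ : ∃ Y : F.Ω → U₀ × ((∀ j : Fin (K + 2), V₂ j) × γ J F), Y = fun ω =>
    (u₀ ω, ((fun j : Fin (K + 2) => z₂ j ω), y J F ω)) := ⟨_, rfl⟩
  rw [← hY]
  obtain ⟨φT, hφT⟩ := hyT J F
  obtain ⟨W, hW⟩ : ∃ W : F.Ω → Fin (K + 2) → ℤ, W = fun ω (j : Fin (K + 2)) =>
    if j₀ ≤ (j : ℕ) then u' j ω else 0 := ⟨_, rfl⟩
  have k1 : CH q' W Y ≤ η₀ * J := by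
    refine (CH_pis h0 _ _).trans ?_
    have h2 : ∀ j ∈ (univ : Finset (Fin (K + 2))), CH q' (fun ω => W ω j) Y ≤
        (if j₀ ≤ (j : ℕ) then η j else 0) * J := by
      intro j _
      by_cases h : j₀ ≤ (j : ℕ)
      · rw [if_pos h]
        have e0 : (fun ω => W ω j) = u' j := by
          funext ω
          rw [hW]
          exact if_pos h
        rw [e0]
        refine le_trans (CH_mono_cond h0 fun ω ω' _ _ e => ?_) (hC₂ j h j.2)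
        rw [hY] at e
        simp only [Prod.mk.injEq] at e ⊢
        exact ⟨e.1, congrFun e.2.1 j, e.2.2⟩
      · rw [if_neg h, zero_mul]
        refine le_of_eq (CH_eq_zero h0 fun ω ω' _ _ _ => ?_)
        rw [hW]
        show (if j₀ ≤ (j : ℕ) then u' j ω else 0) = if j₀ ≤ (j : ℕ) then u' j ω' else 0
        rw [if_neg h, if_neg h]
    refine (Finset.sum_le_sum h2).trans (le_of_eq ?_)
    rw [← Finset.sum_mul, Fin.sum_univ_eq_sum_range (fun j => if j₀ ≤ j then η j else 0) (K + 2),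
      hη₀]
    congr 1
    rw [← Finset.sum_filter]
    refine Finset.sum_congr ?_ fun _ _ => rfl
    ext j
    simp only [Finset.mem_filter, Finset.mem_range, Finset.mem_Ico]
    tauto
  have k2 : CH q' (cod F ⌊w * J⌋₊ j₀ (K + 1) σ (c r) z' G) (fun ω => (W ω, Y ω)) ≤ L' := by
    rw [hL']
    refine cod_few (w := w) (N := N) hw0 hWJ hσ0 hσ (fun v => ?_) hq'l
      (fun ω => (W ω, Y ω)) j₀ (s := s) (fun j h1 h2 => hs j h1 h2)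
      fun ω ω' _ _ e => ⟨?_, fun j hj hj' => ?_⟩
    · exact Nat.succ_le_succ (hlb.deg v)
    · have e1 := (Prod.ext_iff.mp e).2
      rw [hY] at e1
      simp only [Prod.mk.injEq] at e1
      rw [hφT, hφT, e1.2.2]
    · have e2 := congrFun (Prod.ext_iff.mp e).1 ⟨j, by omega⟩
      rw [hW] at e2
      simp only [if_pos hj] at e2
      rw [hu'] at e2
      exact e2
  have s1 := CH_le_add h0 (cod F ⌊w * J⌋₊ j₀ (K + 1) σ (c r) z' G) W Y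
  have e4 : δ * J = η₀ * J + (δ - η₀) * J := by ring
  rw [e4]
  linarith

/-- **The form `CdC`.** -/
theorem cdC_F1 {m : ℕ} {S : PCl m} {C₀ : ℝ} (htm : TmC S C₀) {c : ℕ → Fin m} {κ : ℕ}
    {w a P N e δ : ℝ} {η : ℕ → ℝ} (hw0 : 0 ≤ w) (hwa : w ≤ a) (ha : a ≤ 1) (he : 0 < e)
    {U₀ : Type} {Qu : Qt m U₀} {γ : ∀ J : ℕ, Fam m J → Type}
    {y : ∀ (J : ℕ) (F : Fam m J), F.Ω → γ J F}
    (hyT : ∀ (J : ℕ) (F : Fam m J), ∃ φ : γ J F → ℕ, ∀ ω, F.T ω = φ (y J F ω))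
    (K j₀ : ℕ) {s : ℕ → ℝ} (hs : ∀ j : ℕ, j₀ ≤ j → j ≤ K + 1 → N - (j : ℕ) * w ≤ s j)
    (hF : ∀ j : ℕ, j₀ ≤ j → j ≤ K + 1 → F1 S (fun J F => ptr F J) (vg a) y Qu
      (qJet m ((range κ).image c) (c κ) j w P (s j)) e (η j))
    (hη : ∑ j ∈ Finset.Ico j₀ (K + 2), η j < δ) :
    Pool.AVG57.CdC S y c κ K j₀ w a P N δ Qu :=
  ⟨e, he, fun K₀ E => cod_Fe htm hw0 hwa ha hyT K j₀ hs hF hη K₀ E⟩

end Pool.CDX
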