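import Pool.Agent.H71.CDX.Cda
import Pool.Agent.H71.AJX.Pfx

/-!
# Ladders of windows with general slopes

`LdS`: a chain and a target with labels at the windows of a set `G`, the levels are nearly affine with
the slopes `Sl`. `kn_mono`: fewer digits of the base. `gap_mesh`: windows between two windows.
`jt_F1`: all jets of the target over labels of the window `w`, from the record of a later window.
-/

set_option autoImplicit false

namespace Pool.CDX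

open Finset Real MvPolynomial
open Pool.Agent.H49.Ent Pool.Agent.H32.Dense Pool.STK Pool.KA Pool.KSAT Pool.K2S Pool.PB Pool.GEN
open Pool.S6C Pool.RCD Pool.LA91 Pool.OWN68 Pool.CHT
open Pool.GRD (LbP)
open Pool.AJW (CfB ctx TgtN TwoN two_jets_r)
open Pool.AJX (LbX FwX MshX ctxK_few)

/-- Fewer digits of the base. -/
theorem kn_mono {m : ℕ} {I : Finset (Fin m)} {p₀ lam p₁ lam₁ : ℝ} {γ : ∀ J : ℕ, Fam m J → Type}
    {y : ∀ (J : ℕ) (F : Fam m J), F.Ω → γ J F} (hp : p₁ ≤ p₀) (hl : lam₁ ≤ lam)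
    (hy : Kn I p₀ lam y) : Kn I p₁ lam₁ y := by
  intro J F
  obtain ⟨φ, hφ⟩ := hy J F
  have e1 : ⌊p₁ * J⌋₊ ≤ ⌊p₀ * J⌋₊ :=
    Nat.floor_le_floor (mul_le_mul_of_nonneg_right hp (Nat.cast_nonneg J))
  have e2 : ⌊lam₁ * J⌋₊ ≤ ⌊lam * J⌋₊ :=
    Nat.floor_le_floor (mul_le_mul_of_nonneg_right hl (Nat.cast_nonneg J))
  have hD : ∀ {a b : ℕ}, a ≤ b → ∀ (k : Fin m) (ω : F.Ω), F.D a ω k = F.D b ω k / 2 ^ (b - a) := by
    intro a b h k ω
    have h1 : (2 : ℝ) ^ a * F.d ω k = (2 ^ b * F.d ω k) / ((2 ^ (b - a) : ℕ) : ℝ) := by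
      have : (2 : ℝ) ^ b = 2 ^ a * 2 ^ (b - a) := by
        rw [← pow_add]; congr 1; omega
      rw [this]
      push_cast
      field_simp
    change ⌊(2 : ℝ) ^ a * F.d ω k⌋ = ⌊(2 : ℝ) ^ b * F.d ω k⌋ / 2 ^ (b - a)
    rw [h1, Int.floor_div_natCast]
    push_cast
    rfl
  refine ⟨fun v => ((φ v).1, (fun i => (φ v).2.1 i / 2 ^ (⌊p₀ * J⌋₊ - ⌊p₁ * J⌋₊),
    fun i => (φ v).2.2 i / 2 ^ (⌊lam * J⌋₊ - ⌊lam₁ * J⌋₊))), fun ω => ?_⟩
  simp only [hφ ω]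
  refine Prod.ext rfl (Prod.ext (funext fun i => ?_) (funext fun i => ?_))
  · by_cases h : i ∈ I
    · simp only [if_pos h]
      exact (fX_coarse F e1 i ω).symm
    · simp only [if_neg h, Int.zero_ediv]
  · by_cases h : i ∈ I
    · simp only [if_pos h]
      exact (hD e2 i ω).symm
    · simp only [if_neg h, Int.zero_ediv]

/-- **Windows between `w` and `x`**, with steps of length `≤ 4 φ`. -/
theorem gap_mesh {G : Set ℝ} {b o φ : ℝ} (hφ : 0 < φ)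
    (hgap : ∀ x, b ≤ x → x ≤ o → ∃ v ∈ G, |v - x| ≤ φ) {w x : ℝ} (hw : w ∈ G) (hx : x ∈ G)
    (hbw : b ≤ w) (hwx : w ≤ x) (hxo : x ≤ o) : ∃ (M : ℕ) (B : ℕ → ℝ), B 0 = w ∧ B M = x ∧
      (∀ k ≤ M, B k ∈ G ∧ w ≤ B k ∧ B k ≤ x) ∧
      (∀ k < M, B k ≤ B (k + 1) ∧ B (k + 1) ≤ B k + 4 * φ) := by
  classical
  obtain ⟨M, hM⟩ : ∃ M : ℕ, M = ⌊(x - w - φ) / (2 * φ)⌋₊ := ⟨_, rfl⟩
  have hM1 : x - w - φ < (M + 1) * (2 * φ) := by
    have := Nat.lt_floor_add_one ((x - w - φ) / (2 * φ))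
    rw [← hM, div_lt_iff₀ (by positivity)] at this
    exact_mod_cast this
  have hM0 : M ≠ 0 → (M : ℝ) * (2 * φ) ≤ x - w - φ := fun h0 => by
    have h1 : (M : ℝ) ≤ (x - w - φ) / (2 * φ) := by
      rw [hM]
      refine Nat.floor_le ?_
      by_contra h2
      rw [not_le] at h2
      exact h0 (by rw [hM]; exact Nat.floor_of_nonpos h2.le)
    rwa [le_div_iff₀ (by positivity)] at h1
  have hpt : ∀ k ≤ M, k ≠ 0 → (k : ℝ) * (2 * φ) ≤ x - w - φ := fun k hk h0 => by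
    refine le_trans ?_ (hM0 (by omega))
    have : (k : ℝ) ≤ M := by exact_mod_cast hk
    nlinarith
  have hex : ∀ k : ℕ, ∃ v : ℝ, (k ≤ M → k ≠ 0 → v ∈ G ∧ |v - (w + k * (2 * φ))| ≤ φ) := by
    intro k
    by_cases hk : k ≤ M ∧ k ≠ 0
    · have h1 := hpt k hk.1 hk.2
      have h2 : 0 ≤ (k : ℝ) * (2 * φ) := by positivity
      obtain ⟨v, hv, h3⟩ := hgap (w + k * (2 * φ)) (by linarith) (by linarith)
      exact ⟨v, fun _ _ => ⟨hv, h3⟩⟩
    · exact ⟨0, fun h1 h2 => absurd ⟨h1, h2⟩ hk⟩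
  choose V hV using hex
  have hVb : ∀ k ≤ M, k ≠ 0 → w + k * (2 * φ) - φ ≤ V k ∧ V k ≤ w + k * (2 * φ) + φ :=
    fun k h1 h2 => by
      have := abs_le.1 (hV k h1 h2).2
      constructor <;> linarith
  have hstep : ∀ k : ℕ, k ≤ M + 1 → ∀ B : ℕ → ℝ,
      B = (fun k => if k = 0 then w else if k ≤ M then V k else x) →
      (B k ∈ G ∧ w ≤ B k ∧ B k ≤ x) := by
    intro k hk B hB
    subst hB
    dsimp only
    by_cases h0 : k = 0
    · simp [h0, hw, hwx]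
    · rw [if_neg h0]
      by_cases h1 : k ≤ M
      · rw [if_pos h1]
        have h2 := hVb k h1 h0
        have h3 := hpt k h1 h0
        have h4 : (1 : ℝ) ≤ k := by exact_mod_cast Nat.one_le_iff_ne_zero.2 h0
        exact ⟨(hV k h1 h0).1, by nlinarith, by linarith⟩
      · rw [if_neg h1]
        exact ⟨hx, hwx, le_rfl⟩
  refine ⟨M + 1, fun k => if k = 0 then w else if k ≤ M then V k else x, by simp, by simp,
    fun k hk => hstep k hk _ rfl, fun k hk => ?_⟩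
  have hkM : k ≤ M := by omega
  dsimp only
  rw [if_neg (Nat.succ_ne_zero k)]
  by_cases h0 : k = 0
  · subst h0
    rw [if_pos rfl]
    by_cases h1 : 0 + 1 ≤ M
    · rw [if_pos h1]
      have h2 := hVb (0 + 1) h1 (Nat.succ_ne_zero 0)
      push_cast at h2
      constructor <;> linarith
    · rw [if_neg h1]
      obtain rfl : M = 0 := by omega
      push_cast at hM1
      constructor <;> linarith
  · rw [if_neg h0, if_pos hkM]
    have h2 := hVb k hkM h0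
    by_cases h1 : k + 1 ≤ M
    · rw [if_pos h1]
      have h3 := hVb (k + 1) h1 (Nat.succ_ne_zero k)
      push_cast at h3
      constructor <;> nlinarith
    · rw [if_neg h1]
      obtain rfl : M = k := by omega
      have h3 := hpt M le_rfl h0
      constructor <;> nlinarith

/-- **A ladder of windows with general slopes**: `φ` is the error of the levels and of the gaps, `Sb` a
bound of the slopes. -/
structure LdS {m : ℕ} (S : PCl m) (c : ℕ → Fin m) (r₀ r : ℕ) (sn : ℕ → ℝ → ℝ) (G : Set ℝ)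
    (b o φ : ℝ) (Sl : ℕ → ℝ) (Sb : ℝ) : Prop where
  tm : ∃ C₀, TmC S C₀
  rr : r₀ ≤ r
  ch : ∀ w ∈ G, b ≤ w → w ≤ o → ∃ (u₁ : ℝ) (rd : ℕ → ℝ), (∀ l, r₀ ≤ l → l < r → 0 ≤ rd l) ∧
    Chn S c r₀ r w w u₁ (fun l => sn l w) rd
  exr : ∀ w ∈ G, b ≤ w → w ≤ o → ∀ (j : ℕ) (N : ℝ),
    Exs S (qJet m ((range r).image c) (c r) j w (sn r w) N)
  b0 : 0 ≤ b
  o1 : o < 1
  φ0 : 0 < φ
  gap : ∀ x, b ≤ x → x ≤ o → ∃ v ∈ G, |v - x| ≤ φ
  sl : ∀ i, r₀ ≤ i → i ≤ r → ∀ v ∈ G, ∀ v' ∈ G, b ≤ v → v ≤ v' → v' ≤ o →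
    |sn i v' - sn i v - Sl i * (v' - v)| ≤ φ
  S1 : ∀ i, r₀ ≤ i → i ≤ r → 1 ≤ Sl i ∧ Sl i ≤ Sb

namespace LdS

variable {m : ℕ} {S : PCl m} {c : ℕ → Fin m} {r₀ r : ℕ} {sn : ℕ → ℝ → ℝ} {G : Set ℝ}
  {b o φ Sb : ℝ} {Sl : ℕ → ℝ}

/-- The heights of all places exist. -/
theorem exs (L : LdS S c r₀ r sn G b o φ Sl Sb) {w : ℝ} (hw : w ∈ G) (hbw : b ≤ w) (hwo : w ≤ o)
    {i : ℕ} (h0 : r₀ ≤ i) (h1 : i ≤ r) (j : ℕ) (N : ℝ) :
    Exs S (qJet m ((range i).image c) (c i) j w (sn i w) N) := by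
  rcases Nat.lt_or_ge i r with h | h
  · obtain ⟨u₁, rd, hrd, hch⟩ := L.ch w hw hbw hwo
    exact exs_jet (hrd i h0 h) (hch.att i h0 h)
  · obtain rfl : i = r := by omega
    exact L.exr w hw hbw hwo j N

/-- A part of the chain. -/
theorem take (L : LdS S c r₀ r sn G b o φ Sl Sb) {i : ℕ} (h0 : r₀ ≤ i) (h1 : i ≤ r) :
    LdS S c r₀ i sn G b o φ Sl Sb where
  tm := L.tm
  rr := h0
  ch := fun w hw hbw hwo => by
    obtain ⟨u₁, rd, hrd, hch⟩ := L.ch w hw hbw hwo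
    exact ⟨u₁, rd, fun l x y => hrd l x (by omega), hch.take h0 h1⟩
  exr := fun w hw hbw hwo j N => L.exs hw hbw hwo h0 h1 j N
  b0 := L.b0
  o1 := L.o1
  φ0 := L.φ0
  gap := L.gap
  sl := fun i' x y => L.sl i' x (by omega)
  S1 := fun i' x y => L.S1 i' x (by omega)

theorem up (L : LdS S c r₀ r sn G b o φ Sl Sb) {i : ℕ} (h0 : r₀ ≤ i) (h1 : i ≤ r) {v v' : ℝ}
    (hv : v ∈ G) (hv' : v' ∈ G) (hbv : b ≤ v) (hvv : v ≤ v') (hvo : v' ≤ o) :
    sn i v + Sl i * (v' - v) - φ ≤ sn i v' ∧ sn i v' ≤ sn i v + Sl i * (v' - v) + φ := by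
  have := abs_le.1 (L.sl i h0 h1 v hv v' hv' hbv hvv hvo)
  constructor <;> linarith

end LdS

end Pool.CDX
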