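import Pool.Agent.H71.CDX.Cdb

/-!
# All jets of the target from the record of a later window

`jt_F1`: all jets of the target over labels of the window `w` of precision `≥ sn r w - φ`, from the
record of a later window `x` and from the jets of the chain over labels of `w`. `jt_cdC`: the codes.
-/

set_option autoImplicit false

namespace Pool.CDX

open Finset Real MvPolynomial
open Pool.Agent.H49.Ent Pool.Agent.H32.Dense Pool.STK Pool.KA Pool.KSAT Pool.K2S Pool.PB Pool.GEN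
open Pool.S6C Pool.RCD Pool.LA91 Pool.OWN68 Pool.CHT
open Pool.GRD (LbP)
open Pool.AJW (CfB ctx TgtN TwoN two_jets_r cod_Fj_p)
open Pool.AJX (LbX FwX MshX ctxK_few)

/-- **The context of the chain** at the window `w` from the jets over rough labels of `w`. -/
theorem rgh_ctx {m : ℕ} {S : PCl m} {C₀ : ℝ} (htm : TmC S C₀) {c : ℕ → Fin m} {r₀ r : ℕ}
    {w u₁ lam σ φ a : ℝ} {E s rw n rd lv pq : ℕ → ℝ} (hch : Chn S c r₀ r w w u₁ s rw)
    (hE : ∀ i, r₀ ≤ i → i < r → E i ≤ 1) (hrd : ∀ i, r₀ ≤ i → i < r → 0 ≤ rd i)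
    (hwa : w ≤ a) (ha : a ≤ 1) (hlam : 0 < lam) (hl1 : w + lam ≤ 1) (hφ0 : 0 ≤ φ) (hφ : φ < σ)
    (hpq : ∀ l, r₀ ≤ l → l < r → s l - φ ≤ pq l) (hlv : ∀ l, r₀ ≤ l → l < r → 0 < lv l)
    (h1 : ∀ l, r₀ ≤ l → l < r → s l + lv l + σ ≤ n l)
    (h2 : ∀ l, r₀ ≤ l → l < r → lv l + σ ≤ lam)
    (h3 : ∀ l, r₀ ≤ l → l < r → ∀ l', r₀ ≤ l' → l' < l → lv l + σ ≤ lv l')
    (h4 : ∀ l, r₀ ≤ l → l < r → n l + σ ≤ s l + lam)
    (h5 : ∀ l, r₀ ≤ l → l < r → ∀ l', r₀ ≤ l' → l' < l → n l + σ ≤ s l + lv l')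
    {α γ : ∀ J : ℕ, Fam m J → Type}
    {f : ∀ (J : ℕ) (F : Fam m J), F.Ω → α J F} {y : ∀ (J : ℕ) (F : Fam m J), F.Ω → γ J F}
    (hf : ∀ (J : ℕ) (F : Fam m J), ∃ φ : α J F → PtT F, ∀ ω, ptr F J ω = φ (f J F ω))
    (hy : Kn ((range r₀).image c) (w + lam) lam y) {K R : ℕ} (hR : r ≤ R) {δ : ℝ} (hδ : 0 < δ)
    {e : ℝ} (he : 0 < e) (hle : e ≤ (σ - φ) / 8) :
    FwX S f (vg a) y (qJets m c r₀ r (K + 2) (fun _ _ => w) (fun l _ => pq l)
      (fun l j' => n l - (j' : ℕ) * w)) c r₀ R K E w rd s (ctx c r₀ r K w lam n) e δ := by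
  intro K₀
  refine ctxK_few htm hE hch.w0 hwa ha hlam.le he hrd hy K
    (η := fun _ _ => δ / 2 / ((r + 1) * (K + 3))) (δ₁ := δ / 2) ?_
    (fun l x y' j hj => ?_) (by linarith) K₀ R hR
  · have hr0 : (0 : ℝ) ≤ r := Nat.cast_nonneg r
    rw [Finset.sum_const, Finset.sum_const, Nat.card_Ico, Finset.card_range, nsmul_eq_mul,
      nsmul_eq_mul]
    have h2 : ((r - r₀ : ℕ) : ℝ) ≤ r + 1 := by
      have : ((r - r₀ : ℕ) : ℝ) ≤ r := by exact_mod_cast Nat.sub_le r r₀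
      linarith
    push_cast
    have h6 : (0 : ℝ) ≤ (K + 3) * (δ / 2 / ((r + 1) * (K + 3))) := by positivity
    calc ((r - r₀ : ℕ) : ℝ) * ((K + 3) * (δ / 2 / ((r + 1) * (K + 3)))) ≤
          (r + 1) * ((K + 3) * (δ / 2 / ((r + 1) * (K + 3)))) :=
          mul_le_mul_of_nonneg_right h2 h6
      _ = δ / 2 := by
          have : (0 : ℝ) < (r + 1) * (K + 3) := by positivity
          field_simp
  · exact (two_jets_r htm hch hwa ha hlam hl1 hφ0 hφ hpq (fun _ _ _ => by linarith) hlv h1 h2 h3 h4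
      h5 hf hy x y' (by omega : j ≤ K + 2) (by positivity)).mono hle le_rfl

/-- **All jets of the target** over labels of the window `w`. -/
theorem jt_F1 (K : ℕ) {h : ℝ} (hh : 0 < h) (hh1 : h ≤ 1) {ε : ℝ} (hε : 0 < ε) (r : ℕ) :
    ∃ δ : ℝ, 0 < δ ∧
    ∀ {m : ℕ} {S : PCl m} {c : ℕ → Fin m} {r₀ : ℕ} {sn : ℕ → ℝ → ℝ} {G : Set ℝ} {b o φ Sb : ℝ}
      {Sl : ℕ → ℝ}, LdS S c r₀ r sn G b o φ Sl Sb → ∀ {α γ : ∀ J : ℕ, Fam m J → Type}
    {f : ∀ (J : ℕ) (F : Fam m J), F.Ω → α J F} {y : ∀ (J : ℕ) (F : Fam m J), F.Ω → γ J F},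
    (∀ (J : ℕ) (F : Fam m J), ∃ χ : α J F → PtT F, ∀ ω, ptr F J ω = χ (f J F ω)) →
    ∀ {w x a Ub q g₀ : ℝ} {n E rd pq : ℕ → ℝ}, Kn ((range r₀).image c) Ub (Ub - w) y →
    w ∈ G → x ∈ G → b ≤ w → w ≤ x → x ≤ o → x ≤ a → a ≤ 1 → x < Ub → Ub < 1 → 0 < q → 0 < g₀ →
    0 ≤ sn r w → sn r w + q + E r + g₀ ≤ 1 → w + q ≤ 1 →
    (∀ i, r₀ ≤ i → i ≤ r → 0 ≤ E i ∧ E i ≤ 1) → (∀ i, r₀ ≤ i → i ≤ r → 0 ≤ rd i ∧ rd i + g₀ ≤ 1) →
    (∀ i, r₀ ≤ i → i < r → n i + E i + g₀ ≤ 1) →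
    (∀ i, r₀ ≤ i → i < r → sn i w - φ ≤ pq i) →
    (∀ i, r₀ ≤ i → i < r → sn i x + 20 * Sb * φ ≤ n i) →
    (∀ i, r₀ ≤ i → i < r → n i + 20 * Sb * φ ≤ sn i w + (Ub - w)) →
    (∀ i, r₀ ≤ i → i < r → ∀ l, r₀ ≤ l → l < i →
      n i - sn i w + max 0 (Sl l - Sl i) * (x - w) + 20 * Sb * φ ≤ n l - sn l w) →
    (∀ i, r₀ ≤ i → i < r →
      q + max 0 (Sl i - Sl r) * (x - w) + 20 * Sb * φ ≤ n i - sn i w) →
    sn r w + q + 20 * Sb * φ ≤ sn r x → q + 20 * Sb * φ ≤ Ub - w →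
    (r : ℝ) * φ ≤ δ * q →
    (∀ q' : ℝ, 0 ≤ q' → q' ≤ q →
      RawN S ((range r).image c) (c r) (sn r w) q' h (δ * q)) →
    (∀ e : ℝ, 0 < e → Bas S (fun J F A => ∃ (V : Type) (z : PtT F → V) (z' : LnT F → V)
      (g : V → ℕ → MvPolynomial (Option (Fin m)) ℝ),
      LbX F c r₀ (r + 1) K e E w rd (fun l => sn l w) A z z' g)) →
    ∃ e₀ : ℝ, 0 < e₀ ∧ ∀ e : ℝ, 0 < e → e ≤ e₀ → ∀ (Jm : ℕ) (Pt : ℝ), sn r w - φ ≤ Pt →
      F1 S f (vg a) y (qJets m c r₀ r (K + 2) (fun _ _ => w) (fun l _ => pq l)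
        (fun l j' => n l - (j' : ℕ) * w)) (qJets m c r (r + 1) Jm (fun _ _ => w)
        (fun _ _ => Pt) (fun _ j => sn r w + q - (j : ℕ) * w)) e (ε * q) := by
  obtain ⟨δ, hδ, H⟩ := Pool.AJX.jt_Q K hh hh1 (ε := ε) hε
  refine ⟨δ, hδ, ?_⟩
  intro m S c r₀ sn G b o φ Sb Sl L α γ f y hf w x a Ub q g₀ n E rd pq hy hw hx hbw hwx hxo hxa ha1
    hxU hU1 hq hg₀ hs0 hs1 hwq hE hrd hn1 hpq hnx hnU hnn hnq hqx hqU hφδ hraw hlb
  obtain ⟨C₀, htm⟩ := L.tm
  have hφ := L.φ0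
  obtain ⟨hSr, hSb⟩ := L.S1 r L.rr le_rfl
  have hSb1 : 1 ≤ Sb := hSr.trans hSb
  have hSφ : φ ≤ Sb * φ := by nlinarith
  obtain ⟨M, B, hB0, hBM, hBG, hBs⟩ := gap_mesh hφ L.gap hw hx hbw hwx hxo
  have hw0 : 0 ≤ w := L.b0.trans hbw
  have hwo : w ≤ o := hwx.trans hxo
  -- the mesh and the levels
  have u1 : ∀ i, r₀ ≤ i → i ≤ r → ∀ k ≤ M, sn i w + Sl i * (B k - w) - φ ≤ sn i (B k) ∧
      sn i (B k) ≤ sn i w + Sl i * (B k - w) + φ := fun i h0 h1 k hk => by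
    obtain ⟨h2, h3, h4⟩ := hBG k hk
    exact L.up h0 h1 hw h2 hbw h3 (h4.trans hxo)
  have ux : ∀ i, r₀ ≤ i → i ≤ r → sn i w + Sl i * (x - w) - φ ≤ sn i x ∧
      sn i x ≤ sn i w + Sl i * (x - w) + φ := fun i h0 h1 => L.up h0 h1 hw hx hbw hwx hxo
  have hS : ∀ i, r₀ ≤ i → i ≤ r → ∀ t : ℝ, 0 ≤ t → t ≤ Sl i * t := fun i h0 h1 t ht => by
    have := mul_le_mul_of_nonneg_right (L.S1 i h0 h1).1 ht
    linarith
  have hS4 : ∀ i, r₀ ≤ i → i ≤ r → ∀ k < M, Sl i * (B (k + 1) - w) ≤ Sl i * (B k - w) + 4 * (Sb * φ) :=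
    fun i h0 h1 k hk => by
      obtain ⟨h2, h3⟩ := L.S1 i h0 h1
      have e1 : Sl i * (B (k + 1) - B k) ≤ Sl i * (4 * φ) :=
        mul_le_mul_of_nonneg_left (by linarith [(hBs k hk).2]) (by linarith)
      have e2 : Sl i * (4 * φ) ≤ Sb * (4 * φ) := mul_le_mul_of_nonneg_right h3 (by positivity)
      nlinarith
  have hSm : ∀ i, r₀ ≤ i → i ≤ r → ∀ k < M, Sl i * (B k - w) ≤ Sl i * (B (k + 1) - w) :=
    fun i h0 h1 k hk => mul_le_mul_of_nonneg_left (by linarith [(hBs k hk).1])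
      (by linarith [(L.S1 i h0 h1).1])
  -- the difference of two slopes
  have hdf : ∀ i l : ℕ, ∀ k ≤ M, (Sl l - Sl i) * (B k - w) ≤ max 0 (Sl l - Sl i) * (x - w) :=
    fun i l k hk => by
      obtain ⟨h2, h3, h4⟩ := hBG k hk
      calc (Sl l - Sl i) * (B k - w) ≤ max 0 (Sl l - Sl i) * (B k - w) :=
            mul_le_mul_of_nonneg_right (le_max_right _ _) (by linarith)
        _ ≤ max 0 (Sl l - Sl i) * (x - w) :=
            mul_le_mul_of_nonneg_left (by linarith) (le_max_left _ _)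
  have HM : MshX S c r₀ r B M sn n n Ub φ := by
    constructor
    · exact L.rr
    · exact hφ
    · rw [hB0]; exact hw0
    · exact fun k hk => (hBs k hk).1
    · rw [hBM]; exact hxU
    · exact hU1.le
    · intro k hk
      obtain ⟨h2, h3, h4⟩ := hBG k hk
      obtain ⟨u₁, rv, hrv, hcv⟩ := L.ch (B k) h2 (hbw.trans h3) (h4.trans hxo)
      exact ⟨u₁, rv, hcv, hrv⟩
    · intro k hk i h0 h1 N
      obtain ⟨h2, h3, h4⟩ := hBG k hk
      exact L.exs h2 (hbw.trans h3) (h4.trans hxo) h0 h1 0 N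
    · exact fun l _ _ => le_rfl
    · intro k hk l h0 h1
      obtain ⟨h2, h3, h4⟩ := hBG k hk
      have e1 := (u1 l h0 h1.le k hk).2
      have e2 := (ux l h0 h1.le).1
      have e3 : Sl l * (B k - w) ≤ Sl l * (x - w) :=
        mul_le_mul_of_nonneg_left (by linarith) (by linarith [(L.S1 l h0 h1.le).1])
      have e4 := hnx l h0 h1
      linarith
    · intro k hk l h0 h1
      obtain ⟨h2, h3, h4⟩ := hBG k hk
      have e1 := (u1 l h0 h1.le k hk).1
      have e2 := hS l h0 h1.le (B k - w) (by linarith)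
      have e3 := hnU l h0 h1
      linarith
    · intro k hk l h0 h1 l' h0' h1'
      have e1 := (u1 l h0 h1.le k hk).1
      have e2 := (u1 l' h0' (by omega) k hk).2
      have e3 := hdf l l' k hk
      have e4 := hnn l h0 h1 l' h0' h1'
      have e5 : (Sl l' - Sl l) * (B k - w) = Sl l' * (B k - w) - Sl l * (B k - w) := by ring
      linarith
    · intro k hk l h0 h1
      obtain ⟨h2, h3, h4⟩ := hBG k hk.le
      obtain ⟨h5, h6, h7⟩ := hBG (k + 1) hk
      obtain ⟨h8, h9⟩ := hBs k hk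
      have e1 := (u1 l h0 h1.le k hk.le).1
      have e2 := (u1 l h0 h1.le (k + 1) hk).1
      have e3 := hS l h0 h1.le (B k - w) (by linarith)
      have e4 := hS l h0 h1.le (B (k + 1) - w) (by linarith)
      have e5 := hnU l h0 h1
      have : n l + φ - (Ub - B (k + 1)) ≤ min (sn l (B k)) (sn l (B (k + 1))) :=
        le_min (by linarith) (by linarith)
      linarith
    · intro k hk l h0 h1 l' h0' h1'
      have e1 := (u1 l h0 h1.le k hk.le).1
      have e2 := (u1 l h0 h1.le (k + 1) hk).1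
      have e3 := (u1 l' h0' (by omega) (k + 1) hk).2
      have e4 := hdf l l' (k + 1) hk
      have e5 := hnn l h0 h1 l' h0' h1'
      have e6 := hS4 l h0 h1.le k hk
      have e7 := hSm l h0 h1.le k hk
      have e8 : (Sl l' - Sl l) * (B (k + 1) - w) =
        Sl l' * (B (k + 1) - w) - Sl l * (B (k + 1) - w) := by ring
      have : n l + 2 * φ - (n l' - sn l' (B (k + 1))) ≤ min (sn l (B k)) (sn l (B (k + 1))) :=
        le_min (by linarith) (by linarith)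
      linarith
  have hN : ∀ i, r₀ ≤ i → i < r →
      TgtN r₀ i B M sn n Ub φ (sn i x - φ) ∧ sn i x - φ ≤ n i := by
    intro i h0 h1
    have g1 := (ux i h0 h1.le).2
    have g2 := hnx i h0 h1
    have g3 := hnU i h0 h1
    refine ⟨⟨?_, fun k hk => ?_, fun k hk l h0' h1' => ?_⟩, by linarith⟩
    · rw [hBM]; linarith
    · obtain ⟨h2, h3, h4⟩ := hBG k hk.le
      obtain ⟨h5, h6, h7⟩ := hBG (k + 1) hk
      obtain ⟨h8, h9⟩ := hBs k hk
      have e1 := (u1 i h0 h1.le k hk.le).1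
      have e2 := (u1 i h0 h1.le (k + 1) hk).1
      have e3 := hS i h0 h1.le (B k - w) (by linarith)
      have e4 := hS i h0 h1.le (B (k + 1) - w) (by linarith)
      have : sn i x - φ + φ - (Ub - B (k + 1)) ≤ min (sn i (B k)) (sn i (B (k + 1))) :=
        le_min (by linarith) (by linarith)
      linarith
    · have hlr : l < r := by omega
      obtain ⟨h2, h3, h4⟩ := hBG k hk.le
      obtain ⟨h5, h6, h7⟩ := hBG (k + 1) hk
      obtain ⟨h8, h9⟩ := hBs k hk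
      have e1 := (u1 i h0 h1.le k hk.le).1
      have e2 := (u1 i h0 h1.le (k + 1) hk).1
      have e3 := (u1 l h0' hlr.le (k + 1) hk).2
      have e4 := hnn i h0 h1 l h0' h1'
      have e5 := hS4 i h0 h1.le k hk
      have e6 := (ux i h0 h1.le).1
      -- the worst case is the largest slope
      have e7 : Sl i * (x - w) + Sl l * (B (k + 1) - w) - Sl i * (B (k + 1) - w) ≤
          Sl i * (x - w) + max 0 (Sl l - Sl i) * (x - w) := by
        have := hdf i l (k + 1) hk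
        have e8 : (Sl l - Sl i) * (B (k + 1) - w) =
          Sl l * (B (k + 1) - w) - Sl i * (B (k + 1) - w) := by ring
        linarith
      have e9 := hSm i h0 h1.le k hk
      have : sn i x - φ + 2 * φ - (n l - sn l (B (k + 1))) ≤
          min (sn i (B k)) (sn i (B (k + 1))) := le_min (by linarith) (by linarith)
      linarith
  have hNr : TgtN r₀ r B M sn n Ub φ (sn r (B 0) + q) := by
    rw [hB0]
    refine ⟨?_, fun k hk => ?_, fun k hk l h0' h1' => ?_⟩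
    · rw [hBM]; linarith
    · obtain ⟨h2, h3, h4⟩ := hBG k hk.le
      obtain ⟨h5, h6, h7⟩ := hBG (k + 1) hk
      obtain ⟨h8, h9⟩ := hBs k hk
      have e1 := (u1 r L.rr le_rfl k hk.le).1
      have e2 := (u1 r L.rr le_rfl (k + 1) hk).1
      have e3 := hS r L.rr le_rfl (B k - w) (by linarith)
      have e4 := hS r L.rr le_rfl (B (k + 1) - w) (by linarith)
      have : sn r w + q + φ - (Ub - B (k + 1)) ≤ min (sn r (B k)) (sn r (B (k + 1))) :=
        le_min (by linarith) (by linarith)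
      linarith
    · have e1 := (u1 r L.rr le_rfl k hk.le).1
      have e2 := (u1 r L.rr le_rfl (k + 1) hk).1
      have e3 := (u1 l h0' h1'.le (k + 1) hk).2
      have e4 := hdf r l (k + 1) hk
      have e5 := hnq l h0' h1'
      have e6 := hS4 r L.rr le_rfl k hk
      have e7 := hSm r L.rr le_rfl k hk
      have e8 : (Sl l - Sl r) * (B (k + 1) - w) =
        Sl l * (B (k + 1) - w) - Sl r * (B (k + 1) - w) := by ring
      have : sn r w + q + 2 * φ - (n l - sn l (B (k + 1))) ≤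
          min (sn r (B k)) (sn r (B (k + 1))) := le_min (by linarith) (by linarith)
      linarith
  have hsum : ∑ i ∈ Finset.Ico r₀ r, (sn i (B M) - (sn i x - φ)) ≤ δ * q := by
    rw [hBM]
    have e1 : ∑ i ∈ Finset.Ico r₀ r, (sn i x - (sn i x - φ)) = ((r - r₀ : ℕ) : ℝ) * φ := by
      rw [Finset.sum_congr rfl fun i _ => (by ring : sn i x - (sn i x - φ) = φ),
        Finset.sum_const, Nat.card_Ico, nsmul_eq_mul]
    rw [e1]
    refine le_trans (mul_le_mul_of_nonneg_right ?_ hφ.le) hφδ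
    exact_mod_cast Nat.sub_le r r₀
  have hmx : ∀ i l : ℕ, 0 ≤ max 0 (Sl l - Sl i) * (x - w) := fun i l =>
    mul_nonneg (le_max_left _ _) (by linarith)
  have HT : TwoN r₀ r (B 0) Ub (5 * φ) (fun l => sn l (B 0)) n
      (fun l => n l - sn l w - 10 * φ) := by
    rw [hB0]
    refine ⟨by positivity, fun l h0 h1 => ?_, fun l h0 h1 => ?_, fun l h0 h1 => ?_,
      fun l h0 h1 l' h0' h1' => ?_, fun l h0 h1 => ?_, fun l h0 h1 l' h0' h1' => ?_⟩
    · show 0 < n l - sn l w - 10 * φ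
      linarith [hnq l h0 h1, hmx r l]
    · show sn l w + (n l - sn l w - 10 * φ) + 5 * φ ≤ n l
      linarith
    · show n l - sn l w - 10 * φ + 5 * φ ≤ Ub - w
      linarith [hnU l h0 h1]
    · show n l - sn l w - 10 * φ + 5 * φ ≤ n l' - sn l' w - 10 * φ
      linarith [hnn l h0 h1 l' h0' h1', hmx l l']
    · show n l + 5 * φ ≤ sn l w + (Ub - w)
      linarith [hnU l h0 h1]
    · show n l + 5 * φ ≤ sn l w + (n l' - sn l' w - 10 * φ)
      linarith [hnn l h0 h1 l' h0' h1', hmx l l']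
  have hδq : 0 < δ * q := by positivity
  obtain ⟨u₁, rw₀, hrw₀, hch⟩ := L.ch w hw hbw hwo
  obtain ⟨e₀, he₀, -, HP⟩ := H htm HM (q := q) (g₀ := g₀) (E := E) (rd := rd)
    (N := fun i => sn i x - φ) hE hq (by rw [hB0]; exact hs0) hg₀
    (by rw [hB0]; exact hs1) hrd hn1 hU1
    (by rw [hB0]; exact hwq) hN hNr hsum HT hφ.le (by linarith)
    (by rw [hB0]; linarith) (fun l h0 h1 => by
      show q + 5 * φ ≤ n l - sn l w - 10 * φ
      linarith [hnq l h0 h1, hmx r l])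
    (Qu := qJets m c r₀ r (K + 2) (fun _ _ => w) (fun l _ => pq l)
        (fun l j' => n l - (j' : ℕ) * w)) (f := f) (y := y) (a := a)
    (e₁ := (5 * φ - φ) / 8) hf (by rw [hB0]; exact hy) (by rw [hBM]; exact hxa) ha1 (by linarith)
    (by
      rw [hB0]
      intro e he hle
      have e3 : w + (Ub - w) = Ub := by ring
      exact rgh_ctx htm hch (fun i x y => (hE i x y.le).2) (fun i x y => (hrd i x y.le).1)
        (hwx.trans hxa) ha1 (by linarith) (by linarith) hφ.le (by linarith) hpq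
        (by have := HT.lv0; exact this) (by have := HT.h1; rw [hB0] at this; exact this)
        (by have := HT.h2; rw [hB0] at this; exact this) HT.h3
        (by have := HT.h4; rw [hB0] at this; exact this)
        (by have := HT.h5; rw [hB0] at this; exact this) hf (by rw [e3]; exact hy)
        (Nat.le_succ r) hδq he hle)
    (by rw [hB0]; exact hraw)
    (by rw [hB0]; exact hlb)
  refine ⟨e₀, he₀, fun e he hle Jm Pt hPt => ?_⟩
  have h1 := HP e he hle Jm Pt (by rw [hB0]; exact hPt)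
  rw [hB0] at h1
  exact h1

end Pool.CDX
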