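import Pool.Agent.H71.CDX.Cdc

/-!
# The jets of the target over a finer window, order by order

`jet_F1x`: the jets of order `≥ 1` of the target over labels of the window `w`, from a context of the
chain over labels of an earlier window `v`.
-/

set_option autoImplicit false

namespace Pool.CDX

open Finset Real MvPolynomial
open Pool.Agent.H49.Ent Pool.Agent.H32.Dense Pool.STK Pool.KA Pool.KSAT Pool.K2S Pool.PB Pool.GEN
open Pool.S6C Pool.RCD Pool.LA91 Pool.OWN68 Pool.CHT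
open Pool.GRD (LbP)
open Pool.AJW (CfB ctx)
open Pool.AJX (JetX LbX FwX jet_wc)

/-- **The jets of the target over the finer window `w`**, one order at a time, labels of any
precision and complexity. -/
theorem jet_F1x (K : ℕ) {h : ℝ} (hh : 0 < h) (hh1 : h ≤ 1) {ε : ℝ}
    (hε : 0 < ε) : ∃ δ : ℝ, 0 < δ ∧ ∀ {m : ℕ} {S : PCl m} {C₀ : ℝ} (_ : TmC S C₀)
    {c : ℕ → Fin m} {r₀ r : ℕ} {v w lam q ρ g₀ : ℝ} {E p s n lv rd : ℕ → ℝ}
    (_ : JetX S c r₀ r v w lam q ρ g₀ E p s n lv rd K) (_ : (r + 1) * ρ ≤ δ * q)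
    (_ : ∀ (j : ℕ) (N : ℝ), Exs S (qJet m ((range r).image c) (c r) j w (s r) N))
    {U₀ : Type} {Qu : Qt m U₀} {α γ : ∀ J : ℕ, Fam m J → Type}
    {f : ∀ (J : ℕ) (F : Fam m J), F.Ω → α J F} {y : ∀ (J : ℕ) (F : Fam m J), F.Ω → γ J F}
    (_ : ∀ (J : ℕ) (F : Fam m J), ∃ φ : α J F → PtT F, ∀ ω, ptr F J ω = φ (f J F ω))
    (_ : Kn ((range r₀).image c) (v + lam) lam y) {a e₁ : ℝ} (_ : w ≤ a) (_ : a ≤ 1)
    (_ : 0 < e₁) (_ : ∀ e : ℝ, 0 < e → e ≤ e₁ →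
      FwX S f (vg a) y Qu c r₀ (r + 1) K E v rd p (ctx c r₀ r K v lam n) e (δ * q))
    (_ : ∀ q' : ℝ, 0 ≤ q' → q' ≤ q → RawN S ((range r).image c) (c r) (p r) q' h (δ * q))
    (_ : ∀ e : ℝ, 0 < e → Bas S (fun J F A => ∃ (V : Type) (z : PtT F → V) (z' : LnT F → V)
      (g : V → ℕ → MvPolynomial (Option (Fin m)) ℝ), LbX F c r₀ (r + 1) K e E v rd p A z z' g)),
    ∃ e₀ : ℝ, 0 < e₀ ∧ e₀ ≤ e₁ ∧ ∀ e : ℝ, 0 < e → e ≤ e₀ → ∀ j < K + 2, ∀ P₂ : ℝ, p r ≤ P₂ →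
      F1 S f (vg a) y Qu (qJet m ((range r).image c) (c r) (j + 1) w P₂
        (p r + q - (j + 1 : ℕ) * v)) e (ε * q) := by
  classical
  obtain ⟨δ, hδ, H⟩ := jet_wc K hh hh1 (ε := ε) hε
  refine ⟨δ, hδ, ?_⟩
  intro m S C₀ htm c r₀ r v w lam q ρ g₀ E p s n lv rd HW hρδ hex U₀ Qu α γ f y hf hy a e₁ hwa ha
    he₁ hctx hraw hlb
  obtain ⟨e₀, he₀, he₀1, HP⟩ := H htm HW hρδ hf hy hwa ha he₁ hctx hraw
  refine ⟨e₀, he₀, he₀1, fun e he hle j hj P₂ hP₂ K₀ => ?_⟩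
  have hps : p r ≤ s r := by linarith [HW.val, HW.q0, HW.ρ0]
  choose KR MR hcR using fun i : ℕ => hex (i + 1) (p r + q - ((i + 1 : ℕ) : ℝ) * v) e he
  obtain ⟨K₁, hK₁⟩ : ∃ K₁ : ℕ, K₁ = K₀ + ∑ i ∈ range (K + 2), KR i := ⟨_, rfl⟩
  refine Bas.mono 0 (((HP e he hle).2 K₁ (min P₂ (s r)) (le_min hP₂ hps)).and
    ((hlb e he).and ((Bas.all (K + 2) fun i _ => hcR i).and (Pool.GRW.tmc_bas htm one_pos)))) ?_
  rintro J - F A ⟨HPA, ⟨V', zz, zz', gg, hlbv⟩, hxs, hA, -⟩ u u' hu hu'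
  have hxs' : ∀ i : ℕ, ∃ v' : F.Ω → ℤ, i < K + 2 →
      (qJet m ((range r).image c) (c r) (i + 1) w (s r)
        (p r + q - ((i + 1 : ℕ) : ℝ) * v)).P (KR i) e J F A v' := fun i => by
    by_cases hi : i < K + 2
    · obtain ⟨v', h1, -⟩ := hxs i hi
      exact ⟨v', fun _ => h1⟩
    · exact ⟨fun _ => 0, fun h => absurd h hi⟩
  choose vv hvv using hxs'
  obtain ⟨uu, huu⟩ : ∃ uu : F.Ω → Fin (K + 2) → ℤ, uu = fun ω (i : Fin (K + 2)) =>
    if (i : ℕ) = j then u' ω else vv i ω := ⟨_, rfl⟩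
  obtain ⟨V₁, z₁, hz₁, h1⟩ := HPA V' zz zz' gg hlbv u
    (Qu.mono (by omega) le_rfl hu) uu (fun i => by
      by_cases hij : (i : ℕ) = j
      · have e1 : (fun ω => uu ω i) = u' := by
          funext ω
          rw [huu]
          exact if_pos hij
        rw [e1, hij]
        obtain ⟨hc, V, z, z', G, hl, hu2⟩ := hu'
        refine ⟨hc.trans (Real.exp_le_exp.2 (mul_le_mul_of_nonneg_right ?_ (Nat.cast_nonneg J))),
          V, z, z', G, hl.mono (Finset.Subset.refl _) (by omega) (Nat.floor_le_floor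
            (mul_le_mul_of_nonneg_right (by linarith [min_le_left P₂ (s r)])
              (Nat.cast_nonneg J))), hu2⟩
        exact_mod_cast (by omega : K₀ ≤ K₁)
      · have e1 : (fun ω => uu ω i) = vv i := by
          funext ω
          rw [huu]
          exact if_neg hij
        rw [e1]
        have hi2 := i.2
        have hMi : KR i ≤ ∑ i ∈ range (K + 2), KR i :=
          Finset.single_le_sum (f := KR) (fun i _ => Nat.zero_le _) (Finset.mem_range.2 hi2)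
        obtain ⟨hc, V, z, z', G, hl, hu2⟩ := hvv i i.2
        refine ⟨hc.trans (Real.exp_le_exp.2 (mul_le_mul_of_nonneg_right ?_ (Nat.cast_nonneg J))),
          V, z, z', G, hl.mono (Finset.Subset.refl _) (by omega) (Nat.floor_le_floor
            (mul_le_mul_of_nonneg_right (by linarith [min_le_right P₂ (s r)])
              (Nat.cast_nonneg J))), hu2⟩
        exact_mod_cast (by omega : KR i ≤ K₁))
  have h0 := (isLaw_cond F.isLaw hA).nonneg
  refine ⟨V₁, z₁, hz₁, le_trans (CH_mono_left h0 fun ω ω' _ _ e => ?_) h1⟩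
  have e1 := congrFun (Prod.ext_iff.mp (Prod.ext_iff.mp e).1).2 ⟨j, hj⟩
  rw [huu] at e1
  simpa using e1

end Pool.CDX
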