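import Pool.Agent.H71.CDX.Cdd

/-!
# Jets of the places of a chain at two windows

`JO`: the jets of the places of a chain, up to the order `Jm`. `chg`: change of labels at the window `w`.
`JO.ones`: the orders `0` and `1`. `nat_src`: the orders `≥ 2` of a place which are natural at an
earlier window. `JO.dn`: the jets over labels of an earlier window. `JO.ctx`: the context.
-/

set_option autoImplicit false

namespace Pool.CDX

open Finset Real MvPolynomial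
open Pool.Agent.H49.Ent Pool.Agent.H32.Dense Pool.STK Pool.KA Pool.KSAT Pool.K2S Pool.PB Pool.GEN
open Pool.S6C Pool.RCD Pool.LA91 Pool.OWN68 Pool.CHT Pool.AVG96
open Pool.GRD (LbP)
open Pool.AJW (CfB ctx)
open Pool.AJX (JetX LbX FwX ctxK_few)

/-- **Nested digits** `N` at a window with the levels `s`, basic form. -/
structure DgB (r₀ r : ℕ) (s N : ℕ → ℝ) (L gp : ℝ) : Prop where
  lo : ∀ l, r₀ ≤ l → l < r → s l + 30 * gp ≤ N l
  hi : ∀ l, r₀ ≤ l → l < r → N l + 30 * gp ≤ s l + L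
  ne : ∀ l, r₀ ≤ l → l < r → ∀ l', r₀ ≤ l' → l' < l → N l - s l + 30 * gp ≤ N l' - s l'

/-- **Nested digits** with room for windows at the distance `D`. -/
structure DgN (r₀ r : ℕ) (s N Sl : ℕ → ℝ) (D L gp : ℝ) : Prop where
  lo : ∀ l, r₀ ≤ l → l < r → s l + 30 * gp ≤ N l
  hi : ∀ l, r₀ ≤ l → l < r → N l + (Sl l + 1) * D + 30 * gp ≤ s l + L
  ne : ∀ l, r₀ ≤ l → l < r → ∀ l', r₀ ≤ l' → l' < l →
    N l - s l + Sl l * D + 30 * gp ≤ N l' - s l'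

theorem DgB.take {r₀ r i : ℕ} {s N : ℕ → ℝ} {L gp : ℝ} (H : DgB r₀ r s N L gp) (hi : i ≤ r) :
    DgB r₀ i s N L gp :=
  ⟨fun l a b => H.lo l a (by omega), fun l a b => H.hi l a (by omega),
    fun l a b => H.ne l a (by omega)⟩

theorem DgN.take {r₀ r i : ℕ} {s N Sl : ℕ → ℝ} {D L gp : ℝ} (H : DgN r₀ r s N Sl D L gp)
    (hi : i ≤ r) : DgN r₀ i s N Sl D L gp :=
  ⟨fun l a b => H.lo l a (by omega), fun l a b => H.hi l a (by omega),
    fun l a b => H.ne l a (by omega)⟩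

/-- Less room. -/
theorem DgN.le {r₀ r : ℕ} {s N Sl : ℕ → ℝ} {D D' L gp : ℝ} (H : DgN r₀ r s N Sl D L gp)
    (hD : D' ≤ D) (hS : ∀ l, r₀ ≤ l → l < r → 0 ≤ Sl l) : DgN r₀ r s N Sl D' L gp :=
  ⟨H.lo, fun l a b => by
      have := mul_le_mul_of_nonneg_left hD (by linarith [hS l a b] : 0 ≤ Sl l + 1)
      linarith [H.hi l a b],
    fun l a b l' a' b' => by
      have := mul_le_mul_of_nonneg_left hD (hS l a b)
      linarith [H.ne l a b l' a' b']⟩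

theorem DgN.b {r₀ r : ℕ} {s N Sl : ℕ → ℝ} {D L gp : ℝ} (H : DgN r₀ r s N Sl D L gp) (hD : 0 ≤ D)
    (hS : ∀ l, r₀ ≤ l → l < r → 0 ≤ Sl l) : DgB r₀ r s N L gp :=
  ⟨H.lo, fun l a b => by nlinarith [H.hi l a b, mul_nonneg (hS l a b) hD],
    fun l a b l' a' b' => by linarith [H.ne l a b l' a' b', mul_nonneg (hS l a b) hD]⟩

section

variable {m : ℕ} {S : PCl m} {C₀ : ℝ} {U : Type} {α β γ : ∀ J : ℕ, Fam m J → Type}
  {f : ∀ (J : ℕ) (F : Fam m J), F.Ω → α J F} {g : ∀ (J : ℕ) (F : Fam m J), F.Ω → β J F}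
  {y : ∀ (J : ℕ) (F : Fam m J), F.Ω → γ J F} {c : ℕ → Fin m} {r₀ r : ℕ}

/-- **The jets of the places of a chain** up to the order `Jm`, over labels of precision `s l`, to
`Dg l j` digits. -/
def JO (S : PCl m) (f : ∀ (J : ℕ) (F : Fam m J), F.Ω → α J F)
    (g : ∀ (J : ℕ) (F : Fam m J), F.Ω → β J F) (y : ∀ (J : ℕ) (F : Fam m J), F.Ω → γ J F)
    (Q : Qt m U) (c : ℕ → Fin m) (r₀ r : ℕ) (w : ℝ) (s : ℕ → ℝ) (Dg : ℕ → ℕ → ℝ) (Jm : ℕ)
    (e η : ℝ) : Prop :=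
  ∀ l, r₀ ≤ l → l < r → ∀ j ≤ Jm, F1 S f g y Q
    (qJet m ((range l).image c) (c l) j w (s l) (Dg l j)) e η

theorem JO.mono {Q : Qt m U} {w : ℝ} {s : ℕ → ℝ} {Dg : ℕ → ℕ → ℝ} {Jm : ℕ} {e η e' η' : ℝ}
    (h : JO S f g y Q c r₀ r w s Dg Jm e η) (he : e' ≤ e) (hη : η ≤ η') :
    JO S f g y Q c r₀ r w s Dg Jm e' η' := fun l a b j hj => (h l a b j hj).mono he hη

/-- The jets up to the order `j` as one quantity. -/
theorem JO.qjets (htm : TmC S C₀) {Q : Qt m U} {w : ℝ} {s : ℕ → ℝ} {Dg : ℕ → ℕ → ℝ} {Jm : ℕ}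
    {e η : ℝ} (h : JO S f g y Q c r₀ r w s Dg Jm e η) (hη : 0 ≤ η) {i j : ℕ} (hi : i ≤ r)
    (hj : j ≤ Jm) : F1 S f g y Q (qJets m c r₀ i j (fun _ _ => w) (fun l _ => s l) Dg) e
      ((r * (Jm + 1) : ℕ) * η) := by
  refine (F1.qjets htm (Q := Q) (c := c) (r₀ := r₀) (r := i) (j := j) (w := fun _ _ => w)
    (p := fun l _ => s l) (N := Dg) hη fun l a b j' hj' =>
      h l a (by omega) j' (hj'.trans hj)).mono le_rfl ?_
  refine mul_le_mul_of_nonneg_right ?_ hη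
  exact_mod_cast Nat.mul_le_mul hi (by omega)

/-- **Change of labels** at the window `w`, of the place `i` over the places `< i`. -/
theorem chg (htm : TmC S C₀) {i : ℕ} {w u₁ lam gp : ℝ} {s rd N pv : ℕ → ℝ}
    (hch : Chn S c r₀ i w w u₁ s rd) (hlam : 0 < lam) (hl1 : w + lam ≤ 1) (hgp : 0 < gp)
    (H : DgB r₀ i s N lam gp) (hpv : ∀ l, r₀ ≤ l → l < i → s l - gp ≤ pv l)
    {Nv : ℕ → ℕ → ℝ} {j : ℕ} (hNv : ∀ l, r₀ ≤ l → l < i → ∀ j' ≤ j, N l ≤ Nv l j' + (j' : ℕ) * w)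
    {k : Fin m} {w₁ w₂ p₁ p₂ N₁ N₂ : ℝ} (hw₁ : w₁ ≤ w) (hw₂ : w₂ ≤ w) (hN : N₂ ≤ N₁)
    (h3 : N₂ + j * w + gp ≤ min p₁ p₂ + lam)
    (h3' : ∀ l, r₀ ≤ l → l < i → N₂ + j * w + 11 * gp ≤ min p₁ p₂ + (N l - s l))
    (hf : ∀ (J : ℕ) (F : Fam m J), ∃ φ : α J F → PtT F, ∀ ω, ptr F J ω = φ (f J F ω))
    (hy : Kn ((range r₀).image c) (w + lam) lam y) {h : ℝ} (hh : 0 < h) :
    F1 S f (vg w) y ((qJets m c r₀ i j (fun _ _ => w) (fun l _ => pv l) Nv).prod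
      (qJet m ((range i).image c) k j w₁ p₁ N₁)) (qJet m ((range i).image c) k j w₂ p₂ N₂)
      (gp / 8) h := by
  have hmin : min lam (w + lam - w) = lam := by
    have e1 : w + lam - w = lam := by ring
    rw [e1, min_self]
  refine jetN_F1 (y := y) (f := f) htm hch (k := k) (j := j)
    (lv := fun l => N l - s l - 10 * gp) (p₀ := w + lam) (lam := lam) (σ₀ := gp) (w₁ := w₁)
    (w₂ := w₂) (p₁ := p₁) (p₂ := p₂) (N₁ := N₁) (N₂ := N₂)
    (wv := fun _ _ => w) (pv := fun l _ => pv l) (Nv := Nv)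
    (fun _ _ _ _ _ => le_rfl) hw₁ hw₂ (by linarith) hl1 hlam hgp
    (fun l a b => by linarith [H.lo l a b])
    (fun l a b j' hj' => by linarith [hNv l a b j' hj'])
    (fun l a b j' _ => ?_) (fun l a b j' _ l' a' b' => ?_) hN ?_ (fun l a b => ?_) hf hy hh
  · rw [hmin]
    have : s l - gp ≤ min (pv l) (s l) := le_min (hpv l a b) (by linarith)
    linarith [H.hi l a b]
  · have : s l - gp ≤ min (pv l) (s l) := le_min (hpv l a b) (by linarith)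
    linarith [H.ne l a b l' a' b']
  · rw [hmin]
    exact h3
  · linarith [h3' l a b]

/-- A part of the jets. -/
theorem pull_qjets (htm : TmC S C₀) {U' : Type} {Q' : Qt m U'} {i R j J' : ℕ} (hi : i ≤ R)
    (hj : j ≤ J') {w p N : ℕ → ℕ → ℝ} {e η : ℝ}
    (h : F1 S f g y (qJets m c r₀ i j w p N) Q' e η) :
    F1 S f g y (qJets m c r₀ R J' w p N) Q' e η := by
  refine F1.pull htm (fun u => fun i' j' => if i' < i ∧ j' ≤ j then u i' j' else 0) ?_ h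
  rintro K e J F A u ⟨h1, h2⟩
  refine ⟨fun i' a b j' c' => ?_, fun ω hω i' j' h' => ?_⟩
  · simp only [if_pos (show i' < i ∧ j' ≤ j from ⟨b, c'⟩)]
    exact h1 i' a (by omega) j' (by omega)
  · show (if i' < i ∧ j' ≤ j then u ω i' j' else 0) = 0
    split_ifs with h3
    · exact h2 ω hω i' j' fun h4 => h' ⟨h4.1, h3.1, h3.2⟩
    · rfl

/-- A part of the jets with one more jet. -/
theorem pull_qjets1 (htm : TmC S C₀) {U' : Type} {Q' : Qt m U'} {i R j J' : ℕ} (h0 : r₀ ≤ i)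
    (hi : i < R) (hj : j ≤ J') {w p N : ℕ → ℕ → ℝ} {e η : ℝ}
    (h : F1 S f g y ((qJets m c r₀ i j w p N).prod
      (qJet m ((range i).image c) (c i) j (w i j) (p i j) (N i j))) Q' e η) :
    F1 S f g y (qJets m c r₀ R J' w p N) Q' e η := by
  refine F1.pull htm (fun u => ((fun i' j' => if i' < i ∧ j' ≤ j then u i' j' else 0), u i j)) ?_ h
  rintro K e J F A u ⟨h1, h2⟩
  refine ⟨⟨fun i' a b j' c' => ?_, fun ω hω i' j' h' => ?_⟩, ?_⟩
  · show (qJet m _ _ _ _ _ _).P K e J F A (fun ω => if i' < i ∧ j' ≤ j then u ω i' j' else 0)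
    simp only [if_pos (show i' < i ∧ j' ≤ j from ⟨b, c'⟩)]
    exact h1 i' a (by omega) j' (by omega)
  · show (if i' < i ∧ j' ≤ j then u ω i' j' else 0) = 0
    split_ifs with h3
    · exact h2 ω hω i' j' fun h4 => h' ⟨h4.1, h3.1, h3.2⟩
    · rfl
  · exact h1 i h0 hi j hj

/-- **The orders `0` and `1`** of the place `i` over labels of precision `≥ s i - gp`. -/
theorem ones_F1 (htm : TmC S C₀) {i : ℕ} {w u₁ lam gp : ℝ} {s rd N pw : ℕ → ℝ}
    (hch : Chn S c r₀ r w w u₁ s rd) (hlam : 0 < lam) (hl1 : w + lam ≤ 1) (hgp : 0 < gp)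
    (H : DgB r₀ r s N lam gp) (hpw : ∀ l, r₀ ≤ l → l < r → s l - gp ≤ pw l)
    {Nf : ℕ → ℕ → ℝ} (hNf : ∀ l, r₀ ≤ l → l < r → ∀ j ≤ 1, N l ≤ Nf l j + (j : ℕ) * w)
    (hf : ∀ (J : ℕ) (F : Fam m J), ∃ φ : α J F → PtT F, ∀ ω, ptr F J ω = φ (f J F ω))
    (hy : Kn ((range r₀).image c) (w + lam) lam y) (h0 : r₀ ≤ i) (hi : i < r) {j : ℕ}
    (hj : j ≤ 1) {pt : ℝ} (hpt : s i - gp ≤ pt) {h : ℝ} (hh : 0 < h) :
    F1 S f (vg w) y (jetQ m c r₀ r w pw Nf)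
      (qJet m ((range i).image c) (c i) j w pt (N i - (j : ℕ) * w)) (gp / 8) h := by
  refine pull_qjets1 htm h0 hi hj (chg htm (hch.take h0 hi.le) hlam hl1 hgp (H.take hi.le)
    (fun l a b => hpw l a (by omega)) (j := j)
    (fun l a b j' hj' => hNf l a (by omega) j' (by omega)) (k := c i) (w₁ := w) (w₂ := w)
    (p₁ := pw i) (p₂ := pt) (N₁ := Nf i j) (N₂ := N i - (j : ℕ) * w) le_rfl le_rfl
    (by linarith [hNf i h0 hi j hj]) ?_ (fun l a b => ?_) hf hy hh)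
  · have : s i - gp ≤ min (pw i) pt := le_min (hpw i h0 hi) hpt
    linarith [H.hi i h0 hi]
  · have : s i - gp ≤ min (pw i) pt := le_min (hpw i h0 hi) hpt
    linarith [H.ne i h0 hi l a b]

/-- **The orders `≥ 2` of a place which are natural at an earlier window `b`.** -/
theorem nat_src (htm : TmC S C₀) {Q : Qt m U} {i : ℕ} {w b u₁ lam gp Pb : ℝ} {s rd N : ℕ → ℝ}
    (hch : Chn S c r₀ i w w u₁ s rd) (hlam : 0 < lam) (hl1 : w + lam ≤ 1) (hgp : 0 < gp)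
    (H : DgB r₀ i s N lam gp) {Dg : ℕ → ℕ → ℝ} {Jm : ℕ}
    (hDg : ∀ l, r₀ ≤ l → l < i → ∀ j ≤ Jm, N l ≤ Dg l j + (j : ℕ) * w) {e η : ℝ} (he : 0 < e)
    (hη : 0 ≤ η) (HJ : JO S f (vg w) y Q c r₀ i w s Dg Jm e η)
    (hxs : ∀ l, r₀ ≤ l → l < i → ∀ (j : ℕ) (M : ℝ),
      Exs S (qJet m ((range l).image c) (c l) j w (s l) M))
    (hxb : ∀ (j : ℕ) (M : ℝ), Exs S (qJet m ((range i).image c) (c i) j b Pb M))
    (hb0 : 0 ≤ b) (hbw : b ≤ w) {Ni : ℝ}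
    (hnat : Ni + 2 * gp ≤ Pb + 2 * (w - b)) {pt : ℝ} (h3 : Ni + gp ≤ min Pb pt + lam)
    (h3' : ∀ l, r₀ ≤ l → l < i → Ni + 11 * gp ≤ min Pb pt + (N l - s l))
    (hf : ∀ (J : ℕ) (F : Fam m J), ∃ φ : α J F → PtT F, ∀ ω, ptr F J ω = φ (f J F ω))
    (hy : Kn ((range r₀).image c) (w + lam) lam y) {j : ℕ} (hj : 2 ≤ j) (hjm : j ≤ Jm) {h : ℝ}
    (hh : 0 < h) : F1 S f (vg w) y Q
      (qJet m ((range i).image c) (c i) j w pt (Ni - (j : ℕ) * w)) (min e (gp / 8))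
      ((i * (Jm + 1) : ℕ) * η + h) := by
  have hw1 : w ≤ 1 := by linarith
  have he' : 0 < min e (gp / 8) := lt_min he (by linarith)
  have a1 := (HJ.qjets htm hη le_rfl hjm).mono (min_le_left e (gp / 8)) le_rfl
  have hj2 : (2 : ℝ) ≤ j := by exact_mod_cast hj
  have a2 : F1 S f (vg w) y Q (qJet m ((range i).image c) (c i) j b Pb (Ni - (j : ℕ) * w))
      (min e (gp / 8)) (h / 3) := by
    refine (F1.of0 htm (few0_room (k := c i) (I := (range i).image c) (j := j) (w := b) (p := Pb)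
      (N := Ni - (j : ℕ) * w) (ρ := 2 * gp) htm hb0 (by linarith) (by linarith) ?_ f (vg w) y
      (by positivity : (0 : ℝ) < h / 3))).mono ((min_le_right _ _).trans (by linarith)) le_rfl
    have : 2 * (w - b) ≤ (j : ℝ) * (w - b) := mul_le_mul_of_nonneg_right hj2 (by linarith)
    have e1 : (j : ℝ) * (w - b) = j * w - j * b := by ring
    linarith
  have a3 := chg (y := y) (f := f) htm hch hlam hl1 hgp H (pv := s) (fun l _ _ => by linarith)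
    (Nv := Dg) (j := j) (fun l a b' j' hj' => hDg l a b' j' (by omega)) (k := c i) (w₁ := b)
    (w₂ := w) (p₁ := Pb) (p₂ := pt) (N₁ := Ni - (j : ℕ) * w) (N₂ := Ni - (j : ℕ) * w) hbw le_rfl
    le_rfl (by linarith) (fun l a b' => by linarith [h3' l a b']) hf hy
    (by positivity : (0 : ℝ) < h / 3)
  have hex : Exs S ((qJets m c r₀ i j (fun _ _ => w) (fun l _ => s l) Dg).prod
      (qJet m ((range i).image c) (c i) j b Pb (Ni - (j : ℕ) * w))) :=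
    (exs_qjets fun l a b' j' _ => hxs l a b' j' _).prod (hxb j _)
  have a4 := F1.trans htm hex he' (F1.pair htm a1 a2) (a3.mono (min_le_right e (gp / 8)) le_rfl)
  refine a4.mono le_rfl (by linarith)

end

end Pool.CDX
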