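import Pool.Agent.H71.CDX.Cde

/-!
# The context at an earlier window, and the jets of a thin place

`JO.dn`: the jets over labels of an earlier window `v`. `JO.ctx`: the context at `v`. `thin_F1`: the
jets of order `≥ 1` of a place whose rows are not full.
-/

set_option autoImplicit false

namespace Pool.CDX

open Finset Real MvPolynomial
open Pool.Agent.H49.Ent Pool.Agent.H32.Dense Pool.STK Pool.KA Pool.KSAT Pool.K2S Pool.PB Pool.GEN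
open Pool.S6C Pool.RCD Pool.LA91 Pool.OWN68 Pool.CHT Pool.AVG96
open Pool.GRD (LbP)
open Pool.AJW (CfB ctx)
open Pool.AJX (JetX LbX FwX ctxK_few)

section

variable {m : ℕ} {S : PCl m} {C₀ : ℝ} {U : Type} {α γ : ∀ J : ℕ, Fam m J → Type}
  {f : ∀ (J : ℕ) (F : Fam m J), F.Ω → α J F}
  {y : ∀ (J : ℕ) (F : Fam m J), F.Ω → γ J F} {c : ℕ → Fin m} {r₀ r : ℕ}

/-- **The jets over labels of an earlier window.** -/
theorem JO.dn (htm : TmC S C₀) {Q : Qt m U} {w v u₁ lam gp : ℝ} {s sv rd N n Sl : ℕ → ℝ}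
    (hch : Chn S c r₀ r w w u₁ s rd) (hlam : 0 < lam) (hl1 : w + lam ≤ 1) (hgp : 0 < gp)
    (H : DgN r₀ r s N Sl (w - v) lam gp) (hSl : ∀ l, r₀ ≤ l → l < r → 0 ≤ Sl l) (hvw : v ≤ w)
    (hsv : ∀ l, r₀ ≤ l → l < r → s l - Sl l * (w - v) - gp ≤ sv l) {Dg : ℕ → ℕ → ℝ} {Jm : ℕ}
    (hDg : ∀ l, r₀ ≤ l → l < r → ∀ j ≤ Jm, N l ≤ Dg l j + (j : ℕ) * w)
    (hn : ∀ l, r₀ ≤ l → l < r → n l + Jm * (w - v) ≤ N l) {e η : ℝ} (he : 0 < e) (hη : 0 ≤ η)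
    (HJ : JO S f (vg w) y Q c r₀ r w s Dg Jm e η)
    (hxs : ∀ l, r₀ ≤ l → l < r → ∀ (j : ℕ) (M : ℝ),
      Exs S (qJet m ((range l).image c) (c l) j w (s l) M))
    (hf : ∀ (J : ℕ) (F : Fam m J), ∃ φ : α J F → PtT F, ∀ ω, ptr F J ω = φ (f J F ω))
    (hy : Kn ((range r₀).image c) (w + lam) lam y) {h : ℝ} (hh : 0 < h) :
    JO S f (vg w) y Q c r₀ r v sv (fun l j => n l - (j : ℕ) * v) Jm (min e (gp / 8))
      (((r * (Jm + 1) : ℕ) + 1) * η + h) := by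
  intro l h0 hl j hj
  have he' : 0 < min e (gp / 8) := lt_min he (by linarith)
  have HB := H.b (by linarith) hSl
  have a1 := (HJ.qjets htm hη hl.le hj).mono (min_le_left e (gp / 8)) le_rfl
  have a2 := (HJ l h0 hl j hj).mono (min_le_left e (gp / 8)) le_rfl
  have hjJ : (j : ℝ) ≤ Jm := by exact_mod_cast hj
  have hjw : (j : ℝ) * (w - v) ≤ Jm * (w - v) := mul_le_mul_of_nonneg_right hjJ (by linarith)
  have hmn : s l - Sl l * (w - v) - gp ≤ min (s l) (sv l) :=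
    le_min (by linarith [mul_nonneg (hSl l h0 hl) (by linarith : 0 ≤ w - v)]) (hsv l h0 hl)
  have a3 := chg (y := y) (f := f) htm (hch.take h0 hl.le) hlam hl1 hgp (HB.take hl.le) (pv := s)
    (fun l _ _ => by linarith) (Nv := Dg) (j := j)
    (fun l' a b' j' hj' => hDg l' a (by omega) j' (by omega)) (k := c l) (w₁ := w)
    (w₂ := v) (p₁ := s l) (p₂ := sv l) (N₁ := Dg l j) (N₂ := n l - (j : ℕ) * v) le_rfl hvw
    (by linarith [hDg l h0 hl j hj, hn l h0 hl])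
    (by nlinarith [H.hi l h0 hl, hn l h0 hl]) (fun l' a b' => by
      nlinarith [H.ne l h0 hl l' a b', hn l h0 hl]) hf hy hh
  have hex : Exs S ((qJets m c r₀ l j (fun _ _ => w) (fun l _ => s l) Dg).prod
      (qJet m ((range l).image c) (c l) j w (s l) (Dg l j))) :=
    (exs_qjets fun l' a b' j' _ => hxs l' a (by omega) j' _).prod (hxs l h0 hl j _)
  have a4 := F1.trans htm hex he' (F1.pair htm a1 a2) (a3.mono (min_le_right e (gp / 8)) le_rfl)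
  refine a4.mono le_rfl (by linarith)

/-- **The context** from the jets. -/
theorem JO.ctx (htm : TmC S C₀) {Q : Qt m U} {v a lam : ℝ} {sv n E rd : ℕ → ℝ} {K : ℕ} {e η : ℝ}
    (he : 0 < e) (hη : 0 ≤ η)
    (HJ : JO S f (vg a) y Q c r₀ r v sv (fun l j => n l - (j : ℕ) * v) (K + 2) e η)
    (hv0 : 0 ≤ v) (hva : v ≤ a) (ha : a ≤ 1) (hlam : 0 ≤ lam)
    (hE : ∀ i, r₀ ≤ i → i < r → E i ≤ 1) (hrd : ∀ i, r₀ ≤ i → i < r → 0 ≤ rd i)
    (hy : Kn ((range r₀).image c) (v + lam) lam y) {δ : ℝ}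
    (hδ : (r * (K + 3) : ℕ) * η < δ) {R : ℕ} (hR : r ≤ R) {e' : ℝ} (he' : 0 < e')
    (hle : e' ≤ e) :
    FwX S f (vg a) y Q c r₀ R K E v rd sv (ctx c r₀ r K v lam n) e' δ := by
  intro K₀
  refine ctxK_few htm hE hv0 hva ha hlam he' hrd hy K (η := fun _ _ => η)
    (δ₁ := (r * (K + 3) : ℕ) * η) ?_
    (fun l x y' j hj => (HJ l x y' j (by omega)).mono hle le_rfl) hδ K₀ R hR
  rw [Finset.sum_const, Finset.sum_const, Nat.card_Ico, Finset.card_range, nsmul_eq_mul,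
    nsmul_eq_mul, ← mul_assoc]
  refine mul_le_mul_of_nonneg_right ?_ hη
  exact_mod_cast Nat.mul_le_mul (Nat.sub_le r r₀) le_rfl

end

/-- **The jets of order `≥ 1` of a place whose rows are not full**, over labels of `w`, from the jets
of the places below. -/
theorem thin_F1 (K : ℕ) {h : ℝ} (hh : 0 < h) (hh1 : h ≤ 1) {ε : ℝ} (hε : 0 < ε) (r : ℕ) :
    ∃ δ : ℝ, 0 < δ ∧
    ∀ {m : ℕ} {S : PCl m} {c : ℕ → Fin m} {r₀ : ℕ} {sn : ℕ → ℝ → ℝ} {G : Set ℝ} {b o φ Sb : ℝ}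
      {Sl : ℕ → ℝ}, LdS S c r₀ r sn G b o φ Sl Sb → ∀ {α γ : ∀ J : ℕ, Fam m J → Type}
    {f : ∀ (J : ℕ) (F : Fam m J), F.Ω → α J F} {y : ∀ (J : ℕ) (F : Fam m J), F.Ω → γ J F},
    (∀ (J : ℕ) (F : Fam m J), ∃ χ : α J F → PtT F, ∀ ω, ptr F J ω = χ (f J F ω)) →
    ∀ {w v lam g₀ q : ℝ} {N E rd : ℕ → ℝ} {Dg : ℕ → ℕ → ℝ} {U : Type} {Q : Qt m U} {e₁ η : ℝ},
    Kn ((range r₀).image c) (w + lam) lam y → w ∈ G → v ∈ G → b ≤ v → v < w → w ≤ o →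
    0 < lam → w + lam ≤ 1 → DgN r₀ r (fun l => sn l w) N Sl (w - v) lam (Sb * φ) →
    (∀ l, r₀ ≤ l → l < r → ∀ j ≤ K + 2, N l ≤ Dg l j + (j : ℕ) * w) → 0 < e₁ → 0 ≤ η →
    JO S f (vg w) y Q c r₀ r w (fun l => sn l w) Dg (K + 2) e₁ η →
    0 < g₀ → 0 < q → 0 ≤ sn r v → sn r v + q + Sb * φ ≤ sn r w → sn r v + q + E r + g₀ ≤ 1 →
    (∀ i, r₀ ≤ i → i ≤ r → 0 ≤ E i ∧ E i ≤ 1) → (∀ i, r₀ ≤ i → i ≤ r → 0 ≤ rd i ∧ rd i + g₀ ≤ 1) →
    (∀ i, r₀ ≤ i → i < r → N i + E i + g₀ ≤ 1) →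
    (∀ i, r₀ ≤ i → i < r → q + (2 * (K : ℝ) + 4) * (w - v) + 5 * (Sb * φ) ≤ N i - sn i w) →
    q + ((K : ℝ) + 3) * (w - v) + 5 * (Sb * φ) ≤ lam →
    ((r : ℝ) + 1) * (Sb * φ) ≤ δ * q →
    2 * (r * (K + 3) : ℕ) * (((r * (K + 3) : ℕ) : ℝ) + 1) * η ≤ δ * q →
    (∀ q' : ℝ, 0 ≤ q' → q' ≤ q →
      RawN S ((range r).image c) (c r) (sn r v) q' h (δ * q)) →
    (∀ e : ℝ, 0 < e → Bas S (fun J F A => ∃ (V : Type) (z : PtT F → V) (z' : LnT F → V)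
      (g : V → ℕ → MvPolynomial (Option (Fin m)) ℝ),
      LbX F c r₀ (r + 1) K e E v rd (fun l => sn l v) A z z' g)) →
    ∃ e₀ : ℝ, 0 < e₀ ∧ ∀ e : ℝ, 0 < e → e ≤ e₀ → ∀ j : ℕ, 1 ≤ j → j ≤ K + 2 → ∀ P₂ : ℝ,
      sn r v ≤ P₂ → F1 S f (vg w) y Q (qJet m ((range r).image c) (c r) j w P₂
        (sn r v + q - (j : ℕ) * v)) e (ε * q) := by
  obtain ⟨δ, hδ, H⟩ := jet_F1x K hh hh1 hε
  refine ⟨δ, hδ, ?_⟩
  intro m S c r₀ sn G b o φ Sb Sl L α γ f y hf w v lam g₀ q N E rd Dg U Q e₁ η hy hw hv hbv hvw hwo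
    hlam hl1 HN hDg he₁ hη HJ hg₀ hq hs0 hqs hs1 hE hrd hN1 htop htopb hφδ hηδ hraw hlb
  obtain ⟨C₀, htm⟩ := L.tm
  have hφ := L.φ0
  obtain ⟨hSr, hSb⟩ := L.S1 r L.rr le_rfl
  have hSb1 : 1 ≤ Sb := hSr.trans hSb
  obtain ⟨gp, hgp⟩ : ∃ gp, gp = Sb * φ := ⟨_, rfl⟩
  have hgφ : φ ≤ gp := by rw [hgp]; nlinarith
  have hgp0 : 0 < gp := by linarith
  rw [← hgp] at HN hqs htop htopb hφδ
  have hbw : b ≤ w := by linarith
  obtain ⟨Δ, hΔ⟩ : ∃ Δ, Δ = w - v := ⟨_, rfl⟩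
  have hΔ0 : 0 < Δ := by linarith
  rw [← hΔ] at HN htop htopb
  obtain ⟨u₁, rw₀, hrw₀, hch⟩ := L.ch w hw hbw hwo
  have hS0 : ∀ l, r₀ ≤ l → l < r → 0 ≤ Sl l := fun l a b' => by linarith [(L.S1 l a b'.le).1]
  have hsv : ∀ l, r₀ ≤ l → l < r → sn l w - Sl l * (w - v) - gp ≤ sn l v := fun l a b' => by
    have := (L.up a b'.le hv hw hbv hvw.le hwo).2
    linarith
  have hvs : ∀ l, r₀ ≤ l → l < r → sn l v ≤ sn l w + gp := fun l a b' => by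
    have h1 := (L.up a b'.le hv hw hbv hvw.le hwo).1
    have h2 := mul_nonneg (hS0 l a b') (by linarith : 0 ≤ w - v)
    linarith
  have hmn : ∀ l, r₀ ≤ l → l < r → sn l w - Sl l * Δ - gp ≤ min (sn l v) (sn l w) :=
    fun l a b' => le_min (by rw [hΔ]; exact hsv l a b')
      (by linarith [mul_nonneg (hS0 l a b') hΔ0.le])
  obtain ⟨n, hn⟩ : ∃ n : ℕ → ℝ, n = fun l => N l - ((K : ℝ) + 2) * Δ := ⟨_, rfl⟩
  obtain ⟨lv, hlv⟩ : ∃ lv : ℕ → ℝ, lv = fun l => N l - sn l w - ((K : ℝ) + 2) * Δ - 2 * gp :=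
    ⟨_, rfl⟩
  have hKΔ : 0 ≤ ((K : ℝ) + 2) * Δ := by positivity
  have HX : JetX S c r₀ r v w lam q gp g₀ E (fun l => sn l v) (fun l => sn l w) n lv rd K := by
    constructor
    · exact L.rr
    · exact L.b0.trans hbv
    · exact hvw.le
    · exact hgp0
    · exact hg₀
    · exact hq
    · linarith
    · exact hs0
    · exact hE
    · exact hs1
    · exact ⟨u₁, rw₀, hch⟩
    · exact fun M => L.exs hw hbw hwo L.rr le_rfl 0 M
    · exact hrd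
    · intro i a b'
      rw [hn]
      show N i - ((K : ℝ) + 2) * Δ + E i + g₀ ≤ 1
      linarith [hN1 i a b']
    · exact hqs
    · intro i a b'
      rw [hlv]
      show 0 < N i - sn i w - ((K : ℝ) + 2) * Δ - 2 * gp
      nlinarith [htop i a b']
    · intro i a b'
      rw [hlv, hn]
      show sn i w + (N i - sn i w - ((K : ℝ) + 2) * Δ - 2 * gp) + gp ≤ N i - ((K : ℝ) + 2) * Δ
      linarith
    · intro i a b' l a' b''
      rw [hlv]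
      show sn i w + (N i - sn i w - ((K : ℝ) + 2) * Δ - 2 * gp) + gp ≤ min (sn i v) (sn i w) +
        (N l - sn l w - ((K : ℝ) + 2) * Δ - 2 * gp)
      linarith [hmn i a b', HN.ne i a b' l a' b'']
    · intro i a b'
      rw [hlv]
      show sn i w + (N i - sn i w - ((K : ℝ) + 2) * Δ - 2 * gp) + gp ≤ min (sn i v) (sn i w) +
        (v + lam - w)
      nlinarith [hmn i a b', HN.hi i a b']
    · intro l a b'
      rw [hlv, ← hΔ]
      show q + ((K : ℝ) + 2) * Δ + gp ≤ N l - sn l w - ((K : ℝ) + 2) * Δ - 2 * gp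
      nlinarith [htop l a b']
    · rw [← hΔ]
      nlinarith
  have hδq : 0 < δ * q := by positivity
  obtain ⟨M, hM⟩ : ∃ M : ℝ, M = ((r * (K + 3) : ℕ) : ℝ) := ⟨_, rfl⟩
  have hM0 : 0 ≤ M := by rw [hM]; positivity
  obtain ⟨h', hh'⟩ : ∃ h' : ℝ, h' = δ * q / (4 * (M + 1)) := ⟨_, rfl⟩
  have hh0 : 0 < h' := by rw [hh']; positivity
  have hdn := JO.dn (n := n) (sv := fun l => sn l v) htm hch hlam hl1 hgp0 (by rw [← hΔ]; exact HN)
    hS0 hvw.le hsv hDg (fun l a b' => by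
      rw [hn]
      show N l - ((K : ℝ) + 2) * Δ + ((K + 2 : ℕ) : ℝ) * (w - v) ≤ N l
      push_cast
      rw [← hΔ]
      linarith) he₁ hη HJ (fun l a b' j M => L.exs hw hbw hwo a b'.le j M) hf hy hh0
  have hye : Kn ((range r₀).image c) (v + lam) lam y := kn_mono (by linarith) le_rfl hy
  have hctx : ∀ e : ℝ, 0 < e → e ≤ min e₁ (gp / 8) →
      FwX S f (vg w) y Q c r₀ (r + 1) K E v rd (fun l => sn l v)
        (ctx c r₀ r K v lam n) e (δ * q) := fun e he hle => by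
    refine JO.ctx htm (lt_min he₁ (by linarith)) (by positivity) hdn (L.b0.trans hbv) hvw.le
      (by linarith) hlam.le (fun i a b' => (hE i a b'.le).2) (fun i a b' => (hrd i a b'.le).1) hye
      ?_ (Nat.le_succ r) he hle
    rw [← hM] at hηδ ⊢
    have e2 : M * ((M + 1) * η) ≤ δ * q / 2 := by
      have : 2 * M * (M + 1) * η = 2 * (M * ((M + 1) * η)) := by ring
      rw [this] at hηδ
      linarith
    have e3 : M * h' ≤ δ * q / 4 := by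
      rw [hh', mul_div_assoc', div_le_div_iff₀ (by positivity) (by norm_num)]
      nlinarith [mul_nonneg hM0 hδq.le]
    rw [mul_add]
    linarith
  obtain ⟨e₀, he₀, -, HP⟩ := H htm HX hφδ (fun j M => L.exs hw hbw hwo L.rr le_rfl j M) hf hye
    le_rfl (by linarith : w ≤ 1) (lt_min he₁ (by linarith) : 0 < min e₁ (gp / 8)) hctx hraw hlb
  refine ⟨e₀, he₀, fun e he hle j hj1 hj P₂ hP₂ => ?_⟩
  obtain ⟨j', rfl⟩ : ∃ j', j = j' + 1 := ⟨j - 1, by omega⟩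
  exact HP e he hle j' (by omega) P₂ hP₂

end Pool.CDX
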