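import Pool.Agent.H71.CDX.Cdf
import Pool.Agent.H57.AVG.C2a

/-!
# The jets of the places of a chain at a point

`SrcG`: the jets of order `≥ 2` of the place `i` are few bits given positions and velocities of the
places below, in all small boxes. `jo_at`: all jets of the places `< i`. `src_nat`: a place of slope
less than `2`.
-/

set_option autoImplicit false

namespace Pool.CDX

open Finset Real MvPolynomial
open Pool.Agent.H49.Ent Pool.Agent.H32.Dense Pool.STK Pool.KA Pool.KSAT Pool.K2S Pool.PB Pool.GEN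
open Pool.S6C Pool.RCD Pool.LA91 Pool.OWN68 Pool.CHT Pool.AVG96
open Pool.GRD (LbP)
open Pool.AJW (CfB ctx)
open Pool.AJX (JetX LbX FwX ctxK_few)

/-- A positive lower bound of finitely many positive numbers. -/
theorem ex_min (n : ℕ) (P : ℕ → Prop) (f : ℕ → ℝ) (hf : ∀ l < n, P l → 0 < f l) :
    ∃ x : ℝ, 0 < x ∧ ∀ l < n, P l → x ≤ f l := by
  classical
  induction n with
  | zero => exact ⟨1, one_pos, fun l hl => absurd hl (Nat.not_lt_zero l)⟩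
  | succ n ih =>
    obtain ⟨x, hx, h⟩ := ih fun l hl => hf l (by omega)
    by_cases hn : P n
    · refine ⟨min x (f n), lt_min hx (hf n (by omega) hn), fun l hl hP => ?_⟩
      rcases Nat.lt_succ_iff_lt_or_eq.1 hl with h1 | h1
      · exact (min_le_left _ _).trans (h l h1 hP)
      · rw [h1]
        exact min_le_right _ _
    · refine ⟨x, hx, fun l hl hP => ?_⟩
      rcases Nat.lt_succ_iff_lt_or_eq.1 hl with h1 | h1
      · exact h l h1 hP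
      · exact absurd (h1 ▸ hP) hn

/-- An upper bound of finitely many numbers. -/
theorem ex_max (n : ℕ) (f : ℕ → ℝ) : ∃ x : ℝ, 0 < x ∧ ∀ l < n, f l ≤ x := by
  induction n with
  | zero => exact ⟨1, one_pos, fun l hl => absurd hl (Nat.not_lt_zero l)⟩
  | succ n ih =>
    obtain ⟨x, hx, h⟩ := ih
    refine ⟨max x (f n), lt_max_of_lt_left hx, fun l hl => ?_⟩
    rcases Nat.lt_succ_iff_lt_or_eq.1 hl with h1 | h1
    · exact (h l h1).trans (le_max_left _ _)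
    · rw [h1]
      exact le_max_right _ _

variable {m : ℕ} {γ : ∀ J : ℕ, Fam m J → Type} {S : PCl m}
  {y : ∀ (J : ℕ) (F : Fam m J), F.Ω → γ J F} {c : ℕ → Fin m} {r₀ r K : ℕ} {s₀ A B Λ : ℝ}
  {sn : ℝ → ℕ → ℝ} {G : Set ℝ} {g : ℝ} {Sl : ℕ → ℝ}

/-- **The jets of order `≥ 2` of the place `i`** are few bits, in all small boxes at `g`. -/
def SrcG (S : PCl m) (y : ∀ (J : ℕ) (F : Fam m J), F.Ω → γ J F) (c : ℕ → Fin m) (r₀ K : ℕ)
    (sn : ℝ → ℕ → ℝ) (G : Set ℝ) (g : ℝ) (i : ℕ) : Prop :=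
  ∀ e C : ℝ, 0 < e → 0 < C → ∃ Cn κ ρ : ℝ, 0 < Cn ∧ 0 < κ ∧ 0 < ρ ∧ ∀ R : ℝ, 0 < R → R < ρ →
    ∀ w ∈ G, g - R ≤ w → w ≤ g + R → ∀ (pw : ℕ → ℝ) (Nf : ℕ → ℕ → ℝ),
    (∀ l, r₀ ≤ l → l < i → sn w l - κ * R ≤ pw l) →
    (∀ l, r₀ ≤ l → l < i → ∀ j : ℕ, j ≤ 1 → sn w l + Cn * R ≤ Nf l j + (j : ℝ) * w) →
    ∃ e₀ : ℝ, 0 < e₀ ∧ ∃ Dg : ℕ → ℝ,
      (∀ j : ℕ, 2 ≤ j → j ≤ K + 2 → sn w i + C * R ≤ Dg j + (j : ℝ) * w) ∧
      ∀ j : ℕ, 2 ≤ j → j ≤ K + 2 → ∀ pt : ℝ, sn w i - κ * R ≤ pt →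
        F1 S (fun J F => ptr F J) (vg w) y (jetQ m c r₀ i w pw Nf)
          (qJet m ((range i).image c) (c i) j w pt (Dg j)) e₀ (e * R)

/-- The base at the window `w`. -/
theorem gch_kn (h : GCh S (fun J F => ptr F J) y c r₀ r s₀ A B Λ sn G) {w : ℝ} (hw : w ≤ B) :
    Kn ((range r₀).image c) (w + Λ) Λ y := by
  obtain ⟨p₀, lam, h1, h2, h3, h4⟩ := h.kn
  exact kn_mono (by linarith) h2 h4

/-- **All jets of the places `< i`.** -/
theorem jo_at (h : GCh S (fun J F => ptr F J) y c r₀ r s₀ A B Λ sn G) (hgA : A < g) (hgB : g < B)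
    {i : ℕ} (h0 : r₀ ≤ i) (hi : i ≤ r)
    (hsrc : ∀ l, r₀ ≤ l → l < i → SrcG S y c r₀ K sn G g l) {e C Gp : ℝ}
    (he : 0 < e) (hC : 0 < C) (hGp : 0 < Gp) :
    ∃ Cn κ ρ : ℝ, 0 < Cn ∧ 0 < κ ∧ 0 < ρ ∧ ∀ R : ℝ, 0 < R → R < ρ →
    ∀ w ∈ G, g - R ≤ w → w ≤ g + R → ∀ (pw : ℕ → ℝ) (Nf : ℕ → ℕ → ℝ),
    (∀ l, r₀ ≤ l → l < i → sn w l - κ * R ≤ pw l) →
    (∀ l, r₀ ≤ l → l < i → ∀ j : ℕ, j ≤ 1 → sn w l + Cn * R ≤ Nf l j + (j : ℝ) * w) →
    ∃ e₀ : ℝ, 0 < e₀ ∧ ∃ Dg : ℕ → ℕ → ℝ,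
      (∀ l, r₀ ≤ l → l < i → ∀ j ≤ K + 2,
        sn w l + (C + ((i : ℝ) - l) * Gp) * R ≤ Dg l j + (j : ℕ) * w) ∧
      JO S (fun J F => ptr F J) (vg w) y (jetQ m c r₀ i w pw Nf) c r₀ i w (fun l => sn w l) Dg
        (K + 2) e₀ (e * R) := by
  classical
  obtain ⟨C₀, htm⟩ := h.tm
  have hΛ := h.Λ0
  have hCl : ∀ l < i, C ≤ C + ((i : ℝ) - l) * Gp ∧ C + ((i : ℝ) - l) * Gp ≤ C + i * Gp ∧
      Gp ≤ ((i : ℝ) - l) * Gp := fun l hl => by
    have h1 : (l : ℝ) + 1 ≤ i := by exact_mod_cast hl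
    have h2 : (0 : ℝ) ≤ l := Nat.cast_nonneg l
    refine ⟨?_, ?_, ?_⟩ <;> nlinarith
  have hch : ∀ l : ℕ, ∃ Cn κ ρ : ℝ, (r₀ ≤ l → l < i → 0 < Cn) ∧ (r₀ ≤ l → l < i → 0 < κ) ∧
      (r₀ ≤ l → l < i → 0 < ρ) ∧ (r₀ ≤ l → l < i → ∀ R : ℝ, 0 < R → R < ρ →
    ∀ w ∈ G, g - R ≤ w → w ≤ g + R → ∀ (pw : ℕ → ℝ) (Nf : ℕ → ℕ → ℝ),
    (∀ l', r₀ ≤ l' → l' < l → sn w l' - κ * R ≤ pw l') →
    (∀ l', r₀ ≤ l' → l' < l → ∀ j : ℕ, j ≤ 1 → sn w l' + Cn * R ≤ Nf l' j + (j : ℝ) * w) →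
    ∃ e₀ : ℝ, 0 < e₀ ∧ ∃ Dg : ℕ → ℝ,
      (∀ j : ℕ, 2 ≤ j → j ≤ K + 2 →
        sn w l + (C + ((i : ℝ) - l) * Gp) * R ≤ Dg j + (j : ℝ) * w) ∧
      ∀ j : ℕ, 2 ≤ j → j ≤ K + 2 → ∀ pt : ℝ, sn w l - κ * R ≤ pt →
        F1 S (fun J F => ptr F J) (vg w) y (jetQ m c r₀ l w pw Nf)
          (qJet m ((range l).image c) (c l) j w pt (Dg j)) e₀ (e * R)) := by
    intro l
    by_cases hl : r₀ ≤ l ∧ l < i
    · obtain ⟨Cn, κ, ρ, a1, a2, a3, a4⟩ := hsrc l hl.1 hl.2 e (C + ((i : ℝ) - l) * Gp) he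
        (by linarith [(hCl l hl.2).1])
      exact ⟨Cn, κ, ρ, fun _ _ => a1, fun _ _ => a2, fun _ _ => a3, fun _ _ => a4⟩
    · exact ⟨0, 0, 0, fun a b => absurd ⟨a, b⟩ hl, fun a b => absurd ⟨a, b⟩ hl,
        fun a b => absurd ⟨a, b⟩ hl, fun a b => absurd ⟨a, b⟩ hl⟩
  choose Cf κf ρf b1 b2 b3 b4 using hch
  obtain ⟨Cx, hCx, hCx'⟩ := ex_max i Cf
  obtain ⟨κ₀, hκ₀, hκ'⟩ := ex_min i (fun l => r₀ ≤ l) κf fun l hl hP => b2 l hP hl
  obtain ⟨ρ₀, hρ₀, hρ'⟩ := ex_min i (fun l => r₀ ≤ l) ρf fun l hl hP => b3 l hP hl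
  obtain ⟨κ, hκ⟩ : ∃ κ, κ = min κ₀ (min (C / 30) (min (Gp / 30) 1)) := ⟨_, rfl⟩
  have k0 : 0 < κ := by rw [hκ]; positivity
  have k1 : κ ≤ κ₀ := by rw [hκ]; exact min_le_left _ _
  have k2 : κ ≤ C / 30 := by rw [hκ]; exact (min_le_right _ _).trans (min_le_left _ _)
  have k3 : κ ≤ Gp / 30 := by
    rw [hκ]; exact (min_le_right _ _).trans ((min_le_right _ _).trans (min_le_left _ _))
  have k4 : κ ≤ 1 := by
    rw [hκ]; exact (min_le_right _ _).trans ((min_le_right _ _).trans (min_le_right _ _))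
  obtain ⟨X, hX⟩ : ∃ X : ℝ, X = C + i * Gp := ⟨_, rfl⟩
  have hX0 : 0 < X := by rw [hX]; positivity
  refine ⟨Cx + X, κ, min ρ₀ (min (min (g - A) (B - g)) (Λ / (X + 31))), by positivity, k0, ?_, ?_⟩
  · refine lt_min hρ₀ (lt_min (lt_min (by linarith) (by linarith)) (by positivity))
  intro R hR hRρ w hw w1 w2 pw Nf hpw hNf
  have r1 : R < ρ₀ := hRρ.trans_le (min_le_left _ _)
  have r2 : R < g - A := hRρ.trans_le
    ((min_le_right _ _).trans ((min_le_left _ _).trans (min_le_left _ _)))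
  have r3 : R < B - g := hRρ.trans_le
    ((min_le_right _ _).trans ((min_le_left _ _).trans (min_le_right _ _)))
  have r4 : R < Λ / (X + 31) := hRρ.trans_le ((min_le_right _ _).trans (min_le_right _ _))
  rw [lt_div_iff₀ (by positivity)] at r4
  have hwA : A ≤ w := by linarith
  have hwB : w < B := by linarith
  have hCn : ∀ l < i, Cf l * R ≤ (Cx + X) * R := fun l hl =>
    mul_le_mul_of_nonneg_right (by linarith [hCx' l hl]) hR.le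
  have hXn : ∀ l < i, (C + ((i : ℝ) - l) * Gp) * R ≤ (Cx + X) * R := fun l hl =>
    mul_le_mul_of_nonneg_right (by linarith [(hCl l hl).2.1]) hR.le
  have hκn : ∀ l < i, r₀ ≤ l → κ * R ≤ κf l * R := fun l hl hl0 =>
    mul_le_mul_of_nonneg_right (by linarith [hκ' l hl hl0]) hR.le
  -- the jets of order `≥ 2`
  have hs : ∀ l : ℕ, ∃ (e₀ : ℝ) (Dg : ℕ → ℝ), (r₀ ≤ l → l < i → 0 < e₀) ∧
      (r₀ ≤ l → l < i → (∀ j : ℕ, 2 ≤ j → j ≤ K + 2 →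
        sn w l + (C + ((i : ℝ) - l) * Gp) * R ≤ Dg j + (j : ℝ) * w) ∧
      ∀ j : ℕ, 2 ≤ j → j ≤ K + 2 → ∀ pt : ℝ, sn w l - κf l * R ≤ pt →
        F1 S (fun J F => ptr F J) (vg w) y (jetQ m c r₀ l w pw Nf)
          (qJet m ((range l).image c) (c l) j w pt (Dg j)) e₀ (e * R)) := by
    intro l
    by_cases hl : r₀ ≤ l ∧ l < i
    · obtain ⟨e₀, he₀, Dg, a1, a2⟩ := b4 l hl.1 hl.2 R hR (r1.trans_le (hρ' l hl.2 hl.1)) w hw w1
        w2 pw Nf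
        (fun l' x z => by linarith [hpw l' x (z.trans hl.2), hκn l hl.2 hl.1])
        (fun l' x z j hj => by linarith [hNf l' x (z.trans hl.2) j hj, hCn l hl.2])
      exact ⟨e₀, Dg, fun _ _ => he₀, fun _ _ => ⟨a1, a2⟩⟩
    · exact ⟨0, fun _ => 0, fun a b => absurd ⟨a, b⟩ hl, fun a b => absurd ⟨a, b⟩ hl⟩
  choose ef Df c1 c2 using hs
  obtain ⟨e₁, he₁, he₁'⟩ := ex_min i (fun l => r₀ ≤ l) ef fun l hl hP => c1 l hP hl
  have hgp : 0 < κ * R := by positivity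
  obtain ⟨u₁, rd, hrd, hch⟩ := h.ch w hw hwA hwB
  have hkR : 30 * (κ * R) ≤ C * R := by nlinarith
  have hkG : 30 * (κ * R) ≤ Gp * R := by nlinarith
  have hkΛ : X * R + 30 * (κ * R) ≤ Λ := by nlinarith
  have HB : DgB r₀ i (fun l => sn w l) (fun l => sn w l + (C + ((i : ℝ) - l) * Gp) * R) Λ
      (κ * R) := by
    refine ⟨fun l a b => ?_, fun l a b => ?_, fun l a b l' a' b' => ?_⟩
    · have := mul_le_mul_of_nonneg_right (hCl l b).1 hR.le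
      show sn w l + 30 * (κ * R) ≤ sn w l + (C + ((i : ℝ) - l) * Gp) * R
      linarith
    · have := mul_le_mul_of_nonneg_right (hCl l b).2.1 hR.le
      rw [← hX] at this
      show sn w l + (C + ((i : ℝ) - l) * Gp) * R + 30 * (κ * R) ≤ sn w l + Λ
      linarith
    · have h1 : (l' : ℝ) + 1 ≤ l := by exact_mod_cast b'
      show sn w l + (C + ((i : ℝ) - l) * Gp) * R - sn w l + 30 * (κ * R) ≤
        sn w l' + (C + ((i : ℝ) - l') * Gp) * R - sn w l'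
      have h2 : ((l : ℝ) - l') * (Gp * R) ≥ 1 * (Gp * R) :=
        mul_le_mul_of_nonneg_right (by linarith) (by positivity)
      nlinarith
  refine ⟨min e₁ (κ * R / 8), lt_min he₁ (by linarith), fun l j => if j ≤ 1 then
    sn w l + (C + ((i : ℝ) - l) * Gp) * R - (j : ℕ) * w else Df l j, fun l a b j hj => ?_,
    fun l a b j hj => ?_⟩
  · by_cases hj1 : j ≤ 1
    · simp only [if_pos hj1]
      linarith
    · simp only [if_neg hj1]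
      exact (c2 l a b).1 j (by omega) hj
  · by_cases hj1 : j ≤ 1
    · simp only [if_pos hj1]
      exact (ones_F1 (N := fun l => sn w l + (C + ((i : ℝ) - l) * Gp) * R) htm
        (hch.take h0 hi) hΛ (by
          obtain ⟨p₀, lam, d1, d2, d3, d4⟩ := h.kn
          linarith) hgp HB (fun l x z => hpw l x z) (fun l x z j hj => by
            linarith [hNf l x z j hj, hXn l z]) h.pt (gch_kn h hwB.le) a b hj1
        (by linarith : sn w l - κ * R ≤ sn w l) (by positivity : 0 < e * R)).mono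
          (min_le_right _ _) le_rfl
    · simp only [if_neg hj1]
      exact (pull_qjets htm b.le le_rfl ((c2 l a b).2 j (by omega) hj (sn w l)
        (by nlinarith [b2 l a b]))).mono ((min_le_left _ _).trans (he₁' l b a)) le_rfl

end Pool.CDX
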