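import Pool.Agent.H71.CDX.Cdg

/-!
# The jets of order `≥ 2` of the places of a chain at a point

`src_nat`: a place of slope less than `2`. `RawG`, `LbG`: the rows of a place are not full, labels of a
bounded degree. `thin_at`: the jets of order `≥ 1` of such a place; `src_thin`.
-/

set_option autoImplicit false

namespace Pool.CDX

open Finset Real MvPolynomial
open Pool.Agent.H49.Ent Pool.Agent.H32.Dense Pool.STK Pool.KA Pool.KSAT Pool.K2S Pool.PB Pool.GEN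
open Pool.S6C Pool.RCD Pool.LA91 Pool.OWN68 Pool.CHT Pool.AVG96
open Pool.GRD (LbP)
open Pool.AJW (CfB ctx)
open Pool.AJX (JetX LbX FwX ctxK_few)

variable {m : ℕ} {γ : ∀ J : ℕ, Fam m J → Type} {S : PCl m}
  {y : ∀ (J : ℕ) (F : Fam m J), F.Ω → γ J F} {c : ℕ → Fin m} {r₀ r K : ℕ} {s₀ A B Λ : ℝ}
  {sn : ℝ → ℕ → ℝ} {G : Set ℝ} {g : ℝ} {Sl : ℕ → ℝ}

theorem gch_B1 (h : GCh S (fun J F => ptr F J) y c r₀ r s₀ A B Λ sn G) : B + Λ ≤ 1 := by
  obtain ⟨p₀, lam, d1, d2, d3, d4⟩ := h.kn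
  linarith

/-- The heights of a place exist. -/
theorem gch_exs (h : GCh S (fun J F => ptr F J) y c r₀ r s₀ A B Λ sn G) {w : ℝ} (hw : w ∈ G)
    (hA : A ≤ w) (hB : w < B) {i : ℕ} (h0 : r₀ ≤ i) (hi : i ≤ r) (j : ℕ) (N : ℝ) :
    Exs S (qJet m ((range i).image c) (c i) j w (sn w i) N) := by
  rcases Nat.lt_or_ge i r with h7 | h7
  · obtain ⟨u₁, rd, hrd, hch⟩ := h.ch w hw hA hB
    exact exs_jet (hrd i h0 h7) (hch.att i h0 h7)
  · obtain rfl : i = r := by omega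
    exact (h.att w hw hA hB).exs N

/-- A window of `G` at the distance `M R` before `w`. -/
theorem slpG_win (hS : SlpG sn r₀ r G g Sl) {M κ : ℝ} (hM : 0 ≤ M) (hκ : 0 < κ) (hκ1 : κ ≤ 1) :
    ∃ ρ : ℝ, 0 < ρ ∧ ∀ R : ℝ, 0 < R → R < ρ → ∀ w : ℝ, g - R ≤ w → w ≤ g + R →
      ∃ v ∈ G, w - M * R - κ * R ≤ v ∧ v ≤ w - M * R := by
  obtain ⟨ρ, hρ, H⟩ := hS.gap (κ / (M + 1)) (by positivity)
  refine ⟨ρ / (M + 1), by positivity, fun R hR hRρ w w1 w2 => ?_⟩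
  rw [lt_div_iff₀ (by positivity)] at hRρ
  obtain ⟨v, hv, h1, h2⟩ := H ((M + 1) * R) (by positivity) (by linarith) (w - M * R)
    (by nlinarith) (by nlinarith [mul_nonneg hM hR.le])
  have e1 : κ / (M + 1) * ((M + 1) * R) = κ * R := by
    field_simp
  rw [e1] at h1
  exact ⟨v, hv, h1, h2⟩

/-- The levels between two windows of a box of size `M R`. -/
theorem slpG_lev (hS : SlpG sn r₀ r G g Sl) {M κ : ℝ} (hM : 0 < M) (hκ : 0 < κ) :
    ∃ ρ : ℝ, 0 < ρ ∧ ∀ R : ℝ, 0 < R → R < ρ → ∀ l, r₀ ≤ l → l ≤ r → ∀ v ∈ G, ∀ w ∈ G,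
      g - M * R ≤ v → v ≤ w → w ≤ g + M * R → |sn w l - sn v l - Sl l * (w - v)| ≤ κ * R := by
  have h1 : ∀ l : ℕ, ∃ ρ : ℝ, (r₀ ≤ l → l ≤ r → 0 < ρ) ∧ (r₀ ≤ l → l ≤ r → ∀ t : ℝ, 0 < t →
      t < ρ → ∀ w ∈ G, ∀ v ∈ G, g - t ≤ w → w ≤ v → v ≤ g + t →
        |sn v l - sn w l - Sl l * (v - w)| ≤ κ / M * t) := by
    intro l
    by_cases hl : r₀ ≤ l ∧ l ≤ r
    · obtain ⟨ρ, hρ, H⟩ := hS.sl l hl.1 hl.2 (κ / M) (by positivity)
      exact ⟨ρ, fun _ _ => hρ, fun _ _ => H⟩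
    · exact ⟨0, fun a b => absurd ⟨a, b⟩ hl, fun a b => absurd ⟨a, b⟩ hl⟩
  choose ρf a1 a2 using h1
  obtain ⟨ρ, hρ, h3⟩ := ex_min (r + 1) (fun l => r₀ ≤ l) ρf fun l hl hP => a1 l hP (by omega)
  refine ⟨ρ / M, by positivity, fun R hR hRρ l l0 l1 v hv w hw b1 b2 b3 => ?_⟩
  rw [lt_div_iff₀ hM] at hRρ
  have h4 := a2 l l0 l1 (M * R) (by positivity) (by linarith [h3 l (by omega) l0]) v hv w hw b1 b2
    b3
  have e1 : κ / M * (M * R) = κ * R := by field_simp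
  rwa [e1] at h4

/-- **A place of slope less than `2`.** -/
theorem src_nat (h : GCh S (fun J F => ptr F J) y c r₀ r s₀ A B Λ sn G) (hgA : A < g)
    (hgB : g < B) (hS : SlpG sn r₀ r G g Sl) {i : ℕ} (h0 : r₀ ≤ i) (hi : i ≤ r)
    (h2 : Sl i < 2) (hsrc : ∀ l, r₀ ≤ l → l < i → SrcG S y c r₀ K sn G g l) :
    SrcG S y c r₀ K sn G g i := by
  intro e C he hC
  obtain ⟨C₀, htm⟩ := h.tm
  have hΛ := h.Λ0
  have hA0 := h.A0
  have hB1 := gch_B1 h
  have hS0 := hS.nn i h0 hi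
  obtain ⟨D, hD⟩ : ∃ D, D = 2 - Sl i := ⟨_, rfl⟩
  have hD0 : 0 < D := by linarith
  obtain ⟨M, hM⟩ : ∃ M : ℝ, M = (C + 1) / D := ⟨_, rfl⟩
  have hM0 : 0 < M := by rw [hM]; positivity
  have hDM : D * M = C + 1 := by rw [hM]; field_simp
  obtain ⟨T, hT⟩ : ∃ T : ℝ, T = ((i * (K + 3) : ℕ) : ℝ) := ⟨_, rfl⟩
  have hT0 : 0 ≤ T := by rw [hT]; positivity
  obtain ⟨C₁, hC₁⟩ : ∃ C₁ : ℝ, C₁ = C + Sl i * (M + 1) + 20 := ⟨_, rfl⟩
  have hSM : 0 ≤ Sl i * (M + 1) := by positivity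
  obtain ⟨Cn, κ, ρ, q1, q2, q3, HJ⟩ := jo_at (K := K) h hgA hgB h0 hi hsrc
    (e := e / (2 * (T + 1))) (C := C₁) (Gp := 1) (by positivity) (by linarith) one_pos
  obtain ⟨ρ₁, hρ₁, H1⟩ := slpG_win hS hM0.le one_pos le_rfl
  obtain ⟨ρ₂, hρ₂, H2⟩ := slpG_lev hS (M := M + 2) (κ := 1 / 4) (by linarith) (by norm_num)
  obtain ⟨Z, hZ⟩ : ∃ Z : ℝ, Z = C₁ + i + 31 := ⟨_, rfl⟩
  have hZ0 : 0 < Z := by
    have : (0 : ℝ) ≤ i := Nat.cast_nonneg i
    rw [hZ]; linarith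
  refine ⟨Cn, min κ (1 / 30), min (min ρ ρ₁) (min ρ₂ (min (min ((g - A) / (M + 2)) (B - g))
    (Λ / Z))), q1, lt_min q2 (by norm_num), ?_, ?_⟩
  · refine lt_min (lt_min q3 hρ₁) (lt_min hρ₂ (lt_min (lt_min (div_pos (by linarith)
      (by linarith)) (by linarith)) (by positivity)))
  intro R hR hRρ w hw w1 w2 pw Nf hpw hNf
  have r0 : R < ρ := hRρ.trans_le ((min_le_left _ _).trans (min_le_left _ _))
  have r1 : R < ρ₁ := hRρ.trans_le ((min_le_left _ _).trans (min_le_right _ _))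
  have r2 : R < ρ₂ := hRρ.trans_le ((min_le_right _ _).trans (min_le_left _ _))
  have r3 : R < (g - A) / (M + 2) := hRρ.trans_le ((min_le_right _ _).trans
    ((min_le_right _ _).trans ((min_le_left _ _).trans (min_le_left _ _))))
  have r4 : R < B - g := hRρ.trans_le ((min_le_right _ _).trans
    ((min_le_right _ _).trans ((min_le_left _ _).trans (min_le_right _ _))))
  have r5 : R < Λ / Z := hRρ.trans_le ((min_le_right _ _).trans
    ((min_le_right _ _).trans (min_le_right _ _)))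
  rw [lt_div_iff₀ (by linarith)] at r3
  rw [lt_div_iff₀ hZ0] at r5
  obtain ⟨κ', hκ'⟩ : ∃ κ', κ' = min κ (1 / 30) := ⟨_, rfl⟩
  rw [← hκ'] at hpw ⊢
  have k0 : 0 < κ' := by rw [hκ']; exact lt_min q2 (by norm_num)
  have k1 : κ' ≤ κ := by rw [hκ']; exact min_le_left _ _
  have k2 : κ' ≤ 1 / 30 := by rw [hκ']; exact min_le_right _ _
  have hκR : κ' * R ≤ κ * R := mul_le_mul_of_nonneg_right k1 hR.le
  have hκR2 : κ' * R ≤ 1 / 30 * R := mul_le_mul_of_nonneg_right k2 hR.le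
  obtain ⟨v, hv, v1, v2⟩ := H1 R hR r1 w w1 w2
  rw [one_mul] at v1
  have hvw : v ≤ w := by nlinarith
  have hvA : A ≤ v := by nlinarith
  have hwA : A ≤ w := hvA.trans hvw
  have hwB : w < B := by linarith
  obtain ⟨e₀, he₀, Dg, d1, d2⟩ := HJ R hR r0 w hw w1 w2 pw Nf
    (fun l a b => by linarith [hpw l a b]) hNf
  have hlev := abs_le.1 (H2 R hR r2 i h0 hi v hv w hw (by nlinarith) hvw (by nlinarith))
  have hMR : M * R ≤ w - v := by linarith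
  have hMR' : w - v ≤ (M + 1) * R := by linarith
  have hSv : Sl i * (w - v) ≤ Sl i * (M + 1) * R := by
    have := mul_le_mul_of_nonneg_left hMR' hS0
    linarith
  have hPb : sn w i - Sl i * (M + 1) * R - 1 / 4 * R ≤ sn v i := by linarith [hlev.2]
  obtain ⟨u₁, rd, hrd, hch⟩ := h.ch w hw hwA hwB
  have hgp : 0 < κ' * R := by positivity
  have hi0 : (0 : ℝ) ≤ i := Nat.cast_nonneg i
  have hZR : Z * R = C₁ * R + i * R + 31 * R := by rw [hZ]; ring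
  have hCR : C₁ * R = C * R + Sl i * (M + 1) * R + 20 * R := by rw [hC₁]; ring
  have hli : ∀ l < i, 1 * R ≤ ((i : ℝ) - l) * R ∧ ((i : ℝ) - l) * R ≤ i * R := fun l hl => by
    have e1 : (l : ℝ) + 1 ≤ i := by exact_mod_cast hl
    have e2 : (0 : ℝ) ≤ l := Nat.cast_nonneg l
    exact ⟨mul_le_mul_of_nonneg_right (by linarith) hR.le,
      mul_le_mul_of_nonneg_right (by linarith) hR.le⟩
  have hC1R : 0 ≤ C₁ * R := mul_nonneg (by linarith) hR.le
  have HB : DgB r₀ i (fun l => sn w l) (fun l => sn w l + (C₁ + ((i : ℝ) - l) * 1) * R) Λ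
      (κ' * R) := by
    refine ⟨fun l a b => ?_, fun l a b => ?_, fun l a b l' a' b' => ?_⟩
    · show sn w l + 30 * (κ' * R) ≤ sn w l + (C₁ + ((i : ℝ) - l) * 1) * R
      nlinarith [(hli l b).1]
    · show sn w l + (C₁ + ((i : ℝ) - l) * 1) * R + 30 * (κ' * R) ≤ sn w l + Λ
      nlinarith [(hli l b).2]
    · have e1 : (l' : ℝ) + 1 ≤ l := by exact_mod_cast b'
      show sn w l + (C₁ + ((i : ℝ) - l) * 1) * R - sn w l + 30 * (κ' * R) ≤
        sn w l' + (C₁ + ((i : ℝ) - l') * 1) * R - sn w l'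
      have e2 : 1 * R ≤ ((l : ℝ) - l') * R := mul_le_mul_of_nonneg_right (by linarith) hR.le
      nlinarith
  refine ⟨min e₀ (κ' * R / 8), lt_min he₀ (by linarith), fun j => sn w i + C * R - (j : ℝ) * w,
    fun j _ _ => by linarith, fun j hj2 hj pt hpt => ?_⟩
  have hmin : sn w i - Sl i * (M + 1) * R - 1 / 4 * R ≤ min (sn v i) pt :=
    le_min hPb (by nlinarith)
  refine F1.mono (nat_src (Jm := K + 2) (N := fun l => sn w l + (C₁ + ((i : ℝ) - l) * 1) * R) htm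
    (hch.take h0 hi) hΛ (by linarith) hgp HB (Dg := Dg) d1 he₀ (by positivity) d2
    (fun l a b j M => gch_exs h hw hwA hwB a (by omega) j M)
    (fun j M => gch_exs h hv hvA (by linarith) h0 hi j M) (by linarith) hvw
    (Ni := sn w i + C * R) ?_ (pt := pt) ?_ (fun l a b => ?_) h.pt (gch_kn h hwB.le) hj2 hj
    (by positivity : 0 < e * R / 2)) le_rfl ?_
  · have e1 : D * (M * R) ≤ D * (w - v) := mul_le_mul_of_nonneg_left hMR hD0.le
    have e2 : D * (M * R) = C * R + R := by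
      rw [← mul_assoc, hDM]; ring
    have e3 : D * (w - v) = 2 * (w - v) - Sl i * (w - v) := by rw [hD]; ring
    linarith [hlev.2]
  · nlinarith [hli]
  · show sn w i + C * R + 11 * (κ' * R) ≤ min (sn v i) pt +
      (sn w l + (C₁ + ((i : ℝ) - l) * 1) * R - sn w l)
    nlinarith [(hli l b).1]
  · rw [show ((i * (K + 2 + 1) : ℕ) : ℝ) = T from hT.symm]
    have e1 : T * (e / (2 * (T + 1)) * R) ≤ e * R / 2 := by
      rw [← mul_assoc, mul_div_assoc', div_mul_eq_mul_div, div_le_div_iff₀ (by positivity)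
        (by norm_num)]
      nlinarith [mul_pos he hR, mul_nonneg hT0 (mul_pos he hR).le]
    linarith

end Pool.CDX
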