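import Pool.Agent.H71.CDX.Cdh

/-!
# The rows of a place at a point

`RawG`, `LbG`: the rows of a place are not full; labels of a bounded degree. `lds_at`: the ladder of a
box.
-/

set_option autoImplicit false

namespace Pool.CDX

open Finset Real MvPolynomial
open Pool.Agent.H49.Ent Pool.Agent.H32.Dense Pool.STK Pool.KA Pool.KSAT Pool.K2S Pool.PB Pool.GEN
open Pool.S6C Pool.RCD Pool.LA91 Pool.OWN68 Pool.CHT Pool.AVG96
open Pool.GRD (LbP)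
open Pool.AJW (CfB ctx)
open Pool.AJX (JetX LbX FwX ctxK_few)

variable {m : ℕ} {γ : ∀ J : ℕ, Fam m J → Type} {S : PCl m}
  {y : ∀ (J : ℕ) (F : Fam m J), F.Ω → γ J F} {c : ℕ → Fin m} {r₀ r K : ℕ} {s₀ A B Λ : ℝ}
  {sn : ℝ → ℕ → ℝ} {G : Set ℝ} {g : ℝ} {Sl : ℕ → ℝ}

/-- **The rows of the place `i` are not full** given the exact positions of the places below, in all
small boxes. -/
def RawG (S : PCl m) (c : ℕ → Fin m) (sn : ℝ → ℕ → ℝ) (G : Set ℝ) (g h : ℝ) (i : ℕ) : Prop :=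
  ∀ δ C : ℝ, 0 < δ → 0 < C → ∃ ρ : ℝ, 0 < ρ ∧ ∀ R : ℝ, 0 < R → R < ρ → ∀ w ∈ G, g - R ≤ w →
    w ≤ g + R → ∀ q : ℝ, 0 ≤ q → q ≤ C * R →
      RawN S ((range i).image c) (c i) (sn w i) q h (δ * R)

/-- **Labels of degree `≤ K`** of the places `r₀, …, i`, at the windows near `g`. -/
def LbG (S : PCl m) (c : ℕ → Fin m) (r₀ K : ℕ) (sn : ℝ → ℕ → ℝ) (G : Set ℝ) (g : ℝ) (i : ℕ) :
    Prop :=
  ∃ g₀ ρ : ℝ, 0 < g₀ ∧ 0 < ρ ∧ ∀ w ∈ G, g - ρ ≤ w → w ≤ g + ρ → ∃ E rd : ℕ → ℝ,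
    (∀ l, r₀ ≤ l → l ≤ i → 0 ≤ E l ∧ E l ≤ 1 ∧ 0 ≤ rd l ∧ rd l + g₀ ≤ 1 ∧ 0 ≤ sn w l ∧
      sn w l + E l + g₀ ≤ 1) ∧
    ∀ e : ℝ, 0 < e → Bas S (fun J F A => ∃ (V : Type) (z : PtT F → V) (z' : LnT F → V)
      (g : V → ℕ → MvPolynomial (Option (Fin m)) ℝ),
      LbX F c r₀ (i + 1) K e E w rd (sn w) A z z' g)

/-- **The ladder of a box.** -/
theorem lds_at (h : GCh S (fun J F => ptr F J) y c r₀ r s₀ A B Λ sn G) (hgA : A < g)
    (hgB : g < B) (hS : SlpG sn r₀ r G g Sl) (hr : r₀ ≤ r) {Sb M κ : ℝ}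
    (hSb : ∀ l, r₀ ≤ l → l ≤ r → 1 ≤ Sl l ∧ Sl l ≤ Sb) (hM : 0 < M) (hκ : 0 < κ) :
    ∃ ρ : ℝ, 0 < ρ ∧ ∀ R : ℝ, 0 < R → R < ρ →
      LdS S c r₀ r (fun l w => sn w l) G (g - M * R) (g + M * R) (κ * R) Sl Sb := by
  obtain ⟨ρ₁, hρ₁, H1⟩ := slpG_lev hS hM hκ
  obtain ⟨ρ₂, hρ₂, H2⟩ := hS.gap (κ / M) (by positivity)
  have hA0 := h.A0
  have hB1 := gch_B1 h
  have hΛ := h.Λ0
  refine ⟨min (min ρ₁ (ρ₂ / M)) (min ((g - A) / M) ((B - g) / M)), ?_, fun R hR hRρ => ?_⟩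
  · exact lt_min (lt_min hρ₁ (by positivity)) (lt_min (div_pos (by linarith) hM)
      (div_pos (by linarith) hM))
  have r1 : R < ρ₁ := hRρ.trans_le ((min_le_left _ _).trans (min_le_left _ _))
  have r2 : R < ρ₂ / M := hRρ.trans_le ((min_le_left _ _).trans (min_le_right _ _))
  have r3 : R < (g - A) / M := hRρ.trans_le ((min_le_right _ _).trans (min_le_left _ _))
  have r4 : R < (B - g) / M := hRρ.trans_le ((min_le_right _ _).trans (min_le_right _ _))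
  rw [lt_div_iff₀ hM] at r2 r3 r4
  exact {
    tm := h.tm
    rr := hr
    ch := fun w hw w1 w2 => by
      obtain ⟨u₁, rd, hrd, hch⟩ := h.ch w hw (by linarith) (by linarith)
      exact ⟨u₁, rd, hrd, hch⟩
    exr := fun w hw w1 w2 j N => gch_exs h hw (by linarith) (by linarith) hr le_rfl j N
    b0 := by linarith
    o1 := by linarith
    φ0 := by positivity
    gap := fun x x1 x2 => by
      obtain ⟨u, hu, u1, u2⟩ := H2 (M * R) (by positivity) (by linarith) x x1 x2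
      have e1 : κ / M * (M * R) = κ * R := by field_simp
      rw [e1] at u1
      exact ⟨u, hu, by rw [abs_le]; constructor <;> nlinarith [mul_pos hκ hR]⟩
    sl := fun i i0 i1 v hv v' hv' a1 a2 a3 => H1 R hR r1 i i0 i1 v hv v' hv' a1 a2 a3
    S1 := hSb }

end Pool.CDX
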