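import Pool.Agent.H71.CDX.Cdi

/-!
# The codes of the own paths at a point

`cd_at`: the codes of the orders `≥ 2` of a place of the chain; `all_F1`: the jets to nested digits.
-/

set_option autoImplicit false

namespace Pool.CDX

open Finset Real MvPolynomial
open Pool.Agent.H49.Ent Pool.Agent.H32.Dense Pool.STK Pool.KA Pool.KSAT Pool.K2S Pool.PB Pool.GEN
open Pool.S6C Pool.RCD Pool.LA91 Pool.OWN68 Pool.CHT Pool.AVG96
open Pool.GRD (LbP)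
open Pool.AJW (CfB ctx cod_Fj_p)
open Pool.AJX (JetX LbX FwX ctxK_few)
open Pool.AVG57 (CdC nd)

variable {m : ℕ} {γ : ∀ J : ℕ, Fam m J → Type} {S : PCl m}
  {y : ∀ (J : ℕ) (F : Fam m J), F.Ω → γ J F} {c : ℕ → Fin m} {r₀ r K : ℕ} {s₀ A B Λ : ℝ}
  {sn : ℝ → ℕ → ℝ} {G : Set ℝ} {g : ℝ} {Sl : ℕ → ℝ}

/-- The digits `nd`. -/
theorem nd_lo {n n' : ℕ → ℝ} {w X : ℝ} {l : ℕ} (h0 : X ≤ n l) (h1 : X ≤ n' l) (j : ℕ) :
    X ≤ nd n n' w l j + (j : ℝ) * w := by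
  unfold nd
  split_ifs with h
  · subst h
    push_cast
    linarith
  · linarith

/-- The base knows the time. -/
theorem gch_yT (h : GCh S (fun J F => ptr F J) y c r₀ r s₀ A B Λ sn G) (J : ℕ) (F : Fam m J) :
    ∃ φ : γ J F → ℕ, ∀ ω, F.T ω = φ (y J F ω) := by
  obtain ⟨p₀, lam, -, -, -, h4⟩ := h.kn
  obtain ⟨φ, hφ⟩ := h4 J F
  exact ⟨fun v => (φ v).1, fun ω => by
    show F.T ω = (φ (y J F ω)).1
    rw [hφ ω]⟩

/-- Fewer digits, a larger error. -/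
theorem cdC_mono {U : Type} {κ K j₀ : ℕ} {w a P N θ N' θ' : ℝ} {Q : Qt m U}
    (h : CdC S y c κ K j₀ w a P N θ Q) (hN : N' ≤ N) (hθ : θ ≤ θ') :
    CdC S y c κ K j₀ w a P N' θ' Q := by
  obtain ⟨e₀, he₀, H⟩ := h
  refine ⟨e₀, he₀, fun K₀ E => Bas.mono 0 (H K₀ E) ?_⟩
  rintro J - F A H1 u₀ hu₀ V z z' G' hlb hcf
  obtain ⟨V₁, z₁, h1, h2⟩ := H1 u₀ hu₀ V z z' G' hlb hcf
  have hJ0 : (0 : ℝ) ≤ J := Nat.cast_nonneg J
  refine ⟨V₁, z₁, h1, fun s h3 h4 => (h2 s h3 (h4.trans ?_)).trans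
    (mul_le_mul_of_nonneg_right hθ hJ0)⟩
  exact Real.rpow_le_rpow_of_exponent_le one_le_two (mul_le_mul_of_nonneg_right hN hJ0)

/-- **The codes of the orders `≥ 2` of a place of the chain.** -/
theorem cd_at (h : GCh S (fun J F => ptr F J) y c r₀ r s₀ A B Λ sn G) (hgA : A < g)
    (hgB : g < B) {i : ℕ} (hsrc : SrcG S y c r₀ K sn G g i) {e C : ℝ} (he : 0 < e)
    (hC : 0 < C) :
    ∃ Cn κ ρ : ℝ, 0 < Cn ∧ 0 < κ ∧ 0 < ρ ∧ ∀ R : ℝ, 0 < R → R < ρ →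
    ∀ w ∈ G, g - R ≤ w → w ≤ g + R → ∀ (p : ℕ → ℝ) (D : ℕ → ℕ → ℝ) (N : ℝ),
    (∀ l, r₀ ≤ l → l < i → sn w l - κ * R ≤ p l) → sn w i - κ * R ≤ p i →
    (∀ l, r₀ ≤ l → l < i → ∀ j : ℕ, j ≤ 1 → sn w l + Cn * R ≤ D l j + (j : ℝ) * w) →
    N ≤ sn w i + C * R →
    CdC S y c i K 2 w w (p i) N (e * R) (jetQ m c r₀ i w p D) := by
  obtain ⟨C₀, htm⟩ := h.tm
  obtain ⟨Cn, κ, ρ, q1, q2, q3, H⟩ := hsrc (e / (K + 3)) C (by positivity) hC
  refine ⟨Cn, κ, min ρ (min (g - A) (B - g)), q1, q2,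
    lt_min q3 (lt_min (by linarith) (by linarith)), ?_⟩
  intro R hR hRρ w hw w1 w2 p D N hp hpi hD hN
  have r1 : R < ρ := hRρ.trans_le (min_le_left _ _)
  have r2 : R < g - A := hRρ.trans_le ((min_le_right _ _).trans (min_le_left _ _))
  have r3 : R < B - g := hRρ.trans_le ((min_le_right _ _).trans (min_le_right _ _))
  have hA0 := h.A0
  have hB1 := h.B1
  obtain ⟨e₀, he₀, Dg, d1, d2⟩ := H R hR r1 w hw w1 w2 p D hp hD
  refine cdC_F1 htm (by linarith) le_rfl (by linarith) he₀ (gch_yT h) K 2 (s := Dg)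
    (η := fun _ => e / (K + 3) * R) (fun j h1 h2 => ?_) (fun j h1 h2 => ?_) ?_
  · linarith [d1 j h1 (by omega)]
  · exact d2 j h1 (by omega) (p i) hpi
  · rw [Finset.sum_const, Nat.card_Ico, nsmul_eq_mul]
    have e1 : ((K + 2 - 2 : ℕ) : ℝ) = K := by norm_num
    rw [e1]
    have hK : (0 : ℝ) ≤ K := Nat.cast_nonneg K
    have e2 : (K : ℝ) * (e / (K + 3) * R) = K / (K + 3) * (e * R) := by ring
    rw [e2]
    have e3 : (K : ℝ) / (K + 3) < 1 := by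
      rw [div_lt_one (by positivity)]
      linarith
    have := mul_lt_mul_of_pos_right e3 (mul_pos he hR)
    linarith

/-- **The jets to nested digits** over labels of the precisions `s`. -/
theorem all_F1 {C₀ : ℝ} (htm : TmC S C₀) {α : ∀ J : ℕ, Fam m J → Type}
    {f : ∀ (J : ℕ) (F : Fam m J), F.Ω → α J F} {w u₁ lam gp : ℝ} {s rd N pw : ℕ → ℝ}
    (hch : Chn S c r₀ r w w u₁ s rd) (hlam : 0 < lam) (hl1 : w + lam ≤ 1) (hgp : 0 < gp)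
    (H : DgB r₀ r s N lam gp) (hpw : ∀ l, r₀ ≤ l → l < r → s l - gp ≤ pw l) {Jm : ℕ}
    {Nf : ℕ → ℕ → ℝ} (hNf : ∀ l, r₀ ≤ l → l < r → ∀ j ≤ Jm, N l ≤ Nf l j + (j : ℕ) * w)
    (hf : ∀ (J : ℕ) (F : Fam m J), ∃ φ : α J F → PtT F, ∀ ω, ptr F J ω = φ (f J F ω))
    (hy : Kn ((range r₀).image c) (w + lam) lam y) {h : ℝ} (hh : 0 < h) :
    F1 S f (vg w) y (qJets m c r₀ r Jm (fun _ _ => w) (fun l _ => pw l) Nf)
      (qJets m c r₀ r Jm (fun _ _ => w) (fun l _ => s l) (fun l j => N l - (j : ℕ) * w))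
      (gp / 8) h := by
  have hT : (0 : ℝ) < (r * (Jm + 1) : ℕ) + 1 := by positivity
  refine (F1.qjets htm (η := h / ((r * (Jm + 1) : ℕ) + 1)) (by positivity)
    fun i h0 hi j hj => ?_).mono le_rfl ?_
  · refine pull_qjets1 htm h0 hi hj (chg htm (hch.take h0 hi.le) hlam hl1 hgp (H.take hi.le)
      (fun l a b => hpw l a (by omega)) (j := j)
      (fun l a b j' hj' => hNf l a (by omega) j' (by omega)) (k := c i) (w₁ := w) (w₂ := w)
      (p₁ := pw i) (p₂ := s i) (N₁ := Nf i j) (N₂ := N i - (j : ℕ) * w) le_rfl le_rfl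
      (by linarith [hNf i h0 hi j hj]) ?_ (fun l a b => ?_) hf hy (by positivity))
    · have : s i - gp ≤ min (pw i) (s i) := le_min (hpw i h0 hi) (by linarith)
      linarith [H.hi i h0 hi]
    · have : s i - gp ≤ min (pw i) (s i) := le_min (hpw i h0 hi) (by linarith)
      linarith [H.ne i h0 hi l a b]
  · rw [mul_div_assoc', div_le_iff₀ hT]
    nlinarith

end Pool.CDX
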