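import Pool.Agent.H71.CDX.Cdj

/-!
# The inputs of codes of the closed gradient

`cds_at`: the codes of the places of the chain.
-/

set_option autoImplicit false

namespace Pool.CDX

open Finset Real MvPolynomial
open Pool.Agent.H49.Ent Pool.Agent.H32.Dense Pool.STK Pool.KA Pool.KSAT Pool.K2S Pool.PB Pool.GEN
open Pool.S6C Pool.RCD Pool.LA91 Pool.OWN68 Pool.CHT Pool.AVG96
open Pool.AVG57 (CdC nd ddN ntN)

variable {m : ℕ} {γ : ∀ J : ℕ, Fam m J → Type} {S : PCl m}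
  {y : ∀ (J : ℕ) (F : Fam m J), F.Ω → γ J F} {c : ℕ → Fin m} {r₀ r K : ℕ} {s₀ A B Λ : ℝ}
  {sn : ℝ → ℕ → ℝ} {G : Set ℝ} {g : ℝ} {Sl : ℕ → ℝ}

/-- **The codes of the places `l ≤ v`** with digits which are large compared with the digits of the
places above. -/
theorem cds_at (h : GCh S (fun J F => ptr F J) y c r₀ r s₀ A B Λ sn G) (hgA : A < g)
    (hgB : g < B) {e C γ₀ : ℝ} (he : 0 < e) (hC : 0 < C) (hγ : 0 < γ₀) : ∀ n v : ℕ, n ≤ v →
    (∀ l, r₀ ≤ l → l ≤ v → SrcG S y c r₀ K sn G g l) →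
    ∃ D : ℕ → ℝ, (∀ l, v - n ≤ l → l ≤ v → C ≤ D l) ∧
      (∀ l, v - n ≤ l → l < v → D (l + 1) + γ₀ ≤ D l) ∧
    ∃ Cm κ ρ : ℝ, 0 < Cm ∧ 0 < κ ∧ 0 < ρ ∧ (∀ l, v - n ≤ l → l ≤ v → D l ≤ Cm) ∧
    ∀ R : ℝ, 0 < R → R < ρ →
    ∀ w ∈ G, g - R ≤ w → w ≤ g + R → ∀ p n₀ n' : ℕ → ℝ,
    (∀ l, r₀ ≤ l → l ≤ v → sn w l - κ * R ≤ p l) →
    (∀ l, r₀ ≤ l → v - n ≤ l → l ≤ v → sn w l + (D l - 1) * R ≤ n₀ l ∧ n₀ l ≤ sn w l + D l * R ∧
      n' l = n₀ l) →
    (∀ l, r₀ ≤ l → l < v - n → sn w l + Cm * R ≤ n₀ l ∧ n' l = n₀ l) →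
    ∀ l, r₀ ≤ l → v - n ≤ l → l ≤ v →
      CdC S y c l K 2 w w (p l) (n' l) (e * R) (jetQ m c r₀ l w p (nd n₀ n' w)) := by
  intro n
  induction n with
  | zero =>
    intro v _ hsrc
    by_cases hv : r₀ ≤ v
    · obtain ⟨Cn, κ, ρ, q1, q2, q3, H⟩ := cd_at h hgA hgB (hsrc v hv le_rfl) he hC
      refine ⟨fun _ => C, fun _ _ _ => le_rfl, fun l a b => by omega, max Cn C, κ, ρ,
        lt_max_of_lt_left q1, q2, q3, fun _ _ _ => le_max_right _ _, ?_⟩
      intro R hR hRρ w hw w1 w2 p n₀ n' hp hn hn2 l a b b'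
      obtain rfl : l = v := by omega
      have hm : Cn * R ≤ max Cn C * R := mul_le_mul_of_nonneg_right (le_max_left _ _) hR.le
      refine H R hR hRρ w hw w1 w2 p (nd n₀ n' w) (n' l) (fun l' a' b' => hp l' a' b'.le)
        (hp l a le_rfl) (fun l' a' b' j _ => ?_) ?_
      · obtain ⟨h1, h2⟩ := hn2 l' a' (by omega)
        exact nd_lo (by linarith) (by rw [h2]; linarith) j
      · obtain ⟨-, h1, h2⟩ := hn l a (by omega) le_rfl
        rw [h2]
        exact h1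
    · exact ⟨fun _ => C, fun _ _ _ => le_rfl, fun l a b => by omega, C, 1, 1, hC, one_pos,
        one_pos, fun _ _ _ => le_rfl, fun R _ _ w _ _ _ p n₀ n' _ _ _ l a b b' => by omega⟩
  | succ n ih =>
    intro v hnv hsrc
    obtain ⟨D, D1, D2, Cm, κ, ρ, q1, q2, q3, D3, H⟩ := ih v (by omega) hsrc
    obtain ⟨i, hi⟩ : ∃ i, i = v - (n + 1) := ⟨_, rfl⟩
    have hi1 : v - n = i + 1 := by omega
    rw [hi1] at D1 D2 D3 H
    obtain ⟨Di, hDi⟩ : ∃ Di, Di = Cm + γ₀ + C + 1 := ⟨_, rfl⟩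
    have hnew : ∃ Cn κ' ρ' : ℝ, 0 < Cn ∧ 0 < κ' ∧ 0 < ρ' ∧ (r₀ ≤ i → ∀ R : ℝ, 0 < R → R < ρ' →
        ∀ w ∈ G, g - R ≤ w → w ≤ g + R → ∀ (p : ℕ → ℝ) (D : ℕ → ℕ → ℝ) (N : ℝ),
        (∀ l, r₀ ≤ l → l < i → sn w l - κ' * R ≤ p l) → sn w i - κ' * R ≤ p i →
        (∀ l, r₀ ≤ l → l < i → ∀ j : ℕ, j ≤ 1 → sn w l + Cn * R ≤ D l j + (j : ℝ) * w) →
        N ≤ sn w i + Di * R →
        CdC S y c i K 2 w w (p i) N (e * R) (jetQ m c r₀ i w p D)) := by
      by_cases hir : r₀ ≤ i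
      · obtain ⟨Cn, κ', ρ', a1, a2, a3, a4⟩ := cd_at h hgA hgB (hsrc i hir (by omega)) he
          (show 0 < Di by rw [hDi]; positivity)
        exact ⟨Cn, κ', ρ', a1, a2, a3, fun _ => a4⟩
      · exact ⟨1, 1, 1, one_pos, one_pos, one_pos, fun h9 => absurd h9 hir⟩
    obtain ⟨Cn, κ', ρ', a1, a2, a3, a4⟩ := hnew
    obtain ⟨Cx, hCx⟩ : ∃ Cx, Cx = max Cn (max Cm Di) := ⟨_, rfl⟩
    have c1 : Cn ≤ Cx := by rw [hCx]; exact le_max_left _ _
    have c2 : Cm ≤ Cx := by rw [hCx]; exact (le_max_left _ _).trans (le_max_right _ _)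
    have c3 : Di ≤ Cx := by rw [hCx]; exact (le_max_right _ _).trans (le_max_right _ _)
    refine ⟨fun l => if l ≤ i then Di else D l, fun l a b => ?_, fun l a b => ?_, Cx,
      min κ κ', min ρ ρ', a1.trans_le c1, lt_min q2 a2, lt_min q3 a3, fun l a b => ?_, ?_⟩
    · by_cases h1 : l ≤ i
      · simp only [if_pos h1]
        rw [hDi]
        linarith
      · simp only [if_neg h1]
        exact D1 l (by omega) b
    · by_cases h1 : l ≤ i
      · have h2 : ¬ l + 1 ≤ i := by omega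
        simp only [if_pos h1, if_neg h2]
        have := D3 (l + 1) (by omega) (by omega)
        rw [hDi]
        linarith
      · have h2 : ¬ l + 1 ≤ i := by omega
        simp only [if_neg h1, if_neg h2]
        exact D2 l (by omega) b
    · by_cases h1 : l ≤ i
      · simp only [if_pos h1]
        exact c3
      · simp only [if_neg h1]
        exact (D3 l (by omega) b).trans c2
    intro R hR hRρ w hw w1 w2 p n₀ n' hp hn hn2 l a b b'
    have k1 : min κ κ' * R ≤ κ * R := mul_le_mul_of_nonneg_right (min_le_left _ _) hR.le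
    have k2 : min κ κ' * R ≤ κ' * R := mul_le_mul_of_nonneg_right (min_le_right _ _) hR.le
    have c1R := mul_le_mul_of_nonneg_right c1 hR.le
    have c2R := mul_le_mul_of_nonneg_right c2 hR.le
    rcases Nat.lt_or_ge i l with h1 | h1
    · refine H R hR (hRρ.trans_le (min_le_left _ _)) w hw w1 w2 p n₀ n'
        (fun l' x z => by linarith [hp l' x z]) (fun l' x z z' => ?_) (fun l' x z => ?_) l a
        (by omega) b'
      · have h2 := hn l' x (by omega) z'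
        simp only [if_neg (show ¬ l' ≤ i by omega)] at h2
        exact h2
      · rcases Nat.lt_or_ge l' i with h3 | h3
        · obtain ⟨h4, h5⟩ := hn2 l' x (by omega)
          exact ⟨by linarith, h5⟩
        · obtain rfl : l' = i := by omega
          obtain ⟨h4, h5, h6⟩ := hn l' x (by omega) (by omega)
          simp only [if_pos (le_refl l')] at h4
          refine ⟨?_, h6⟩
          have : Cm * R ≤ (Di - 1) * R := mul_le_mul_of_nonneg_right (by rw [hDi]; linarith) hR.le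
          linarith
    · obtain rfl : l = i := by omega
      obtain ⟨h4, h5, h6⟩ := hn l a (by omega) (by omega)
      simp only [if_pos (le_refl l)] at h5
      refine a4 a R hR (hRρ.trans_le (min_le_right _ _)) w hw w1 w2 p (nd n₀ n' w) (n' l)
        (fun l' x z => by linarith [hp l' x (by omega)]) (by linarith [hp l a b'])
        (fun l' x z j _ => ?_) (by rw [h6]; exact h5)
      obtain ⟨h7, h8⟩ := hn2 l' x (by omega)
      exact nd_lo (by linarith) (by rw [h8]; linarith) j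

end Pool.CDX
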