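import Pool.Agent.H71.CDX.Cdl
import Pool.Agent.H17.COR.Atq

/-!
# Affine labels of a class over one base coordinate

`aff_all`: the affine labels of `u` over `y` and of `v` over `y`, `u` in a subclass, at countably many
good windows. `gdw_near`: the windows near a point are good. `afG_two`: `AfG` for the places `1`, `2`.
-/

set_option autoImplicit false

namespace Pool.CDX

open Finset Real MvPolynomial
open Pool.Agent.H49.Ent Pool.Agent.H32.Dense Pool.STK Pool.KA Pool.KSAT Pool.K2S Pool.PB Pool.GEN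
open Pool.S6C Pool.RCD Pool.LA91 Pool.OWN68 Pool.CHT Pool.AVG96
open Pool.GRD (LbP)
open Pool.MIC6 (ActF her_sub)
open Pool.OWN17 (Gdw cht_cls cnt_L ChA cpl)

variable {m : ℕ}

/-- **Affine labels in a subclass**, at countably many good windows. -/
theorem aff_all {S : PCl m} (hS : S.Ne) {C₀ : ℝ} (hC₀ : 0 ≤ C₀) (htm : TmC S C₀)
    {L : Finset (Fin m) → Fin m → ℝ → ℝ → ℝ} (hL : LamW S L) {y u v : Fin m} (hyu : y ≠ u)
    (hact : ActF S y) {G : Set ℝ} (hG : G.Countable) (hGd : ∀ t ∈ G, Gdw L y u v t) :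
    ∃ S' : PCl m, S'.Ne ∧
      (∀ (τ : ℝ) (J : ℕ) (F : Fam m J) (A : F.Ω → Prop), S'.St τ J F A → S.St τ J F A) ∧
      ∀ t ∈ G, AffL S' {y} u t (L {y} u t t) ∧ AffL S' {y, u} v t (L {y, u} v t t) := by
  classical
  rcases G.eq_empty_or_nonempty with he | hne
  · exact ⟨S, hS, fun _ _ _ _ h => h, fun t ht => by
      rw [he] at ht
      exact ht.elim⟩
  obtain ⟨f, hf⟩ := hG.exists_eq_range hne
  obtain ⟨pr, hpr⟩ : ∃ pr : ℕ → ℕ × ℕ, Function.Surjective pr :=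
    ⟨Nat.unpair, Nat.surjective_unpair⟩
  obtain ⟨S', h1, h2, h3⟩ := her_sub hS (fun n J F A => ∃ a b : LnT F → Fin 4 → ℝ,
      ChA F y y u ⌊f (pr n).1 * J⌋₊ ⌊(L {y} u (f (pr n).1) (f (pr n).1) -
        1 / ((pr n).2 + 1)) * J⌋₊ ⌊1 / ((pr n).2 + 1 : ℝ) * J⌋₊ a A ∧
      ChA F y u v ⌊f (pr n).1 * J⌋₊ ⌊(L {y, u} v (f (pr n).1) (f (pr n).1) -
        1 / ((pr n).2 + 1)) * J⌋₊ ⌊1 / ((pr n).2 + 1 : ℝ) * J⌋₊ b A)
    (fun n J F A B hB hA => by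
      obtain ⟨a, b, ha, hb⟩ := hA
      exact ⟨a, b, ha.sub hB, hb.sub hB⟩) (fun n => by
      have ht : f (pr n).1 ∈ G := by
        rw [hf]
        exact ⟨_, rfl⟩
      refine ⟨25600, Bas.mono 0 (cht_cls hS hC₀ htm hL hyu hact (hGd _ ht)
        (e := 1 / ((pr n).2 + 1)) (by positivity)) ?_⟩
      rintro J - F A ⟨a, b, B, q1, q2, q3, -, q5⟩
      exact ⟨B, q1, q2, a, b, q3, q5⟩)
  have key : ∀ t ∈ G, ∀ e : ℝ, 0 < e → ∃ n₀ : ℕ, 1 / ((n₀ : ℝ) + 1) ≤ e ∧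
      Bas S' (fun J F A => ∃ a b : LnT F → Fin 4 → ℝ,
        ChA F y y u ⌊t * J⌋₊ ⌊(L {y} u t t - 1 / ((n₀ : ℝ) + 1)) * J⌋₊
          ⌊1 / ((n₀ : ℝ) + 1) * J⌋₊ a A ∧
        ChA F y u v ⌊t * J⌋₊ ⌊(L {y, u} v t t - 1 / ((n₀ : ℝ) + 1)) * J⌋₊
          ⌊1 / ((n₀ : ℝ) + 1) * J⌋₊ b A) := by
    intro t ht e he
    rw [hf] at ht
    obtain ⟨i, rfl⟩ := ht
    obtain ⟨n₀, hn₀⟩ := exists_nat_ge (1 / e)
    obtain ⟨n, hn⟩ := hpr (i, n₀)
    have h4 := h3 n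
    rw [hn] at h4
    simp only at h4
    refine ⟨n₀, ?_, h4⟩
    rw [div_le_iff₀ (by positivity)]
    rw [div_le_iff₀ he] at hn₀
    nlinarith
  refine ⟨S', h1, h2, fun t ht => ⟨fun e he => ?_, fun e he => ?_⟩⟩
  · obtain ⟨n₀, hn, hb⟩ := key t ht e he
    refine Bas.mono 0 hb ?_
    rintro J - F A ⟨a, b, ha, -⟩
    obtain ⟨z, hz⟩ := ha.lb1
    exact ⟨_, z, a, cpl y y, hz.mono (Finset.Subset.refl _) le_rfl (Nat.floor_le_floor
      (mul_le_mul_of_nonneg_right (by linarith) (Nat.cast_nonneg J)))⟩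
  · obtain ⟨n₀, hn, hb⟩ := key t ht e he
    refine Bas.mono 0 hb ?_
    rintro J - F A ⟨a, b, -, hb⟩
    obtain ⟨z, hz⟩ := hb.lb
    exact ⟨_, z, b, cpl y u, hz.mono (Finset.Subset.refl _) le_rfl (Nat.floor_le_floor
      (mul_le_mul_of_nonneg_right (by linarith) (Nat.cast_nonneg J)))⟩

theorem AfG.sub {S S' : PCl m} {c : ℕ → Fin m} {sn : ℝ → ℕ → ℝ} {G : Set ℝ} {g : ℝ} {i : ℕ}
    (h : AfG S c sn G g i) (hs : ∀ (τ : ℝ) (J : ℕ) (F : Fam m J) (A : F.Ω → Prop),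
      S'.St τ J F A → S.St τ J F A) : AfG S' c sn G g i := fun κ hκ => by
  obtain ⟨ρ, hρ, H⟩ := h κ hκ
  refine ⟨ρ, hρ, fun R hR hRρ w hw w1 w2 => ?_⟩
  obtain ⟨b, p, h1, h2, h3⟩ := H R hR hRρ w hw w1 w2
  exact ⟨b, p, h1, h2, h3.sub hs⟩

/-- **Affine labels at a dense set of windows.** -/
theorem afG_of {S : PCl m} {c : ℕ → Fin m} {r₀ r i : ℕ} {sn : ℝ → ℕ → ℝ} {G : Set ℝ} {g : ℝ}
    {Sl : ℕ → ℝ} (hS : SlpG sn r₀ r G g Sl) (h0 : r₀ ≤ i) (hi : i ≤ r) {T : Set ℝ} {L : ℝ → ℝ}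
    (hL : ∀ a b, a ≤ b → L a ≤ L b) {ρ₀ : ℝ} (hρ₀ : 0 < ρ₀)
    (hLs : ∀ w ∈ G, g - ρ₀ ≤ w → w ≤ g + ρ₀ → sn w i = L w)
    (hT : ∀ a b : ℝ, g - ρ₀ ≤ a → a < b → b ≤ g + ρ₀ → ∃ t ∈ T, a < t ∧ t < b)
    (hA : ∀ t ∈ T, AffL S ((range i).image c) (c i) t (L t)) : AfG S c sn G g i := by
  intro κ hκ
  have hS0 := hS.nn i h0 hi
  obtain ⟨κ₁, hκ₁⟩ : ∃ κ₁, κ₁ = min (κ / (4 * (Sl i + 1))) (1 / 2) := ⟨_, rfl⟩
  have k0 : 0 < κ₁ := by rw [hκ₁]; positivity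
  have k1 : κ₁ ≤ 1 / 2 := by rw [hκ₁]; exact min_le_right _ _
  have k2 : Sl i * (2 * κ₁) ≤ κ / 2 := by
    have h1 : κ₁ ≤ κ / (4 * (Sl i + 1)) := by rw [hκ₁]; exact min_le_left _ _
    calc Sl i * (2 * κ₁) ≤ (Sl i + 1) * (2 * κ₁) :=
          mul_le_mul_of_nonneg_right (by linarith) (by positivity)
      _ ≤ (Sl i + 1) * (2 * (κ / (4 * (Sl i + 1)))) :=
          mul_le_mul_of_nonneg_left (by linarith) (by positivity)
      _ = κ / 2 := by field_simp; ring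
  obtain ⟨ρ₁, hρ₁, H1⟩ := slpG_win hS k0.le k0 (by linarith)
  obtain ⟨ρ₂, hρ₂, H2⟩ := slpG_lev hS (M := 2) (κ := κ / 2) (by norm_num) (by positivity)
  refine ⟨min (min ρ₁ ρ₂) (ρ₀ / 2), by positivity, fun R hR hRρ w hw w1 w2 => ?_⟩
  have r1 : R < ρ₁ := hRρ.trans_le ((min_le_left _ _).trans (min_le_left _ _))
  have r2 : R < ρ₂ := hRρ.trans_le ((min_le_left _ _).trans (min_le_right _ _))
  have r3 : R < ρ₀ / 2 := hRρ.trans_le (min_le_right _ _)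
  obtain ⟨v, hv, v1, v2⟩ := H1 R hR r1 w w1 w2
  have hκR : 0 < κ₁ * R := by positivity
  have hκR2 : κ₁ * R ≤ 1 / 2 * R := mul_le_mul_of_nonneg_right k1 hR.le
  obtain ⟨t, ht, t1, t2⟩ := hT v w (by linarith) (by linarith) (by linarith)
  refine ⟨t, L t, t2.le, ?_, hA t ht⟩
  have h1 := (abs_le.1 (H2 R hR r2 i h0 hi v hv w hw (by linarith) (by linarith)
    (by linarith))).2
  have h2 := hL v t t1.le
  rw [← hLs v hv (by linarith) (by linarith)] at h2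
  have h3 : Sl i * (w - v) ≤ Sl i * (2 * κ₁ * R) := mul_le_mul_of_nonneg_left (by linarith) hS0
  have h4 : Sl i * (2 * κ₁ * R) = Sl i * (2 * κ₁) * R := by ring
  have h5 := mul_le_mul_of_nonneg_right k2 hR.le
  linarith

/-- **The windows near a point are good** where the numbers are continuous. -/
theorem gdw_near {S : PCl m} {L : Finset (Fin m) → Fin m → ℝ → ℝ → ℝ} (hL : LamW S L)
    {y u v : Fin m} {r₀ r i : ℕ} {sn : ℝ → ℕ → ℝ} {G : Set ℝ} {g : ℝ} {Sl : ℕ → ℝ}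
    (hS : SlpG sn r₀ r G g Sl) (hgG : g ∈ G) (h0 : r₀ ≤ i) (hi : i + 1 ≤ r) {ρ₀ : ℝ}
    (hρ₀ : 0 < ρ₀)
    (h1 : ∀ w ∈ G, g - ρ₀ ≤ w → w ≤ g + ρ₀ → sn w i = L {y} u w w)
    (h2 : ∀ w ∈ G, g - ρ₀ ≤ w → w ≤ g + ρ₀ → sn w (i + 1) = L {y, u} v w w) (hg0 : 0 < g)
    (hu : g < sn g i) (hv : g < sn g (i + 1)) (hu1 : sn g i < 1) :
    ∃ ρ : ℝ, 0 < ρ ∧ ρ ≤ ρ₀ ∧ ∀ t : ℝ, g - ρ < t → t < g + ρ →
      ContinuousAt (fun W => L {y} u W W) t → ContinuousAt (fun W => L {y, u} v W W) t →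
      Gdw L y u v t := by
  have hg1 := hS.gt i h0 (by omega)
  have hS2 := hS.nn (i + 1) (by omega) hi
  obtain ⟨σ, hσ⟩ : ∃ σ, σ = min (Sl i - 1) 1 := ⟨_, rfl⟩
  have hσ0 : 0 < σ := by rw [hσ]; exact lt_min (by linarith) one_pos
  have hσ1 : σ ≤ 1 := by rw [hσ]; exact min_le_right _ _
  have hσ2 : σ ≤ Sl i - 1 := by rw [hσ]; exact min_le_left _ _
  obtain ⟨M, hM⟩ : ∃ M : ℝ, M = Sl i + Sl (i + 1) + 2 := ⟨_, rfl⟩
  have hM0 : 0 < M := by linarith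
  obtain ⟨κ, hκ⟩ : ∃ κ, κ = σ / (64 * M) := ⟨_, rfl⟩
  have hκ0 : 0 < κ := by rw [hκ]; positivity
  have hMκ : M * κ = σ / 64 := by rw [hκ]; field_simp
  have hκ1 : κ ≤ 1 / 64 := by
    have : 1 * κ ≤ M * κ := mul_le_mul_of_nonneg_right (by linarith) hκ0.le
    linarith
  obtain ⟨ρ₁, hρ₁, H1⟩ := hS.sl i h0 (by omega) (σ / 64) (by positivity)
  obtain ⟨ρ₂, hρ₂, H2⟩ := hS.sl (i + 1) (by omega) hi (1 / 64) (by norm_num)
  obtain ⟨ρ₃, hρ₃, H3⟩ := hS.gap κ hκ0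
  obtain ⟨d, hd0, d1, d2, d3, d4⟩ : ∃ d : ℝ, 0 < d ∧ g + d ≤ sn g i ∧ g + d ≤ sn g (i + 1) ∧
      sn g i + d ≤ 1 ∧ d ≤ g := by
    refine ⟨min (min (sn g i - g) (sn g (i + 1) - g)) (min (1 - sn g i) g), ?_, ?_, ?_, ?_, ?_⟩
    · exact lt_min (lt_min (by linarith) (by linarith)) (lt_min (by linarith) hg0)
    · linarith [(min_le_left (min (sn g i - g) (sn g (i + 1) - g)) (min (1 - sn g i) g)).trans
        (min_le_left _ _)]
    · linarith [(min_le_left (min (sn g i - g) (sn g (i + 1) - g)) (min (1 - sn g i) g)).trans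
        (min_le_right _ _)]
    · linarith [(min_le_right (min (sn g i - g) (sn g (i + 1) - g)) (min (1 - sn g i) g)).trans
        (min_le_left _ _)]
    · exact (min_le_right _ _).trans (min_le_right _ _)
  obtain ⟨t₀, ht₀, t1, t2, t3, t4, t5⟩ : ∃ t₀ : ℝ, 0 < t₀ ∧ t₀ < ρ₁ ∧ t₀ < ρ₂ ∧ t₀ < ρ₃ ∧
      t₀ ≤ ρ₀ ∧ (M + 2) * t₀ ≤ d / 2 := by
    refine ⟨min (min (ρ₁ / 2) (ρ₂ / 2)) (min (ρ₃ / 2) (min ρ₀ (d / (2 * (M + 2))))),
      by positivity, ?_, ?_, ?_, ?_, ?_⟩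
    · exact lt_of_le_of_lt ((min_le_left _ _).trans (min_le_left _ _)) (by linarith)
    · exact lt_of_le_of_lt ((min_le_left _ _).trans (min_le_right _ _)) (by linarith)
    · exact lt_of_le_of_lt ((min_le_right _ _).trans (min_le_left _ _)) (by linarith)
    · exact (min_le_right _ _).trans ((min_le_right _ _).trans (min_le_left _ _))
    · have h5 : min (min (ρ₁ / 2) (ρ₂ / 2)) (min (ρ₃ / 2) (min ρ₀ (d / (2 * (M + 2))))) ≤
          d / (2 * (M + 2)) :=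
        (min_le_right _ _).trans ((min_le_right _ _).trans (min_le_right _ _))
      refine (mul_le_mul_of_nonneg_left h5 (by linarith)).trans (le_of_eq ?_)
      field_simp
  have hκt : κ * t₀ ≤ 1 / 64 * t₀ := mul_le_mul_of_nonneg_right hκ1 ht₀.le
  have hκt0 : 0 < κ * t₀ := by positivity
  refine ⟨κ * t₀, by positivity, by linarith, fun t ta tb hcu hcv => ?_⟩
  -- the windows of `G` around `t`
  obtain ⟨v₁, hv₁, v11, v12⟩ := H3 t₀ ht₀ t3 t (by linarith) (by linarith)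
  obtain ⟨v₂, hv₂, v21, v22⟩ := H3 t₀ ht₀ t3 (t + κ * t₀) (by linarith) (by linarith)
  obtain ⟨a₀, ha₀, a01, a02⟩ := H3 t₀ ht₀ t3 (g + t₀) (by linarith) (by linarith)
  have hS0 : 0 ≤ Sl i := by linarith
  have lowA : ∀ w ∈ G, g - t₀ ≤ w → w ≤ g + t₀ → sn g i - (M + 1) * t₀ ≤ sn w i := by
    intro w hw w1 w2
    rcases le_total w g with h5 | h5
    · have h6 := (abs_le.1 (H1 t₀ ht₀ t1 w hw g hgG w1 h5 (by linarith))).2
      have h7 : Sl i * (g - w) ≤ Sl i * t₀ := mul_le_mul_of_nonneg_left (by linarith) hS0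
      nlinarith [mul_pos hσ0 ht₀]
    · have h6 := (abs_le.1 (H1 t₀ ht₀ t1 g hgG w hw (by linarith) h5 w2)).1
      have h7 : 0 ≤ Sl i * (w - g) := mul_nonneg hS0 (by linarith)
      nlinarith [mul_pos hσ0 ht₀]
  have lowB : ∀ w ∈ G, g - t₀ ≤ w → w ≤ g + t₀ → sn g (i + 1) - (M + 1) * t₀ ≤
      sn w (i + 1) := by
    intro w hw w1 w2
    rcases le_total w g with h5 | h5
    · have h6 := (abs_le.1 (H2 t₀ ht₀ t2 w hw g hgG w1 h5 (by linarith))).2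
      have h7 : Sl (i + 1) * (g - w) ≤ Sl (i + 1) * t₀ :=
        mul_le_mul_of_nonneg_left (by linarith) hS2
      nlinarith
    · have h6 := (abs_le.1 (H2 t₀ ht₀ t2 g hgG w hw (by linarith) h5 w2)).1
      have h7 : 0 ≤ Sl (i + 1) * (w - g) := mul_nonneg hS2 (by linarith)
      nlinarith
  -- the number at `v₂`
  have upA : sn v₂ i ≤ sn g i + Sl i * (2 * (κ * t₀)) + σ / 64 * t₀ := by
    rcases le_total v₂ g with h5 | h5
    · have h6 := (abs_le.1 (H1 t₀ ht₀ t1 v₂ hv₂ g hgG (by linarith) h5 (by linarith))).1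
      have h7 : 0 ≤ Sl i * (g - v₂) := mul_nonneg hS0 (by linarith)
      have h8 : 0 ≤ Sl i * (2 * (κ * t₀)) := by positivity
      linarith
    · have h6 := (abs_le.1 (H1 t₀ ht₀ t1 g hgG v₂ hv₂ (by linarith) h5 (by linarith))).2
      have h7 : Sl i * (v₂ - g) ≤ Sl i * (2 * (κ * t₀)) :=
        mul_le_mul_of_nonneg_left (by linarith) hS0
      linarith
  have hMS : Sl i * (2 * (κ * t₀)) + 2 * (κ * t₀) ≤ σ / 32 * t₀ := by
    have h5 : (Sl i + 1) * (κ * t₀) ≤ M * (κ * t₀) :=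
      mul_le_mul_of_nonneg_right (by linarith) hκt0.le
    have h6 : M * (κ * t₀) = σ / 64 * t₀ := by rw [← mul_assoc, hMκ]
    linarith
  have lt1 : L {y} u v₁ v₁ ≤ L {y} u t t := hL.mono _ _ _ _ _ _ _ (Finset.Subset.refl _) v12 v12
  have lt2 : L {y} u t t ≤ L {y} u v₂ v₂ :=
    hL.mono _ _ _ _ _ _ _ (Finset.Subset.refl _) (by linarith) (by linarith)
  have lt3 : L {y, u} v v₁ v₁ ≤ L {y, u} v t t :=
    hL.mono _ _ _ _ _ _ _ (Finset.Subset.refl _) v12 v12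
  rw [← h1 v₁ hv₁ (by linarith) (by linarith)] at lt1
  rw [← h1 v₂ hv₂ (by linarith) (by linarith)] at lt2
  rw [← h2 v₁ hv₁ (by linarith) (by linarith)] at lt3
  have m1 := lowA v₁ hv₁ (by linarith) (by linarith)
  have m2 := lowB v₁ hv₁ (by linarith) (by linarith)
  have hσt : 0 < σ * t₀ := by positivity
  have hσt1 : σ * t₀ ≤ t₀ := by nlinarith
  have eM : (M + 2) * t₀ = (M + 1) * t₀ + t₀ := by ring
  have hMt : 0 < M * t₀ := by positivity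
  refine ⟨by linarith, hcu, hcv, by linarith, by linarith, by linarith, a₀, a₀ + σ / 16 * t₀,
    by linarith, by linarith, by linarith, ?_⟩
  rw [← h1 a₀ ha₀ (by linarith) (by linarith)]
  have h6 := (abs_le.1 (H1 t₀ ht₀ t1 g hgG a₀ ha₀ (by linarith) (by linarith) a02)).1
  have h7 : σ * (a₀ - g) ≤ (Sl i - 1) * (a₀ - g) := mul_le_mul_of_nonneg_right hσ2 (by linarith)
  have h8 : (Sl i - 1) * (a₀ - g) = Sl i * (a₀ - g) - (a₀ - g) := by ring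
  have h9 : σ * (1 / 2 * t₀) ≤ σ * (a₀ - g) := mul_le_mul_of_nonneg_left (by linarith) hσ0.le
  linarith

/-- **Affine labels of the places `1` and `2` over one base coordinate.** -/
theorem afG_two {S : PCl m} (hS : S.Ne) {C₀ : ℝ} (hC₀ : 0 ≤ C₀) (htm : TmC S C₀)
    {L : Finset (Fin m) → Fin m → ℝ → ℝ → ℝ} (hL : LamW S L) {c : ℕ → Fin m} (h01 : c 0 ≠ c 1)
    (hact : ActF S (c 0)) :
    ∃ S' : PCl m, S'.Ne ∧
      (∀ (τ : ℝ) (J : ℕ) (F : Fam m J) (A : F.Ω → Prop), S'.St τ J F A → S.St τ J F A) ∧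
      ∀ {r₀ r : ℕ} {sn : ℝ → ℕ → ℝ} {G : Set ℝ} {g : ℝ} {Sl : ℕ → ℝ},
        SlpG sn r₀ r G g Sl → g ∈ G → r₀ ≤ 1 → 2 ≤ r → ∀ {ρ₀ : ℝ}, 0 < ρ₀ →
        (∀ w ∈ G, g - ρ₀ ≤ w → w ≤ g + ρ₀ → ∀ i : ℕ, 1 ≤ i → i ≤ 2 →
          sn w i = L ((range i).image c) (c i) w w) →
        0 < g → g < sn g 1 → g < sn g 2 → sn g 1 < 1 → AfG S' c sn G g 1 ∧ AfG S' c sn G g 2 := by
  classical
  have e1 : (range 1).image c = {c 0} := by simp
  have e2 : (range 2).image c = {c 0, c 1} := by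
    ext x
    simp only [Finset.mem_image, Finset.mem_range, Finset.mem_insert, Finset.mem_singleton]
    constructor
    · rintro ⟨a, ha, rfl⟩
      have : a = 0 ∨ a = 1 := by omega
      rcases this with rfl | rfl
      · exact Or.inl rfl
      · exact Or.inr rfl
    · rintro (rfl | rfl)
      · exact ⟨0, by norm_num, rfl⟩
      · exact ⟨1, by norm_num, rfl⟩
  obtain ⟨T, hTs, hTc, hTd⟩ := (TopologicalSpace.IsSeparable.of_separableSpace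
    {t : ℝ | Gdw L (c 0) (c 1) (c 2) t}).exists_countable_dense_subset
  obtain ⟨S', s1, s2, s3⟩ := aff_all hS hC₀ htm hL h01 hact (v := c 2) hTc fun t ht => hTs ht
  refine ⟨S', s1, s2, ?_⟩
  intro r₀ r sn G g Sl hSl hgG hr₀ hr ρ₀ hρ₀ hsn hg0 hu hv hu1
  obtain ⟨ρ, hρ, hρ1, H⟩ := gdw_near (r₀ := r₀) (r := r) (i := 1) (y := c 0) (u := c 1)
    (v := c 2) hL hSl hgG hr₀ hr hρ₀
    (fun w hw w1 w2 => by
      have := hsn w hw w1 w2 1 le_rfl (by norm_num)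
      rwa [e1] at this)
    (fun w hw w1 w2 => by
      have := hsn w hw w1 w2 2 (by norm_num) le_rfl
      rwa [e2] at this) hg0 hu hv hu1
  have hden : ∀ a b : ℝ, g - ρ / 2 ≤ a → a < b → b ≤ g + ρ / 2 → ∃ t ∈ T, a < t ∧ t < b := by
    intro a b a1 ab b1
    have hcnt : ({W : ℝ | ¬ ContinuousAt (fun W => L {c 0} (c 1) W W) W} ∪
        {W : ℝ | ¬ ContinuousAt (fun W => L {c 0, c 1} (c 2) W W) W}).Countable :=
      (cnt_L hL {c 0} (c 1)).2.union (cnt_L hL {c 0, c 1} (c 2)).2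
    obtain ⟨t, ht, hti⟩ := (hcnt.dense_compl ℝ).exists_mem_open isOpen_Ioo
      (Set.nonempty_Ioo.mpr ab)
    simp only [Set.mem_compl_iff, Set.mem_union, Set.mem_setOf_eq, not_or, not_not] at ht
    have hgd := H t (by linarith [hti.1]) (by linarith [hti.2]) ht.1 ht.2
    obtain ⟨t', ht', htT⟩ := mem_closure_iff.1 (hTd hgd) (Set.Ioo a b) isOpen_Ioo hti
    exact ⟨t', htT, ht'.1, ht'.2⟩
  have hmono : ∀ (I : Finset (Fin m)) (k : Fin m) (a b : ℝ), a ≤ b → L I k a a ≤ L I k b b :=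
    fun I k a b hab => hL.mono _ _ _ _ _ _ _ (Finset.Subset.refl _) hab hab
  constructor
  · refine afG_of (r₀ := r₀) (r := r) hSl hr₀ (by omega)
      (L := fun w => L ((range 1).image c) (c 1) w w) (fun a b hab => hmono _ _ a b hab)
      (ρ₀ := ρ / 2) (by positivity)
      (fun w hw w1 w2 => hsn w hw (by linarith) (by linarith) 1 le_rfl (by norm_num)) hden
      fun t ht => ?_
    show AffL S' ((range 1).image c) (c 1) t (L ((range 1).image c) (c 1) t t)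
    rw [e1]
    exact (s3 t ht).1
  · refine afG_of (r₀ := r₀) (r := r) hSl (by omega) hr
      (L := fun w => L ((range 2).image c) (c 2) w w) (fun a b hab => hmono _ _ a b hab)
      (ρ₀ := ρ / 2) (by positivity)
      (fun w hw w1 w2 => hsn w hw (by linarith) (by linarith) 2 (by norm_num) le_rfl) hden
      fun t ht => ?_
    show AffL S' ((range 2).image c) (c 2) t (L ((range 2).image c) (c 2) t t)
    rw [e2]
    exact (s3 t ht).2

end Pool.CDX
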