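import Pool.Agent.H71.CDX.Cus

/-!
# The jets of the target with labels in the box

`thin_atU`, `dj_atU`: as `thin_at`, `dj_at`; the labels of degree `≤ K` are a hypothesis of the box,
the numbers do not depend on the base.
-/

set_option autoImplicit false

namespace Pool.CDX

open Finset Real MvPolynomial
open Pool.Agent.H49.Ent Pool.Agent.H32.Dense Pool.STK Pool.KA Pool.KSAT Pool.K2S Pool.PB Pool.GEN
open Pool.S6C Pool.RCD Pool.LA91 Pool.OWN68 Pool.CHT Pool.AVG96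
open Pool.GRD (LbP)
open Pool.AJW (CfB ctx cod_Fj_p)
open Pool.AJX (JetX LbX FwX ctxK_few)
open Pool.AVG57 (CdC nd ddN ntN)

variable {m : ℕ} {S : PCl m} {c : ℕ → Fin m} {r₀ r K : ℕ} {s₀ : ℝ}
  {sn : ℝ → ℕ → ℝ} {G : Set ℝ} {g : ℝ} {Sl : ℕ → ℝ}

/-- **The jets of order `≥ 1` of a place whose rows are not full**, with the labels in the box. -/
theorem thin_atU (hS : SlpG sn r₀ r G g Sl) {i : ℕ} (h0 : r₀ ≤ i) (hi : i ≤ r)
    (hS1 : ∀ l, r₀ ≤ l → l ≤ r → 1 ≤ Sl l) {hd : ℝ} (hh : 0 < hd) (hh1 : hd ≤ 1)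
    (hraw : RawG S c sn G g hd i)
    (hsrc : ∀ l, r₀ ≤ l → l < i → SrcU S c r₀ r s₀ K sn G g l) {e C : ℝ} (he : 0 < e)
    (hC : 0 < C) :
    ∃ Cn κ : ℝ, 0 < Cn ∧ 0 < κ ∧
    ∀ (γ : ∀ J : ℕ, Fam m J → Type) (y : ∀ (J : ℕ) (F : Fam m J), F.Ω → γ J F) (A B Λ : ℝ),
    GCh S (fun J F => ptr F J) y c r₀ r s₀ A B Λ sn G → A < g → g < B →
    ∃ ρ : ℝ, 0 < ρ ∧ ∀ R : ℝ, 0 < R → R < ρ →
    LbR S c r₀ K sn G g (Cn * R) ((C + 4) * R) (R / 2) i →
    ∀ w ∈ G, g - R ≤ w → w ≤ g + R → ∀ (pw : ℕ → ℝ) (Nf : ℕ → ℕ → ℝ),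
    (∀ l, r₀ ≤ l → l < i → sn w l - κ * R ≤ pw l) →
    (∀ l, r₀ ≤ l → l < i → ∀ j : ℕ, j ≤ 1 → sn w l + Cn * R ≤ Nf l j + (j : ℝ) * w) →
    ∃ e₀ : ℝ, 0 < e₀ ∧ ∃ Dg : ℕ → ℝ,
      (∀ j : ℕ, 1 ≤ j → j ≤ K + 2 → sn w i + C * R ≤ Dg j + (j : ℝ) * w) ∧
      ∀ j : ℕ, 1 ≤ j → j ≤ K + 2 → ∀ pt : ℝ, sn w i - κ * R ≤ pt →
        F1 S (fun J F => ptr F J) (vg w) y (jetQ m c r₀ i w pw Nf)
          (qJet m ((range i).image c) (c i) j w pt (Dg j)) e₀ (e * R) := by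
  classical
  obtain ⟨Sb, hSb0, hSb⟩ := ex_max (r + 1) Sl
  have hSb1 : 1 ≤ Sb := (hS1 i h0 hi).trans (hSb i (by omega))
  obtain ⟨M, hM⟩ : ∃ M : ℝ, M = C + 2 := ⟨_, rfl⟩
  have hM0 : 0 < M := by linarith
  -- the length of the target
  obtain ⟨Qm, hQm⟩ : ∃ Qm : ℝ, Qm = Sb * (M + 1) + 1 := ⟨_, rfl⟩
  have hQm0 : 0 < Qm := by rw [hQm]; positivity
  obtain ⟨δ, hδ, H⟩ := thin_F1 K hh hh1 (ε := e / Qm) (by positivity) i
  obtain ⟨T, hT⟩ : ∃ T : ℝ, T = ((i * (K + 3) : ℕ) : ℝ) := ⟨_, rfl⟩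
  have hT0 : 0 ≤ T := by rw [hT]; positivity
  obtain ⟨Gp, hGp⟩ : ∃ Gp : ℝ, Gp = Sb * (M + 1) + 1 := ⟨_, rfl⟩
  have hGp0 : 0 < Gp := by rw [hGp]; positivity
  obtain ⟨C₁, hC₁⟩ : ∃ C₁ : ℝ, C₁ = Qm + (2 * (K : ℝ) + 4) * (M + 1) + 6 := ⟨_, rfl⟩
  have hC₁0 : 0 < C₁ := by rw [hC₁]; positivity
  obtain ⟨Cn, κ₁, q1, q2, HJ'⟩ := jo_atU (K := K) h0 hi hsrc
    (e := δ / (4 * (T + 1) * (T + 1))) (C := C₁) (Gp := Gp) (by positivity) hC₁0 hGp0
  -- the error of the levels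
  obtain ⟨κ, hκ⟩ : ∃ κ : ℝ, κ = min (min κ₁ (1 / (60 * Sb))) (δ / (2 * ((i : ℝ) + 1) * Sb)) :=
    ⟨_, rfl⟩
  have hi0 : (0 : ℝ) ≤ i := Nat.cast_nonneg i
  have k0 : 0 < κ := by rw [hκ]; positivity
  have k1 : κ ≤ κ₁ := by rw [hκ]; exact (min_le_left _ _).trans (min_le_left _ _)
  have k2 : Sb * κ ≤ 1 / 60 := by
    have : κ ≤ 1 / (60 * Sb) := by rw [hκ]; exact (min_le_left _ _).trans (min_le_right _ _)
    calc Sb * κ ≤ Sb * (1 / (60 * Sb)) := mul_le_mul_of_nonneg_left this hSb0.le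
      _ = 1 / 60 := by field_simp
  have k3 : ((i : ℝ) + 1) * (Sb * κ) ≤ δ / 2 := by
    have : κ ≤ δ / (2 * ((i : ℝ) + 1) * Sb) := by rw [hκ]; exact min_le_right _ _
    calc ((i : ℝ) + 1) * (Sb * κ) = ((i : ℝ) + 1) * Sb * κ := by ring
      _ ≤ ((i : ℝ) + 1) * Sb * (δ / (2 * ((i : ℝ) + 1) * Sb)) :=
          mul_le_mul_of_nonneg_left this (by positivity)
      _ = δ / 2 := by field_simp
  obtain ⟨ρ₁, hρ₁, H1⟩ := slpG_win hS hM0.le (κ := 1 / 2) (by norm_num) (by norm_num)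
  obtain ⟨ρ₃, hρ₃, H3⟩ := hraw (δ / (2 * (M + 2))) Qm (by positivity) hQm0
  obtain ⟨Z, hZ⟩ : ∃ Z : ℝ, Z = C₁ + (i + 2) * Gp + ((K : ℝ) + 3) * (M + 2) + Qm + 40 := ⟨_, rfl⟩
  have hZ0 : 0 < Z := by rw [hZ]; positivity
  refine ⟨Cn + (2 * Z + 1), κ, by positivity, k0, ?_⟩
  intro γ y A B Λ h hgA hgB
  obtain ⟨C₀, htm⟩ := h.tm
  have hΛ := h.Λ0
  have hB1 := gch_B1 h
  obtain ⟨ρ, q3, HJ⟩ := HJ' γ y A B Λ h hgA hgB
  obtain ⟨ρ₂, hρ₂, H2⟩ := lds_at h hgA hgB hS (h0.trans hi) (Sb := Sb) (M := M + 2) (κ := κ)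
    (fun l a b => ⟨hS1 l a b, hSb l (by omega)⟩) (by linarith) k0
  refine ⟨min (min ρ (min ρ₁ ρ₂)) (min (ρ₃ / (M + 2))
    (min (min ((g - A) / (M + 2)) (B - g)) (Λ / Z))), ?_, ?_⟩
  · exact lt_min (lt_min q3 (lt_min hρ₁ hρ₂)) (lt_min (by positivity)
      (lt_min (lt_min (div_pos (by linarith) (by linarith)) (by linarith)) (by positivity)))
  intro R hR hRρ hlb w hw w1 w2 pw Nf hpw hNf
  have r0 : R < ρ := hRρ.trans_le ((min_le_left _ _).trans (min_le_left _ _))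
  have r1 : R < ρ₁ := hRρ.trans_le ((min_le_left _ _).trans
    ((min_le_right _ _).trans (min_le_left _ _)))
  have r2 : R < ρ₂ := hRρ.trans_le ((min_le_left _ _).trans
    ((min_le_right _ _).trans (min_le_right _ _)))
  have hR' := hRρ.trans_le (min_le_right _ _)
  have r3 : R < ρ₃ / (M + 2) := hR'.trans_le (min_le_left _ _)
  have r5 : R < (g - A) / (M + 2) := hR'.trans_le ((min_le_right _ _).trans
    ((min_le_left _ _).trans (min_le_left _ _)))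
  have r6 : R < B - g := hR'.trans_le ((min_le_right _ _).trans
    ((min_le_left _ _).trans (min_le_right _ _)))
  have r7 : R < Λ / Z := hR'.trans_le ((min_le_right _ _).trans (min_le_right _ _))
  obtain ⟨g₀, hg₀'⟩ : ∃ g₀, g₀ = (2 * Z + 1) * R := ⟨_, rfl⟩
  have hg₀ : 0 < g₀ := by rw [hg₀']; positivity
  have r8 : R * (2 * Z) < g₀ := by
    rw [hg₀']
    linarith
  have hCnR0 : 0 < Cn * R := mul_pos q1 hR
  have hCn' : (Cn + (2 * Z + 1)) * R = Cn * R + g₀ := by rw [hg₀']; ring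
  rw [hCn'] at hlb
  have hNf : ∀ l, r₀ ≤ l → l < i → ∀ j : ℕ, j ≤ 1 → sn w l + Cn * R ≤ Nf l j + (j : ℝ) * w :=
    fun l a b j hj => by
      have := hNf l a b j hj
      rw [hCn'] at this
      linarith
  rw [lt_div_iff₀ (by linarith)] at r3 r5
  rw [lt_div_iff₀ hZ0] at r7
  obtain ⟨v₀, hv₀, v01, v02⟩ := H1 R hR r1 w w1 w2
  obtain ⟨v, hv, v03, v04, E, rd, H4a, H4b⟩ := (hlb.mono (g₁ := g₀) (by linarith) le_rfl le_rfl)
      v₀ hv₀ (by
    have e1 : (C + 4) * R = M * R + 2 * R := by rw [hM]; ring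
    linarith) (by
    have e1 : (C + 4) * R = M * R + 2 * R := by rw [hM]; ring
    have e2 : 0 < M * R := by positivity
    linarith)
  have v04 := v04.le
  have v1 : w - M * R - R ≤ v := by linarith
  have v2 : v ≤ w - M * R := by linarith
  have hMR0 : 0 < M * R := by positivity
  have hvw : v < w := by linarith
  obtain ⟨e₁, he₁, Dg, d1, d2⟩ := HJ R hR r0 w hw w1 w2 pw Nf
    (fun l a b => by
      have := mul_le_mul_of_nonneg_right k1 hR.le
      linarith [hpw l a b]) hNf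
  have L := H2 R hR r2
  have Li := L.take h0 hi
  obtain ⟨hΔ1, hΔ2⟩ : M * R ≤ w - v ∧ w - v ≤ (M + 1) * R := ⟨by linarith, by linarith⟩
  have hbv : g - (M + 2) * R ≤ v := by linarith
  have hRM : R ≤ (M + 2) * R := by
    have : 1 * R ≤ (M + 2) * R := mul_le_mul_of_nonneg_right (by linarith only [hM0]) hR.le
    linarith only [this]
  have hwo : w ≤ g + (M + 2) * R := by linarith only [w2, hRM]
  have hup := L.up h0 hi hv hw hbv hvw.le hwo
  have hSi := hS1 i h0 hi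
  have hSiM : w - v ≤ Sl i * (w - v) := by
    have := mul_le_mul_of_nonneg_right hSi (by linarith : 0 ≤ w - v)
    linarith
  have hSiM' : Sl i * (w - v) ≤ Sb * (M + 1) * R := by
    calc Sl i * (w - v) ≤ Sb * (w - v) :=
          mul_le_mul_of_nonneg_right (hSb i (by omega)) (by linarith)
      _ ≤ Sb * ((M + 1) * R) := mul_le_mul_of_nonneg_left hΔ2 hSb0.le
      _ = Sb * (M + 1) * R := by ring
  have hgpR : Sb * (κ * R) ≤ 1 / 60 * R := by
    rw [← mul_assoc]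
    exact mul_le_mul_of_nonneg_right k2 hR.le
  have hκgp : κ * R ≤ Sb * (κ * R) := by
    have : 1 * (κ * R) ≤ Sb * (κ * R) := mul_le_mul_of_nonneg_right hSb1 (by positivity)
    linarith
  have hκR0 : 0 < κ * R := by positivity
  obtain ⟨gp, hgp⟩ : ∃ gp, gp = Sb * (κ * R) := ⟨_, rfl⟩
  rw [← hgp] at hgpR hκgp
  obtain ⟨q, hq⟩ : ∃ q, q = sn w i - sn v i - gp := ⟨_, rfl⟩
  have hq1 : R ≤ q := by
    have : 2 * R ≤ M * R := mul_le_mul_of_nonneg_right (by linarith) hR.le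
    linarith [hup.1]
  have hq2 : q ≤ Qm * R := by
    have : Qm * R = Sb * (M + 1) * R + R := by rw [hQm]; ring
    linarith [hup.2]
  have hq0 : 0 < q := by linarith
  have hli : ∀ l < i, Gp * R ≤ ((i : ℝ) - l) * (Gp * R) ∧
      ((i : ℝ) - l) * (Gp * R) ≤ i * (Gp * R) := fun l hl => by
    have e1 : (l : ℝ) + 1 ≤ i := by exact_mod_cast hl
    have e2 : (0 : ℝ) ≤ l := Nat.cast_nonneg l
    have e3 : 0 ≤ Gp * R := by positivity
    have e4 := mul_le_mul_of_nonneg_right (show (1 : ℝ) ≤ (i : ℝ) - l by linarith only [e1]) e3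
    exact ⟨by linarith only [e4], mul_le_mul_of_nonneg_right (by linarith only [e2]) e3⟩
  have hGpR : Gp * R = Sb * (M + 1) * R + R := by rw [hGp]; ring
  have hSlΔ : ∀ l, r₀ ≤ l → l < i → Sl l * (w - v) ≤ Sb * (M + 1) * R := fun l a b => by
    calc Sl l * (w - v) ≤ Sb * (w - v) :=
          mul_le_mul_of_nonneg_right (hSb l (by omega)) (by linarith)
      _ ≤ Sb * ((M + 1) * R) := mul_le_mul_of_nonneg_left hΔ2 hSb0.le
      _ = Sb * (M + 1) * R := by ring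
  have hC₁R : C₁ * R = Qm * R + (2 * (K : ℝ) + 4) * ((M + 1) * R) + 6 * R := by rw [hC₁]; ring
  have hZR : Z * R = C₁ * R + i * (Gp * R) + 2 * (Gp * R) + ((K : ℝ) + 3) * ((M + 2) * R) +
      Qm * R + 40 * R := by rw [hZ]; ring
  have hK0 : (0 : ℝ) ≤ K := Nat.cast_nonneg K
  have hKM : 0 ≤ (2 * (K : ℝ) + 4) * ((M + 1) * R) := by positivity
  have hKM3 : ((K : ℝ) + 3) * (w - v) ≤ ((K : ℝ) + 3) * ((M + 2) * R) :=
    mul_le_mul_of_nonneg_left (by linarith) (by positivity)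
  have hKM4 : (2 * (K : ℝ) + 4) * (w - v) ≤ (2 * (K : ℝ) + 4) * ((M + 1) * R) :=
    mul_le_mul_of_nonneg_left hΔ2 (by positivity)
  have hKM5 : 0 ≤ ((K : ℝ) + 3) * ((M + 2) * R) := by positivity
  have hM2 : (M + 2) * R ≤ ((K : ℝ) + 3) * ((M + 2) * R) := by
    have : 1 * ((M + 2) * R) ≤ ((K : ℝ) + 3) * ((M + 2) * R) :=
      mul_le_mul_of_nonneg_right (by linarith) (by positivity)
    linarith
  have hiG : 0 ≤ i * (Gp * R) := by positivity
  have HN : DgN r₀ i (fun l => sn w l) (fun l => sn w l + (C₁ + ((i : ℝ) - l) * Gp) * R) Sl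
      (w - v) Λ gp := by
    refine ⟨fun l a b => ?_, fun l a b => ?_, fun l a b l' a' b' => ?_⟩
    · show sn w l + 30 * gp ≤ sn w l + (C₁ + ((i : ℝ) - l) * Gp) * R
      have e1 : (C₁ + ((i : ℝ) - l) * Gp) * R = C₁ * R + ((i : ℝ) - l) * (Gp * R) := by ring
      have := (hli l b).1
      rw [e1]
      have hQR : 0 < Qm * R := by positivity
      have hGR : 0 < Gp * R := by positivity
      linarith
    · show sn w l + (C₁ + ((i : ℝ) - l) * Gp) * R + (Sl l + 1) * (w - v) + 30 * gp ≤ sn w l + Λ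
      have e1 : (C₁ + ((i : ℝ) - l) * Gp) * R = C₁ * R + ((i : ℝ) - l) * (Gp * R) := by ring
      have e2 : (Sl l + 1) * (w - v) = Sl l * (w - v) + (w - v) := by ring
      have e3 := hSlΔ l a b
      have e4 := (hli l b).2
      have hQR : 0 < Qm * R := by positivity
      rw [e1, e2]
      linarith
    · show sn w l + (C₁ + ((i : ℝ) - l) * Gp) * R - sn w l + Sl l * (w - v) + 30 * gp ≤
        sn w l' + (C₁ + ((i : ℝ) - l') * Gp) * R - sn w l'
      have e1 : (C₁ + ((i : ℝ) - l) * Gp) * R = C₁ * R + ((i : ℝ) - l) * (Gp * R) := by ring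
      have e2 : (C₁ + ((i : ℝ) - l') * Gp) * R = C₁ * R + ((i : ℝ) - l') * (Gp * R) := by ring
      have e3 := hSlΔ l a b
      have e4 : (l' : ℝ) + 1 ≤ l := by exact_mod_cast b'
      have e5 : 1 * (Gp * R) ≤ ((l : ℝ) - l') * (Gp * R) :=
        mul_le_mul_of_nonneg_right (by linarith) (by positivity)
      have e6 : ((i : ℝ) - l') * (Gp * R) = ((i : ℝ) - l) * (Gp * R) +
        ((l : ℝ) - l') * (Gp * R) := by ring
      rw [e1, e2]
      linarith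
  have hEi := H4a i h0 le_rfl
  obtain ⟨e₀, he₀, HP⟩ := H Li (f := fun J F => ptr F J) (y := y)
    h.pt (w := w) (v := v) (lam := Λ) (g₀ := g₀ / 2) (q := q)
    (N := fun l => sn w l + (C₁ + ((i : ℝ) - l) * Gp) * R) (E := E) (rd := rd) (Dg := Dg)
    (Q := jetQ m c r₀ i w pw Nf) (e₁ := e₁) (η := δ / (4 * (T + 1) * (T + 1)) * R)
    (gch_kn h (by linarith)) hw hv hbv hvw hwo hΛ (by linarith) (by rw [← hgp]; exact HN)
    (fun l a b j hj => d1 l a b j hj) he₁ (by positivity) d2 (by positivity) hq0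
    hEi.2.2.2.2.1 (by rw [← hgp, hq]; linarith) (by
      have hC1R : 0 < C₁ * R := by positivity
      have hGR : 0 < Gp * R := by positivity
      linarith only [hEi.2.2.2.2.2, hq2, hZR, r8, hC1R, hGR, hiG, hKM5, hR])
    (fun l a b => ⟨(H4a l a b).1, (H4a l a b).2.1⟩)
    (fun l a b => ⟨(H4a l a b).2.2.1, by linarith [(H4a l a b).2.2.2.1]⟩)
    (fun l a b => by
      show sn w l + (C₁ + ((i : ℝ) - l) * Gp) * R + E l + g₀ / 2 ≤ 1
      have e1 : (C₁ + ((i : ℝ) - l) * Gp) * R = C₁ * R + ((i : ℝ) - l) * (Gp * R) := by ring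
      have e2 := (L.up a (b.le.trans hi) hv hw hbv hvw.le hwo).2
      have e3 := hSlΔ l a b
      have e4 := (hli l b).2
      have e5 := (H4a l a b.le).2.2.2.2.2
      have hQR : 0 < Qm * R := by positivity
      rw [e1]
      linarith)
    (fun l a b => by
      show q + (2 * (K : ℝ) + 4) * (w - v) + 5 * (Sb * (κ * R)) ≤
        sn w l + (C₁ + ((i : ℝ) - l) * Gp) * R - sn w l
      have e1 : (C₁ + ((i : ℝ) - l) * Gp) * R = C₁ * R + ((i : ℝ) - l) * (Gp * R) := by ring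
      have e4 := (hli l b).1
      have hGR : 0 < Gp * R := by positivity
      rw [e1, ← hgp]
      linarith)
    (by
      rw [← hgp]
      have hC1R : 0 < C₁ * R := by positivity
      have hGR : 0 < Gp * R := by positivity
      linarith)
    (by
      have e1 : ((i : ℝ) + 1) * (Sb * (κ * R)) = ((i : ℝ) + 1) * (Sb * κ) * R := by ring
      rw [e1]
      have e2 := mul_le_mul_of_nonneg_right k3 hR.le
      have e3 := mul_le_mul_of_nonneg_left hq1 hδ.le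
      have e4 := mul_pos hδ hR
      linarith only [e2, e3, e4])
    (by
      rw [← hT]
      have e1 : 2 * T * (T + 1) * (δ / (4 * (T + 1) * (T + 1)) * R) =
          T / (T + 1) * (δ * R / 2) := by
        field_simp
        ring
      have e2 : T / (T + 1) ≤ 1 := by
        rw [div_le_one (by positivity)]
        linarith
      rw [e1]
      have e3 := mul_le_mul_of_nonneg_left hq1 hδ.le
      have e4 : T / (T + 1) * (δ * R / 2) ≤ 1 * (δ * R / 2) :=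
        mul_le_mul_of_nonneg_right e2 (by positivity)
      have e5 := mul_pos hδ hR
      linarith only [e3, e4, e5])
    (fun q' a1 a2 => by
      refine (H3 ((M + 2) * R) (by positivity) (by linarith) v hv (by linarith) (by linarith) q' a1
        (by
          have : Qm * R ≤ Qm * ((M + 2) * R) :=
            mul_le_mul_of_nonneg_left hRM hQm0.le
          linarith)).mono ?_
      have e1 : δ / (2 * (M + 2)) * ((M + 2) * R) = δ * R / 2 := by field_simp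
      rw [e1]
      have e3 := mul_le_mul_of_nonneg_left hq1 hδ.le
      have e4 := mul_pos hδ hR
      linarith only [e3, e4])
    H4b
  refine ⟨e₀, he₀, fun j => sn v i + q - (j : ℕ) * v, fun j hj1 hj => ?_,
    fun j hj1 hj pt hpt => ?_⟩
  · have e1 : (1 : ℝ) ≤ j := by exact_mod_cast hj1
    have e2 : 1 * (w - v) ≤ (j : ℝ) * (w - v) := mul_le_mul_of_nonneg_right e1 (by linarith)
    have e3 : M * R = C * R + 2 * R := by rw [hM]; ring
    rw [hq]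
    linarith
  · have h9 : sn v i ≤ pt := by
      have : 2 * R ≤ M * R := mul_le_mul_of_nonneg_right (by linarith) hR.le
      linarith [hup.1]
    refine (HP e₀ he₀ le_rfl j hj1 hj pt h9).mono le_rfl ?_
    have e1 : e / Qm * q ≤ e / Qm * (Qm * R) := mul_le_mul_of_nonneg_left hq2 (by positivity)
    have e2 : e / Qm * (Qm * R) = e * R := by field_simp
    linarith

/-- **The codes of the orders `≥ 1` of a place whose rows are not full**, with the labels in the box. -/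
theorem dj_atU (hS : SlpG sn r₀ r G g Sl) {i : ℕ} (h0 : r₀ ≤ i) (hi : i ≤ r)
    (hS1 : ∀ l, r₀ ≤ l → l ≤ r → 1 ≤ Sl l) {hd : ℝ} (hh : 0 < hd) (hh1 : hd ≤ 1)
    (hraw : RawG S c sn G g hd i)
    (hsrc : ∀ l, r₀ ≤ l → l < i → SrcU S c r₀ r s₀ K sn G g l) {e C : ℝ} (he : 0 < e)
    (hC : 0 < C) :
    ∃ Cn κ : ℝ, 0 < Cn ∧ 0 < κ ∧
    ∀ (γ : ∀ J : ℕ, Fam m J → Type) (y : ∀ (J : ℕ) (F : Fam m J), F.Ω → γ J F) (A B Λ : ℝ),
    GCh S (fun J F => ptr F J) y c r₀ r s₀ A B Λ sn G → A < g → g < B →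
    ∃ ρ : ℝ, 0 < ρ ∧ ∀ R : ℝ, 0 < R → R < ρ →
    LbR S c r₀ K sn G g (Cn * R) ((C + 4) * R) (R / 2) i →
    ∀ w ∈ G, g - R ≤ w → w ≤ g + R → ∀ (p : ℕ → ℝ) (D : ℕ → ℕ → ℝ) (N : ℝ),
    (∀ l, r₀ ≤ l → l < i → sn w l - κ * R ≤ p l) → sn w i - κ * R ≤ p i →
    (∀ l, r₀ ≤ l → l < i → ∀ j : ℕ, j ≤ 1 → sn w l + Cn * R ≤ D l j + (j : ℝ) * w) →
    N ≤ sn w i + C * R →
    CdC S y c i K 1 w w (p i) N (e * R) (jetQ m c r₀ i w p D) := by
  obtain ⟨Cn, κ, q1, q2, H'⟩ := thin_atU hS h0 hi hS1 hh hh1 hraw hsrc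
    (e := e / (K + 3)) (by positivity) hC
  refine ⟨Cn, κ, q1, q2, fun γ y A B Λ h hgA hgB => ?_⟩
  obtain ⟨C₀, htm⟩ := h.tm
  obtain ⟨ρ, q3, H⟩ := H' γ y A B Λ h hgA hgB
  refine ⟨min ρ (min (g - A) (B - g)), lt_min q3 (lt_min (by linarith) (by linarith)), ?_⟩
  intro R hR hRρ hlb w hw w1 w2 p D N hp hpi hD hN
  have r1 : R < ρ := hRρ.trans_le (min_le_left _ _)
  have r2 : R < g - A := hRρ.trans_le ((min_le_right _ _).trans (min_le_left _ _))
  have r3 : R < B - g := hRρ.trans_le ((min_le_right _ _).trans (min_le_right _ _))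
  have hA0 := h.A0
  have hB1 := h.B1
  obtain ⟨e₀, he₀, Dg, d1, d2⟩ := H R hR r1 hlb w hw w1 w2 p D hp hD
  refine cdC_F1 htm (by linarith) le_rfl (by linarith) he₀ (gch_yT h) K 1 (s := Dg)
    (η := fun _ => e / (K + 3) * R) (fun j h1 h2 => ?_) (fun j h1 h2 => ?_) ?_
  · linarith [d1 j h1 (by omega)]
  · exact d2 j h1 (by omega) (p i) hpi
  · rw [Finset.sum_const, Nat.card_Ico, nsmul_eq_mul]
    have e1 : ((K + 2 - 1 : ℕ) : ℝ) = K + 1 := by
      rw [Nat.add_sub_assoc (by norm_num)]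
      push_cast
      ring
    rw [e1]
    have hK : (0 : ℝ) ≤ K := Nat.cast_nonneg K
    have e2 : ((K : ℝ) + 1) * (e / (K + 3) * R) = (K + 1) / (K + 3) * (e * R) := by ring
    rw [e2]
    have e3 : ((K : ℝ) + 1) / (K + 3) < 1 := by
      rw [div_lt_one (by positivity)]
      linarith
    have := mul_lt_mul_of_pos_right e3 (mul_pos he hR)
    linarith

end Pool.CDX
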