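import Pool.Agent.H71.CDX.Cdt

/-!
# The codes of the target at a point, with labels at all windows near it

`dj_at`: the codes of the orders `≥ 1` of the target; `jt_at`: the codes of all orders of the target
from the record of a later window. The forms with the labels in the box are `dj_atU`, `jt_atU`.
-/

set_option autoImplicit false

namespace Pool.CDX

open Finset Real MvPolynomial
open Pool.Agent.H49.Ent Pool.Agent.H32.Dense Pool.STK Pool.KA Pool.KSAT Pool.K2S Pool.PB Pool.GEN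
open Pool.S6C Pool.RCD Pool.LA91 Pool.OWN68 Pool.CHT Pool.AVG96
open Pool.GRD (LbP)
open Pool.AJW (CfB ctx cod_Fj_p)
open Pool.AJX (JetX LbX FwX ctxK_few)
open Pool.AVG57 (CdC nd ddN ntN)

variable {m : ℕ} {γ : ∀ J : ℕ, Fam m J → Type} {S : PCl m}
  {y : ∀ (J : ℕ) (F : Fam m J), F.Ω → γ J F} {c : ℕ → Fin m} {r₀ r K : ℕ} {s₀ A B Λ : ℝ}
  {sn : ℝ → ℕ → ℝ} {G : Set ℝ} {g : ℝ} {Sl : ℕ → ℝ}

/-- **The codes of the orders `≥ 1` of a place whose rows are not full.** -/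
theorem dj_at (h : GCh S (fun J F => ptr F J) y c r₀ r s₀ A B Λ sn G) (hgA : A < g)
    (hgB : g < B) (hS : SlpG sn r₀ r G g Sl) {i : ℕ} (h0 : r₀ ≤ i) (hi : i ≤ r)
    (hS1 : ∀ l, r₀ ≤ l → l ≤ r → 1 ≤ Sl l) {hd : ℝ} (hh : 0 < hd) (hh1 : hd ≤ 1)
    (hraw : RawG S c sn G g hd i) (hlb : LbG S c r₀ K sn G g i)
    (hsrc : ∀ l, r₀ ≤ l → l < i → SrcG S y c r₀ K sn G g l) {e C : ℝ} (he : 0 < e)
    (hC : 0 < C) :
    ∃ Cn κ ρ : ℝ, 0 < Cn ∧ 0 < κ ∧ 0 < ρ ∧ ∀ R : ℝ, 0 < R → R < ρ →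
    ∀ w ∈ G, g - R ≤ w → w ≤ g + R → ∀ (p : ℕ → ℝ) (D : ℕ → ℕ → ℝ) (N : ℝ),
    (∀ l, r₀ ≤ l → l < i → sn w l - κ * R ≤ p l) → sn w i - κ * R ≤ p i →
    (∀ l, r₀ ≤ l → l < i → ∀ j : ℕ, j ≤ 1 → sn w l + Cn * R ≤ D l j + (j : ℝ) * w) →
    N ≤ sn w i + C * R →
    CdC S y c i K 1 w w (p i) N (e * R) (jetQ m c r₀ i w p D) := by
  obtain ⟨C₀, htm⟩ := h.tm
  obtain ⟨Cn, κ, ρ, q1, q2, q3, H⟩ := thin_at h hgA hgB hS h0 hi hS1 hh hh1 hraw hlb hsrc
    (e := e / (K + 3)) (by positivity) hC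
  refine ⟨Cn, κ, min ρ (min (g - A) (B - g)), q1, q2,
    lt_min q3 (lt_min (by linarith) (by linarith)), ?_⟩
  intro R hR hRρ w hw w1 w2 p D N hp hpi hD hN
  have r1 : R < ρ := hRρ.trans_le (min_le_left _ _)
  have r2 : R < g - A := hRρ.trans_le ((min_le_right _ _).trans (min_le_left _ _))
  have r3 : R < B - g := hRρ.trans_le ((min_le_right _ _).trans (min_le_right _ _))
  have hA0 := h.A0
  have hB1 := h.B1
  obtain ⟨e₀, he₀, Dg, d1, d2⟩ := H R hR r1 w hw w1 w2 p D hp hD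
  refine cdC_F1 htm (by linarith) le_rfl (by linarith) he₀ (gch_yT h) K 1 (s := Dg)
    (η := fun _ => e / (K + 3) * R) (fun j h1 h2 => ?_) (fun j h1 h2 => ?_) ?_
  · linarith [d1 j h1 (by omega)]
  · exact d2 j h1 (by omega) (p i) hpi
  · rw [Finset.sum_const, Nat.card_Ico, nsmul_eq_mul]
    have e1 : ((K + 2 - 1 : ℕ) : ℝ) = K + 1 := by
      rw [Nat.add_sub_assoc (by norm_num)]
      push_cast
      ring
    rw [e1]
    have hK : (0 : ℝ) ≤ K := Nat.cast_nonneg K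
    have e2 : ((K : ℝ) + 1) * (e / (K + 3) * R) = (K + 1) / (K + 3) * (e * R) := by ring
    rw [e2]
    have e3 : ((K : ℝ) + 1) / (K + 3) < 1 := by
      rw [div_lt_one (by positivity)]
      linarith
    have := mul_lt_mul_of_pos_right e3 (mul_pos he hR)
    linarith

/-- **The codes of all orders of the target from the record of a later window.** -/
theorem jt_at (h : GCh S (fun J F => ptr F J) y c r₀ r s₀ A B Λ sn G) (hgA : A < g)
    (hgB : g < B) (hS : SlpG sn r₀ r G g Sl) (hr : r₀ ≤ r)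
    (hS1 : ∀ l, r₀ ≤ l → l ≤ r → 1 ≤ Sl l) {hd : ℝ} (hh : 0 < hd) (hh1 : hd ≤ 1)
    (hraw : RawG S c sn G g hd r) (hlb : LbG S c r₀ K sn G g r) {e C ν₀ : ℝ} (he : 0 < e)
    (hC : 0 < C) (hν : 0 < ν₀) :
    ∃ Cn κ ρ : ℝ, 0 < Cn ∧ 0 < κ ∧ 0 < ρ ∧ ∀ R : ℝ, 0 < R → R < ρ →
    ∀ w ∈ G, g - R ≤ w → ∀ x : ℝ, w ≤ x → x ≤ g + R → ∀ (p n : ℕ → ℝ) (q N : ℝ),
    (∀ l, r₀ ≤ l → l ≤ r → sn w l - κ * R ≤ p l) →
    (∀ l, r₀ ≤ l → l + 1 < r → sn w l + Cn * R ≤ n l) →
    (∀ l, r₀ ≤ l → l + 1 = r → sn w l + q + ν₀ * R ≤ n l ∧ Sl l * (x - w) ≤ q) →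
    (∀ l, r₀ ≤ l → l < r → Sl l ≤ Sl r) → ν₀ * R ≤ q → q ≤ C * R →
    q + ν₀ * R ≤ Sl r * (x - w) → N ≤ sn w r + q →
    CdC S y c r K 0 w x (p r) N (e * R)
      (qJets m c r₀ r (K + 2) (fun _ _ => w) (fun l _ => p l)
        (fun l j' => n l - (j' : ℝ) * w)) := by
  classical
  obtain ⟨C₀, htm⟩ := h.tm
  have hΛ := h.Λ0
  have hA0 := h.A0
  have hB1 := gch_B1 h
  obtain ⟨Sb, hSb0, hSb⟩ := ex_max (r + 1) Sl
  have hSb1 : 1 ≤ Sb := (hS1 r hr le_rfl).trans (hSb r (by omega))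
  obtain ⟨δ, hδ, H⟩ := jt_F1 K hh hh1 (ε := e / (2 * C)) (by positivity) r
  obtain ⟨Gp, hGp⟩ : ∃ Gp : ℝ, Gp = 2 * Sb + 2 := ⟨_, rfl⟩
  have hGp0 : 0 < Gp := by rw [hGp]; positivity
  have hr0 : (0 : ℝ) ≤ r := Nat.cast_nonneg r
  obtain ⟨Cn, hCn⟩ : ∃ Cn : ℝ, Cn = C + ν₀ + (r + 1) * Gp + 2 := ⟨_, rfl⟩
  have hCn0 : 0 < Cn := by rw [hCn]; positivity
  -- the error of the levels
  obtain ⟨κ, hκ⟩ : ∃ κ : ℝ, κ = min (min (1 / (60 * Sb)) (ν₀ / (120 * Sb)))
    (δ * ν₀ / (r + 1)) := ⟨_, rfl⟩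
  have k0 : 0 < κ := by rw [hκ]; positivity
  have k1 : Sb * κ ≤ 1 / 60 := by
    have : κ ≤ 1 / (60 * Sb) := by rw [hκ]; exact (min_le_left _ _).trans (min_le_left _ _)
    calc Sb * κ ≤ Sb * (1 / (60 * Sb)) := mul_le_mul_of_nonneg_left this hSb0.le
      _ = 1 / 60 := by field_simp
  have k2 : Sb * κ ≤ ν₀ / 120 := by
    have : κ ≤ ν₀ / (120 * Sb) := by rw [hκ]; exact (min_le_left _ _).trans (min_le_right _ _)
    calc Sb * κ ≤ Sb * (ν₀ / (120 * Sb)) := mul_le_mul_of_nonneg_left this hSb0.le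
      _ = ν₀ / 120 := by field_simp
  have k3 : r * κ ≤ δ * ν₀ := by
    have : κ ≤ δ * ν₀ / (r + 1) := by rw [hκ]; exact min_le_right _ _
    calc (r : ℝ) * κ ≤ (r + 1) * κ := mul_le_mul_of_nonneg_right (by linarith) k0.le
      _ ≤ (r + 1) * (δ * ν₀ / (r + 1)) := mul_le_mul_of_nonneg_left this (by positivity)
      _ = δ * ν₀ := by field_simp
  obtain ⟨ρ₂, hρ₂, H2⟩ := lds_at h hgA hgB hS hr (Sb := Sb) (M := 2) (κ := κ)
    (fun l a b => ⟨hS1 l a b, hSb l (by omega)⟩) (by norm_num) k0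
  obtain ⟨ρ₃, hρ₃, H3⟩ := hraw (δ * ν₀) C (by positivity) hC
  obtain ⟨g₀, ρ₄, hg₀, hρ₄, H4⟩ := hlb
  obtain ⟨ρ₁, hρ₁, H1⟩ := hS.gap κ k0
  obtain ⟨Z, hZ⟩ : ∃ Z : ℝ, Z = Cn + 2 * Sb + 40 := ⟨_, rfl⟩
  have hZ0 : 0 < Z := by rw [hZ]; positivity
  refine ⟨Cn, κ, min (min ρ₁ ρ₂) (min (min ρ₃ ρ₄) (min (min ((g - A) / 2) ((B - g) / 2))
    (min (Λ / Z) (g₀ / (2 * Z))))), hCn0, k0, ?_, ?_⟩
  · refine lt_min (lt_min hρ₁ hρ₂) (lt_min (lt_min hρ₃ hρ₄) (lt_min (lt_min (by linarith)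
      (by linarith)) (lt_min (by positivity) (by positivity))))
  intro R hR hRρ w hw w1 x hwx x2 p n q N hp hn1 hn2 hSr hq1 hqC hqx hN
  have r1 : R < ρ₁ := hRρ.trans_le ((min_le_left _ _).trans (min_le_left _ _))
  have r2 : R < ρ₂ := hRρ.trans_le ((min_le_left _ _).trans (min_le_right _ _))
  have hR' := hRρ.trans_le (min_le_right _ _)
  have r3 : R < ρ₃ := hR'.trans_le ((min_le_left _ _).trans (min_le_left _ _))
  have r4 : R < ρ₄ := hR'.trans_le ((min_le_left _ _).trans (min_le_right _ _))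
  have r5 : R < (g - A) / 2 := hR'.trans_le ((min_le_right _ _).trans
    ((min_le_left _ _).trans (min_le_left _ _)))
  have r6 : R < (B - g) / 2 := hR'.trans_le ((min_le_right _ _).trans
    ((min_le_left _ _).trans (min_le_right _ _)))
  have r7 : R < Λ / Z := hR'.trans_le ((min_le_right _ _).trans
    ((min_le_right _ _).trans (min_le_left _ _)))
  have r8 : R < g₀ / (2 * Z) := hR'.trans_le ((min_le_right _ _).trans
    ((min_le_right _ _).trans (min_le_right _ _)))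
  rw [lt_div_iff₀ hZ0] at r7
  rw [lt_div_iff₀ (by positivity)] at r8
  have hw2 : w ≤ g + R := hwx.trans x2
  have hwA : A ≤ w := by linarith
  have hwB : w < B := by linarith
  have hνR : 0 < ν₀ * R := by positivity
  have hq0 : 0 < q := by linarith
  have hκR0 : 0 < κ * R := by positivity
  obtain ⟨gp, hgp⟩ : ∃ gp, gp = Sb * (κ * R) := ⟨_, rfl⟩
  have hgp1 : gp ≤ R / 60 := by
    rw [hgp, ← mul_assoc]
    have := mul_le_mul_of_nonneg_right k1 hR.le
    linarith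
  have hgp2 : gp ≤ ν₀ * R / 120 := by
    rw [hgp, ← mul_assoc]
    have := mul_le_mul_of_nonneg_right k2 hR.le
    linarith
  have hκgp : κ * R ≤ gp := by
    have : 1 * (κ * R) ≤ Sb * (κ * R) := mul_le_mul_of_nonneg_right hSb1 (by positivity)
    rw [hgp]
    linarith
  have hgp0 : 0 < gp := by linarith
  -- the later window
  obtain ⟨x', hx', x3, x4⟩ : ∃ x' ∈ G, x - κ * R ≤ x' ∧ x' ≤ x := by
    exact H1 R hR r1 x (by linarith) x2
  have hSr0 : Sl r * (x - w) ≤ Sb * (x - w) :=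
    mul_le_mul_of_nonneg_right (hSb r (by omega)) (by linarith)
  have hwx' : w ≤ x' := by
    by_contra hc
    rw [not_le] at hc
    have h1 : Sb * (x - w) ≤ Sb * (κ * R) := mul_le_mul_of_nonneg_left (by linarith) hSb0.le
    linarith
  have L := H2 R hR r2
  obtain ⟨E, rd, H4a, H4b⟩ := H4 w hw (by linarith) (by linarith)
  obtain ⟨u₁, rc, hrc, hch⟩ := h.ch w hw hwA hwB
  have hxw : x - w ≤ 2 * R := by linarith
  have hxw' : x' - w ≤ x - w := by linarith
  have hS0 : ∀ l, r₀ ≤ l → l ≤ r → 0 ≤ Sl l := fun l a b => by linarith [hS1 l a b]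
  have hSlΔ : ∀ l, r₀ ≤ l → l ≤ r → Sl l * (x' - w) ≤ 2 * Sb * R := fun l a b => by
    calc Sl l * (x' - w) ≤ Sb * (x' - w) :=
          mul_le_mul_of_nonneg_right (hSb l (by omega)) (by linarith)
      _ ≤ Sb * (2 * R) := mul_le_mul_of_nonneg_left (by linarith) hSb0.le
      _ = 2 * Sb * R := by ring
  have hbw : g - 2 * R ≤ w := by linarith
  have hxo : x' ≤ g + 2 * R := by linarith
  have hup := fun l a b => L.up (i := l) a b hw hx' hbw hwx' hxo
  have hGpR : Gp * R = 2 * Sb * R + 2 * R := by rw [hGp]; ring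
  have hGpR0 : 0 < Gp * R := by positivity
  have hCnR : Cn * R = C * R + ν₀ * R + (r + 1) * (Gp * R) + 2 * R := by rw [hCn]; ring
  have hZR : Z * R = Cn * R + 2 * Sb * R + 40 * R := by rw [hZ]; ring
  have hSbR : 0 < Sb * R := by positivity
  have hrG : 0 ≤ r * (Gp * R) := by positivity
  -- the digits
  obtain ⟨nn, hnn⟩ : ∃ nn : ℕ → ℝ, nn = fun l => sn w l + (q + ν₀ * R / 2) +
    ((r : ℝ) - 1 - l) * (Gp * R) := ⟨_, rfl⟩
  have hli : ∀ l < r, 0 ≤ ((r : ℝ) - 1 - l) * (Gp * R) ∧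
      ((r : ℝ) - 1 - l) * (Gp * R) ≤ r * (Gp * R) := fun l hl => by
    have e1 : (l : ℝ) + 1 ≤ r := by exact_mod_cast hl
    have e2 : (0 : ℝ) ≤ l := Nat.cast_nonneg l
    exact ⟨mul_nonneg (by linarith) hGpR0.le, mul_le_mul_of_nonneg_right (by linarith) hGpR0.le⟩
  have hnl : ∀ l, nn l = sn w l + (q + ν₀ * R / 2) + ((r : ℝ) - 1 - l) * (Gp * R) := fun l => by
    rw [hnn]
  have hnn1 : ∀ l, r₀ ≤ l → l < r → nn l ≤ n l := by
    intro l a b
    rw [hnl]
    rcases Nat.lt_or_ge (l + 1) r with h1 | h1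
    · have := hn1 l a h1
      linarith [(hli l b).2]
    · have h2 : l + 1 = r := by omega
      have h3 := (hn2 l a h2).1
      have h4 : ((r : ℝ) - 1 - l) = 0 := by
        have : (l : ℝ) + 1 = r := by exact_mod_cast h2
        linarith
      rw [h4]
      linarith
  have hstep : ∀ l l' : ℕ, l' < l → ((r : ℝ) - 1 - l) * (Gp * R) + Gp * R ≤
      ((r : ℝ) - 1 - l') * (Gp * R) := fun l l' hl => by
    have e1 : (l' : ℝ) + 1 ≤ l := by exact_mod_cast hl
    have := mul_le_mul_of_nonneg_right e1 hGpR0.le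
    linarith
  have HB : DgB r₀ r (fun l => sn w l) nn Λ gp := by
    refine ⟨fun l a b => ?_, fun l a b => ?_, fun l a b l' a' b' => ?_⟩
    · show sn w l + 30 * gp ≤ nn l
      rw [hnl]
      linarith [(hli l b).1]
    · show nn l + 30 * gp ≤ sn w l + Λ
      rw [hnl]
      linarith [(hli l b).2]
    · show nn l - sn w l + 30 * gp ≤ nn l' - sn w l'
      rw [hnl, hnl]
      linarith [hstep l l' b']
  have a1 := (all_F1 (f := fun J F => ptr F J) (y := y) (Jm := K + 2) htm hch hΛ (by linarith)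
    hgp0 HB (pw := p)
    (fun l a b => by
      show sn w l - gp ≤ p l
      linarith [hp l a b.le])
    (Nf := fun l j' => n l - (j' : ℝ) * w)
    (fun l a b j hj => by linarith [hnn1 l a b])
    h.pt (gch_kn h hwB.le) (h := e * R / 4) (by positivity)).up hwx (by linarith)
  have hEr := H4a r hr le_rfl
  obtain ⟨e₀, he₀, HP⟩ := H L (f := fun J F => ptr F J) (y := y)
    h.pt (w := w) (x := x') (a := x) (Ub := w + Λ) (q := q) (g₀ := g₀ / 2)
    (n := nn) (E := E) (rd := rd) (pq := sn w)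
    (by
      have e1 : w + Λ - w = Λ := by ring
      rw [e1]
      exact gch_kn h hwB.le) hw hx' hbw hwx' hxo x4 (by linarith) (by linarith) (by linarith) hq0
    (by linarith) hEr.2.2.2.2.1 (by
      show sn w r + q + E r + g₀ / 2 ≤ 1
      linarith [hEr.2.2.2.2.2]) (by linarith)
    (fun l a b => ⟨(H4a l a b).1, (H4a l a b).2.1⟩)
    (fun l a b => ⟨(H4a l a b).2.2.1, by linarith [(H4a l a b).2.2.2.1]⟩)
    (fun l a b => by
      rw [hnl]
      linarith [(H4a l a b.le).2.2.2.2.2, (hli l b).2])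
    (fun l a b => by
      show sn w l - κ * R ≤ sn w l
      linarith)
    (fun l a b => by
      show sn x' l + 20 * Sb * (κ * R) ≤ nn l
      have e1 : 20 * Sb * (κ * R) = 20 * gp := by rw [hgp]; ring
      rw [e1, hnl]
      have e2 := (hup l a b.le).2
      rcases Nat.lt_or_ge (l + 1) r with h1 | h1
      · have e3 : Gp * R ≤ ((r : ℝ) - 1 - l) * (Gp * R) := by
          have e4 : (l : ℝ) + 1 + 1 ≤ r := by exact_mod_cast h1
          have := mul_le_mul_of_nonneg_right (show (1 : ℝ) ≤ (r : ℝ) - 1 - l by linarith) hGpR0.le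
          linarith
        have e5 := hSlΔ l a b.le
        linarith
      · have h2 : l + 1 = r := by omega
        have h3 := (hn2 l a h2).2
        have h4 : Sl l * (x' - w) ≤ Sl l * (x - w) :=
          mul_le_mul_of_nonneg_left hxw' (hS0 l a b.le)
        have h5 := (hli l b).1
        linarith)
    (fun l a b => by
      show nn l + 20 * Sb * (κ * R) ≤ sn w l + (w + Λ - w)
      have e1 : 20 * Sb * (κ * R) = 20 * gp := by rw [hgp]; ring
      rw [e1, hnl]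
      linarith [(hli l b).2])
    (fun l a b l' a' b' => by
      show nn l - sn w l + max 0 (Sl l' - Sl l) * (x' - w) + 20 * Sb * (κ * R) ≤ nn l' - sn w l'
      have e1 : 20 * Sb * (κ * R) = 20 * gp := by rw [hgp]; ring
      rw [e1, hnl, hnl]
      have e2 : max 0 (Sl l' - Sl l) ≤ Sb := max_le hSb0.le (by
        linarith [hSb l' (by omega), hS0 l a b.le])
      have e3 : max 0 (Sl l' - Sl l) * (x' - w) ≤ Sb * (2 * R) :=
        mul_le_mul e2 (by linarith) (by linarith) hSb0.le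
      linarith [hstep l l' b'])
    (fun l a b => by
      show q + max 0 (Sl l - Sl r) * (x' - w) + 20 * Sb * (κ * R) ≤ nn l - sn w l
      have e1 : 20 * Sb * (κ * R) = 20 * gp := by rw [hgp]; ring
      rw [e1, hnl]
      have e2 : max 0 (Sl l - Sl r) = 0 := max_eq_left (by linarith [hSr l a b])
      rw [e2]
      linarith [(hli l b).1])
    (by
      show sn w r + q + 20 * Sb * (κ * R) ≤ sn x' r
      have e1 : 20 * Sb * (κ * R) = 20 * gp := by rw [hgp]; ring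
      rw [e1]
      have e2 := (hup r hr le_rfl).1
      have e3 : Sl r * (x - x') ≤ Sb * (κ * R) :=
        mul_le_mul (hSb r (by omega)) (by linarith) (by linarith) hSb0.le
      have e4 : Sl r * (x' - w) = Sl r * (x - w) - Sl r * (x - x') := by ring
      rw [← hgp] at e3
      linarith)
    (by
      show q + 20 * Sb * (κ * R) ≤ w + Λ - w
      have e1 : 20 * Sb * (κ * R) = 20 * gp := by rw [hgp]; ring
      rw [e1]
      linarith)
    (by
      have e1 : (r : ℝ) * (κ * R) = r * κ * R := by ring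
      rw [e1]
      have e2 := mul_le_mul_of_nonneg_right k3 hR.le
      have e3 := mul_le_mul_of_nonneg_left hq1 hδ.le
      linarith)
    (fun q' b1 b2 => by
      refine (H3 R hR r3 w hw w1 hw2 q' b1 (b2.trans hqC)).mono ?_
      have e3 := mul_le_mul_of_nonneg_left hq1 hδ.le
      linarith)
    H4b
  have he' : 0 < min e₀ (gp / 8) := lt_min he₀ (by linarith)
  have a2 := HP (min e₀ (gp / 8)) he' (min_le_left _ _) (K + 1) (p r) (hp r hr le_rfl)
  have hex : Exs S (qJets m c r₀ r (K + 2) (fun _ _ => w) (fun l _ => sn w l)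
      (fun l j => nn l - (j : ℕ) * w)) :=
    exs_qjets fun l a b j' _ => gch_exs h hw hwA hwB a b.le j' _
  have a3 := F1.trans htm hex he' (a1.mono (min_le_right _ _) le_rfl) a2
  have hx1 : x ≤ 1 := by linarith
  have hη : e * R / 4 + e / (2 * C) * q < e * R := by
    have e1 : e / (2 * C) * q ≤ e / (2 * C) * (C * R) :=
      mul_le_mul_of_nonneg_left hqC (by positivity)
    have e2 : e / (2 * C) * (C * R) = e * R / 2 := by
      field_simp
    have := mul_pos he hR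
    linarith
  exact cdC_mono (N := sn w r + q) (θ := e * R) ⟨min e₀ (gp / 8), he', fun K₀ E' =>
    cod_Fj_p htm (by linarith) hwx hx1 (gch_yT h) K a3 hη K₀ E'⟩ hN le_rfl

end Pool.CDX
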