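import Pool.Agent.H71.CDX.Cdk
import Pool.Agent.H71.CDX.Cdu

/-!
# The inputs of codes of the closed gradient, with labels at all windows near the point

`codes_at`: the inputs `cd`, `dj`, `jt` of `C1R`. The form with the labels in the box is `codes_atU`.
-/

set_option autoImplicit false

namespace Pool.CDX

open Finset Real MvPolynomial
open Pool.Agent.H49.Ent Pool.Agent.H32.Dense Pool.STK Pool.KA Pool.KSAT Pool.K2S Pool.PB Pool.GEN
open Pool.S6C Pool.RCD Pool.LA91 Pool.OWN68 Pool.CHT Pool.AVG96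
open Pool.GRD (LbP)
open Pool.AJW (CfB ctx cod_Fj_p)
open Pool.AJX (JetX LbX FwX ctxK_few)
open Pool.AVG57 (CdC nd ddN ntN)

variable {m : ℕ} {γ : ∀ J : ℕ, Fam m J → Type} {S : PCl m}
  {y : ∀ (J : ℕ) (F : Fam m J), F.Ω → γ J F} {c : ℕ → Fin m} {r₀ r K : ℕ} {s₀ A B Λ : ℝ}
  {sn : ℝ → ℕ → ℝ} {G : Set ℝ} {g : ℝ} {Sl : ℕ → ℝ}

/-- **The inputs of codes** of the closed gradient (`C1R`), at a point. -/
theorem codes_at {v : ℕ} (h : GCh S (fun J F => ptr F J) y c r₀ (v + 1) s₀ A B Λ sn G)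
    (hgA : A < g) (hgB : g < B) (hS : SlpG sn r₀ (v + 1) G g Sl) (hr : r₀ ≤ v)
    (hσ : 1 ≤ Sl (v + 1)) {hd : ℝ} (hh : 0 < hd) (hh1 : hd ≤ 1)
    (hraw : RawG S c sn G g hd (v + 1)) (hlb : LbG S c r₀ K sn G g (v + 1))
    (hsrc : ∀ l, r₀ ≤ l → l ≤ v → SrcG S y c r₀ K sn G g l) {e C ν₀ γ₀ : ℝ} (he : 0 < e)
    (hC : 0 < C) (hν : 0 < ν₀) (hγ : 0 < γ₀) :
    ∃ D : ℕ → ℝ, (∀ l ≤ v, C ≤ D l) ∧ (∀ l < v, D (l + 1) + γ₀ ≤ D l) ∧
    ∃ Cm κ ρ : ℝ, 0 < Cm ∧ 0 < κ ∧ 0 < ρ ∧ (∀ l ≤ v, D l ≤ Cm) ∧ ∀ R : ℝ, 0 < R → R < ρ →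
    ∀ w ∈ G, g - R ≤ w → ∀ x : ℝ, w ≤ x → x ≤ g + R → ∀ (a p s n n' : ℕ → ℝ) (q ξ ν : ℝ),
    (∀ l, r₀ ≤ l → l ≤ v + 1 → sn w l - κ * R ≤ p l) → s v = sn w v →
    s (v + 1) = sn w (v + 1) →
    (∀ l, r₀ ≤ l → l ≤ v → sn w l + (D l - 1) * R ≤ n l ∧ n l ≤ sn w l + D l * R ∧
      n' l = n l) →
    (∀ j : ℕ, j ≤ 1 → sn w v + Cm * R ≤ nD sn a v j + (j : ℝ) * w) →
    (∀ l, r₀ ≤ l → l ≤ v → Sl l * (x - w) + ν ≤ q) → q ≤ Sl (v + 1) * (x - w) →
    0 ≤ ξ → q + ξ ≤ C * R → ν₀ * R ≤ ν →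
    (∀ l, r₀ ≤ l → l ≤ v → CdC S y c l K 2 w w (p l) (n' l) (e * R)
      (jetQ m c r₀ l w p (nd n n' w))) ∧
    CdC S y c (v + 1) K 1 w w (p (v + 1)) (s (v + 1) + q + ξ) (e * R)
      (jetQ m c r₀ (v + 1) w p (ddN sn a n n' w v)) ∧
    CdC S y c (v + 1) K 0 w x (p (v + 1)) (s (v + 1) + q - ν) (e * R)
      (qJets m c r₀ (v + 1) (K + 2) (fun _ _ => w) (fun l _ => p l)
        (fun l j' => ntN s n (q - ν / 4) v l - (j' : ℝ) * w)) := by
  have hS1 : ∀ l, r₀ ≤ l → l ≤ v + 1 → 1 ≤ Sl l := fun l a b => by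
    rcases Nat.lt_or_ge l (v + 1) with h1 | h1
    · exact (hS.gt l a h1).le
    · obtain rfl : l = v + 1 := by omega
      exact hσ
  obtain ⟨Sb, hSb0, hSb⟩ := ex_max (v + 2) Sl
  have hSb1 : 1 ≤ Sb := hσ.trans (hSb (v + 1) (by omega))
  obtain ⟨ν₁, hν₁⟩ : ∃ ν₁, ν₁ = ν₀ / (2 * Sb) := ⟨_, rfl⟩
  have hν₁0 : 0 < ν₁ := by rw [hν₁]; positivity
  have hνS : 2 * (Sb * ν₁) = ν₀ := by rw [hν₁]; field_simp
  obtain ⟨C₁, κ₁, ρ₁, b1, b2, b3, H1⟩ := dj_at h hgA hgB hS (by omega) le_rfl hS1 hh hh1 hraw hlb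
    (fun l a b => hsrc l a (by omega)) he hC
  obtain ⟨C₂, κ₂, ρ₂, d1, d2, d3, H2⟩ := jt_at h hgA hgB hS (by omega) hS1 hh hh1 hraw hlb he hC
    hν₁0
  obtain ⟨Cu, hCu⟩ : ∃ Cu, Cu = C + C₁ + C₂ + 1 := ⟨_, rfl⟩
  obtain ⟨D, D1, D2, Cm, κ, ρ, q1, q2, q3, D3, H⟩ := cds_at h hgA hgB he
    (C := Cu) (by rw [hCu]; positivity) hγ v v le_rfl hsrc
  rw [Nat.sub_self] at D1 D2 D3 H
  have hD1 : ∀ l ≤ v, Cu ≤ D l := fun l a => D1 l (Nat.zero_le l) a
  refine ⟨D, fun l a => ?_, fun l a => D2 l (Nat.zero_le l) a, Cm + Cu, min κ (min κ₁ κ₂),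
    min (min ρ (min ρ₁ ρ₂)) (min (g - A) (B - g)), ?_, lt_min q2 (lt_min b2 d2),
    lt_min (lt_min q3 (lt_min b3 d3)) (lt_min (by linarith) (by linarith)), fun l a => ?_, ?_⟩
  · have := hD1 l a
    linarith
  · rw [hCu]
    positivity
  · have := D3 l (Nat.zero_le l) a
    rw [hCu]
    linarith
  intro R hR hRρ w hw w1 x hwx x2 a p s n n' q ξ ν hp hsv hst hn hfar hx hq hξ hqC hνν
  have r1 := hRρ.trans_le (min_le_left _ _)
  have k0 : min κ (min κ₁ κ₂) * R ≤ κ * R := mul_le_mul_of_nonneg_right (min_le_left _ _) hR.le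
  have k1 : min κ (min κ₁ κ₂) * R ≤ κ₁ * R :=
    mul_le_mul_of_nonneg_right ((min_le_right _ _).trans (min_le_left _ _)) hR.le
  have k2 : min κ (min κ₁ κ₂) * R ≤ κ₂ * R :=
    mul_le_mul_of_nonneg_right ((min_le_right _ _).trans (min_le_right _ _)) hR.le
  have hw2 : w ≤ g + R := hwx.trans x2
  have hCmR : Cu * R ≤ (Cm + Cu) * R := mul_le_mul_of_nonneg_right (by linarith) hR.le
  have hCuR : Cu * R = C * R + C₁ * R + C₂ * R + R := by rw [hCu]; ring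
  have hCR := mul_pos hC hR
  have hC1R := mul_pos b1 hR
  have hC2R := mul_pos d1 hR
  have hDR : ∀ l, r₀ ≤ l → l ≤ v → sn w l + C * R + C₁ * R + C₂ * R ≤ n l := fun l a b => by
    have h1 := (hn l a b).1
    have h2 : (Cu - 1) * R ≤ (D l - 1) * R :=
      mul_le_mul_of_nonneg_right (by linarith [hD1 l b]) hR.le
    have h3 : (Cu - 1) * R = C * R + C₁ * R + C₂ * R := by rw [hCu]; ring
    linarith
  have hνR : 0 < ν₀ * R := by positivity
  refine ⟨fun l a b => ?_, ?_, ?_⟩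
  · exact H R hR (r1.trans_le (min_le_left _ _)) w hw w1 hw2 p n n'
      (fun l' x' z => by linarith [hp l' x' (by omega)]) (fun l' x' _ z => hn l' x' z)
      (fun l' _ z => absurd z (Nat.not_lt_zero l')) l a (Nat.zero_le l) b
  · refine H1 R hR (r1.trans_le ((min_le_right _ _).trans (min_le_left _ _))) w hw w1 hw2 p
      (ddN sn a n n' w v) _ (fun l' x' z => by linarith [hp l' x' z.le])
      (by linarith [hp (v + 1) (by omega) le_rfl]) (fun l' x' z j hj => ?_) (by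
        rw [hst]
        linarith)
    unfold ddN
    by_cases h1 : l' = v
    · rw [if_pos h1, h1]
      have := hfar j hj
      linarith
    · rw [if_neg h1]
      have h2 := hDR l' x' (by omega)
      have h3 := (hn l' x' (by omega)).2.2
      exact nd_lo (by linarith) (by rw [h3]; linarith) j
  · have hxv := hx v hr le_rfl
    have hSv := hS1 v hr (by omega)
    have hxw : 0 ≤ x - w := by linarith
    have e1 : Sl (v + 1) * (x - w) ≤ Sb * (x - w) :=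
      mul_le_mul_of_nonneg_right (hSb (v + 1) (by omega)) hxw
    have e2 : 1 * (x - w) ≤ Sl v * (x - w) := mul_le_mul_of_nonneg_right hSv hxw
    have e3 : ν₁ * R ≤ x - w := by
      have h1 : Sb * (2 * (ν₁ * R)) ≤ Sb * (x - w) := by
        have : Sb * (2 * (ν₁ * R)) = ν₀ * R := by rw [← hνS]; ring
        linarith
      have := le_of_mul_le_mul_left h1 hSb0
      have h2 := mul_pos hν₁0 hR
      linarith
    have e4 : ν₁ * R ≤ ν₀ * R / 2 := by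
      have h1 : 1 * (ν₁ * R) ≤ Sb * (ν₁ * R) :=
        mul_le_mul_of_nonneg_right hSb1 (mul_pos hν₁0 hR).le
      have h2 : 2 * (Sb * (ν₁ * R)) = ν₀ * R := by rw [← hνS]; ring
      linarith
    refine H2 R hR (r1.trans_le ((min_le_right _ _).trans (min_le_right _ _))) w hw w1 x hwx x2 p
      (ntN s n (q - ν / 4) v) (q - ν) _ (fun l' x' z => by linarith [hp l' x' z])
      (fun l' x' z => ?_) (fun l' x' z => ?_) (fun l' x' z => ?_) (by linarith) (by linarith)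
      (by linarith) (by rw [hst]; linarith)
    · unfold ntN
      rw [if_neg (by omega)]
      have h2 := hDR l' x' (by omega)
      linarith
    · obtain rfl : l' = v := by omega
      unfold ntN
      rw [if_pos rfl, hsv]
      exact ⟨by linarith, by linarith⟩
    · by_contra hc
      rw [not_le] at hc
      have h3 := hx l' x' (by omega)
      have h4 : Sl (v + 1) * (x - w) ≤ Sl l' * (x - w) := mul_le_mul_of_nonneg_right hc.le hxw
      linarith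

end Pool.CDX
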