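import Pool.Agent.H71.CDX.Cdo

/-!
# Labels of a bounded degree in a maximal subclass

`max_ex`: a subclass in which countably many properties hold as soon as they hold in some subclass of
it. `LbN`: labels at a window of an interval exist as soon as they exist in some subclass; `lbn_ex`,
`LbN.sub`, `LbR.up`. `net_ex`: a net. `lbr_win`: `LbR` from labels at a net of windows.
-/

set_option autoImplicit false

namespace Pool.CDX

open Finset Real MvPolynomial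
open Pool.Agent.H49.Ent Pool.Agent.H32.Dense Pool.STK Pool.KA Pool.KSAT Pool.K2S Pool.PB Pool.GEN
open Pool.S6C Pool.RCD Pool.LA91 Pool.OWN68
open Pool.AJX (LbX)

variable {m : ℕ}

theorem bas_le {S S' : PCl m} (hle : S'.Le S) {Φ : Stat m} (h : Bas S Φ) : Bas S' Φ := by
  obtain ⟨t, ht, hs⟩ := hle
  obtain ⟨τ, hτ, J₁, H⟩ := h
  exact ⟨min τ t, lt_min hτ ht, J₁, fun J hJ F A hA => H J hJ F A
    (S.mono (min_le_left _ _) (hs _ (lt_min hτ ht) (min_le_right _ _) J F A hA))⟩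

/-- **A maximal subclass** for countably many hereditary properties of classes. -/
theorem max_ex {S : PCl m} (hS : S.Ne) {ι : Type} [Countable ι] (H : ι → PCl m → Prop)
    (hle : ∀ (i : ι) (S₁ S₂ : PCl m), S₂.Le S₁ → H i S₁ → H i S₂) :
    ∃ S' : PCl m, S'.Ne ∧
      (∀ (τ : ℝ) (J : ℕ) (F : Fam m J) (A : F.Ω → Prop), S'.St τ J F A → S.St τ J F A) ∧
      ∀ i, ∀ S'' : PCl m, S''.Ne → S''.Le S' → H i S'' → H i S' := by
  classical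
  rcases isEmpty_or_nonempty ι with hι | hι
  · exact ⟨S, hS, fun _ _ _ _ h => h, fun i => (hι.false i).elim⟩
  obtain ⟨f, hf⟩ := exists_surjective_nat ι
  obtain ⟨S', h1, h2, -, h4⟩ := hS.diag
    (fun n S₁ P => (∃ S'' : PCl m, S''.Ne ∧ S''.Le S₁ ∧ H (f n) S'') → H (f n) (S₁.sl P)) (by
    intro n S₁ _ hne
    by_cases hex : ∃ S'' : PCl m, S''.Ne ∧ S''.Le S₁ ∧ H (f n) S''
    · obtain ⟨S'', hne'', hle'', hH⟩ := hex
      refine ⟨⟨S''.St, fun h => S''.mono h, fun h hA hB hP => S''.res h hA hB hP⟩, fun _ =>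
        hle (f n) S'' _ ⟨1, one_pos, fun _ _ _ _ _ _ h => h.2⟩ hH, ?_⟩
      intro τ hτ J₁
      obtain ⟨t, ht, hs⟩ := hle''
      obtain ⟨J, hJ, F, A, hA⟩ := hne'' (min τ t) (lt_min hτ ht) J₁
      exact ⟨J, hJ, F, A, S₁.mono (min_le_left _ _) (hs _ (lt_min hτ ht) (min_le_right _ _) J F A hA),
        S''.mono (min_le_left _ _) hA⟩
    · refine ⟨⟨fun _ _ _ _ => True, fun _ _ => trivial, fun _ _ _ _ => trivial⟩, fun h =>
        absurd h hex, ?_⟩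
      intro τ hτ J₁
      obtain ⟨J, hJ, F, A, hA⟩ := hne τ hτ J₁
      exact ⟨J, hJ, F, A, hA, trivial⟩)
  refine ⟨S', h1, h2, fun i S'' hne hle' hH => ?_⟩
  obtain ⟨n, rfl⟩ := hf i
  obtain ⟨S₁, P, hR, -, -, hP, -⟩ := h4 n
  exact hle _ _ _ hP (hR ⟨S'', hne, (hle'.trans hP).trans (PCl.sl_le _ _), hH⟩)

theorem LabW.le {S S' : PCl m} {c : ℕ → Fin m} {r₀ K : ℕ} {sn : ℝ → ℕ → ℝ} {g₀ b : ℝ} {i : ℕ}
    (h : LabW S c r₀ K sn g₀ b i) (hs : S'.Le S) : LabW S' c r₀ K sn g₀ b i := by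
  obtain ⟨E, rd, h1, h2⟩ := h
  exact ⟨E, rd, h1, fun e he => bas_le hs (h2 e he)⟩

/-- **Labels exist in the class** as soon as they exist in a subclass of it. -/
def LbN (S : PCl m) (c : ℕ → Fin m) (r₀ : ℕ) (sn : ℝ → ℕ → ℝ) (G : Set ℝ) (i : ℕ) : Prop :=
  ∀ (K : ℕ) (g₀ a b : ℚ) (S'' : PCl m), S''.Ne → S''.Le S →
    (∃ x ∈ G, (a : ℝ) < x ∧ x < b ∧ LabW S'' c r₀ K sn g₀ x i) →
    ∃ x ∈ G, (a : ℝ) < x ∧ x < b ∧ LabW S c r₀ K sn g₀ x i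

/-- **A subclass with this property.** -/
theorem lbn_ex {S : PCl m} (hS : S.Ne) (c : ℕ → Fin m) (r₀ : ℕ) (sn : ℝ → ℕ → ℝ) (G : Set ℝ)
    (i : ℕ) : ∃ S' : PCl m, S'.Ne ∧
      (∀ (τ : ℝ) (J : ℕ) (F : Fam m J) (A : F.Ω → Prop), S'.St τ J F A → S.St τ J F A) ∧
      LbN S' c r₀ sn G i := by
  obtain ⟨S', h1, h2, h3⟩ := max_ex hS (ι := ℕ × ℚ × ℚ × ℚ)
    (fun k S₁ => ∃ x ∈ G, (k.2.2.1 : ℝ) < x ∧ x < k.2.2.2 ∧ LabW S₁ c r₀ k.1 sn k.2.1 x i)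
    (fun k S₁ S₂ hle => by
      rintro ⟨x, hx, a1, a2, a3⟩
      exact ⟨x, hx, a1, a2, a3.le hle⟩)
  exact ⟨S', h1, h2, fun K g₀ a b S'' hne hle hx => h3 (K, g₀, a, b) S'' hne hle hx⟩

/-- It passes to subclasses. -/
theorem LbN.sub {S S' : PCl m} {c : ℕ → Fin m} {r₀ : ℕ} {sn : ℝ → ℕ → ℝ} {G : Set ℝ} {i : ℕ}
    (h : LbN S c r₀ sn G i) (hle : S'.Le S) : LbN S' c r₀ sn G i := by
  intro K g₀ a b S'' hne hle' hx
  obtain ⟨x, hx, a1, a2, a3⟩ := h K g₀ a b S'' hne (hle'.trans hle) hx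
  exact ⟨x, hx, a1, a2, a3.le hle⟩

/-- **Labels in the box** from labels in a subclass. -/
theorem LbR.up {S S'' : PCl m} {c : ℕ → Fin m} {r₀ K : ℕ} {sn : ℝ → ℕ → ℝ} {G : Set ℝ} {i : ℕ}
    (hN : LbN S c r₀ sn G i) (hne : S''.Ne) (hle : S''.Le S) {g₀ : ℚ} {g W ε : ℝ}
    (h : LbR S'' c r₀ K sn G g g₀ W ε i) : LbR S c r₀ K sn G g g₀ W ε i := by
  intro w hw w1 w2
  obtain ⟨b, hb, b1, b2, hL⟩ := h w hw w1 w2
  obtain ⟨q₁, h1, h2⟩ := exists_rat_btwn b1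
  obtain ⟨q₂, h3, h4⟩ := exists_rat_btwn b2
  obtain ⟨x, hx, x1, x2, hx'⟩ := hN K g₀ q₁ q₂ S'' hne hle ⟨b, hb, h2, h3, hL⟩
  exact ⟨x, hx, by linarith, by linarith, hx'⟩

/-- **A net** of an interval. -/
theorem net_ex {W κ : ℝ} (hW : 0 ≤ W) (hκ : 0 < κ) : ∃ (N : ℕ) (V : ℕ → ℝ),
    (∀ k < N, -(W + κ) ≤ V k ∧ V k ≤ W + κ) ∧
    ∀ u : ℝ, -W ≤ u → u ≤ W → ∃ k < N, u - κ < V k ∧ V k < u := by
  obtain ⟨M, hM⟩ := exists_nat_gt ((2 * W + κ) / (κ / 3))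
  rw [div_lt_iff₀ (by positivity)] at hM
  refine ⟨M + 1, fun k => min (-(W + 2 * κ / 3) + k * (κ / 3)) W, fun k _ => ⟨?_, ?_⟩,
    fun u u1 u2 => ?_⟩
  · have : (0 : ℝ) ≤ k * (κ / 3) := by positivity
    exact le_min (by linarith) (by linarith)
  · exact (min_le_right _ _).trans (by linarith)
  · obtain ⟨k, hk⟩ : ∃ k : ℕ, k = ⌊(u + W + κ / 3) / (κ / 3)⌋₊ := ⟨_, rfl⟩
    have h0 : 0 ≤ (u + W + κ / 3) / (κ / 3) := div_nonneg (by linarith) (by positivity)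
    have h1 : (k : ℝ) ≤ (u + W + κ / 3) / (κ / 3) := by rw [hk]; exact Nat.floor_le h0
    have h2 : (u + W + κ / 3) / (κ / 3) < k + 1 := by rw [hk]; exact Nat.lt_floor_add_one _
    rw [le_div_iff₀ (by positivity)] at h1
    rw [div_lt_iff₀ (by positivity)] at h2
    have h3 : k < M + 1 := by
      have h4 : (k : ℝ) * (κ / 3) < (M + 1) * (κ / 3) := by linarith
      have h5 := lt_of_mul_lt_mul_right h4 (by positivity : 0 ≤ κ / 3)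
      exact_mod_cast h5
    refine ⟨k, h3, ?_, ?_⟩
    · refine lt_min ?_ (by linarith)
      linarith
    · exact lt_of_le_of_lt (min_le_left _ _) (by linarith)

/-- **Labels in the box** from labels at a net of windows. -/
theorem lbr_win {S : PCl m} {c : ℕ → Fin m} {r₀ K : ℕ} {sn : ℝ → ℕ → ℝ} {G : Set ℝ} {i : ℕ}
    {t q g₀ W κ : ℝ} {N : ℕ} {V : ℕ → ℝ} (hq : 0 < q)
    (hnet : ∀ u : ℝ, -W ≤ u → u ≤ W → ∃ k < N, u - κ < V k ∧ V k < u)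
    (hG : ∀ k < N, t + V k * q ∈ G) (hL : ∀ k < N, LabW S c r₀ K sn g₀ (t + V k * q) i) :
    LbR S c r₀ K sn G t g₀ (W * q) (κ * q) i := by
  intro w _ w1 w2
  obtain ⟨k, hk, k1, k2⟩ := hnet ((w - t) / q) (by rw [le_div_iff₀ hq]; linarith)
    (by rw [div_le_iff₀ hq]; linarith)
  rw [lt_div_iff₀ hq] at k2
  have k3 : (w - t) / q < V k + κ := by linarith
  rw [div_lt_iff₀ hq] at k3
  exact ⟨_, hG k hk, by linarith, by linarith, hL k hk⟩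

end Pool.CDX
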